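import Mathlib

/-!
# Module Cnt: a counting argument

PROOF. `cnt_fin`: Burnside's lemma (`MulAction.sum_card_fixedBy_eq_card_orbits_mul_card_group`):
`2 |X| + 2 (|G| - 2) = r |G|` (`1` and `z` fix all of `X`).  `|G|` divides `24 |X|`: `X` is the
disjoint union of the orbits (`MulAction.card_eq_sum_card_group_div_card_stabilizer` or
`selfEquivSigmaOrbits`), and `|orbit| |stabilizer| = |G|`, so `24 |orbit| = |G| (24 / |stabilizer|)`.
In `ℤ`: `48 = 24 |X| + 24 |G| - 12 (2 |X| + 2 (|G| - 2))` is divisible by `|G|`.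
`cnt`: let `X'` be the set of the points fixed by some `g ≠ 1, z`.  It is finite (finite union of
sets with `ncard = 2`) and stable under `G` (`h x` is fixed by `h g h⁻¹`, which is not `1` and not
`z` because `z` is central).  Apply `cnt_fin` to the action on `X'` (`SubMulAction`): the sets
`fixedBy` and the stabilizers are the same.
-/

set_option autoImplicit false

open MulAction

namespace Pool.Agent.H63.MO

theorem cnt_fin {G X : Type*} [Group G] [Finite G] [Finite X] [MulAction G X] (z : G)
    (hz : z ≠ 1) (hz1 : ∀ x : X, z • x = x)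
    (h2 : ∀ g : G, g ≠ 1 → g ≠ z → Nat.card (fixedBy X g) = 2)
    (h24 : ∀ x : X, Nat.card (stabilizer G x) ∣ 24) : Nat.card G ∣ 48 := by
  classical
  have := Fintype.ofFinite G
  have := Fintype.ofFinite X
  have : Fintype (Quotient (orbitRel G X)) := Fintype.ofFinite _
  have hb := sum_card_fixedBy_eq_card_orbits_mul_card_group G X
  have hf : ∀ g : G, Fintype.card (fixedBy X g) =
      if g = 1 ∨ g = z then Fintype.card X else 2 := by
    intro g
    by_cases hg : g = 1 ∨ g = z
    · rw [if_pos hg]
      have h1 : fixedBy X g = Set.univ := by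
        ext x
        simp only [mem_fixedBy, Set.mem_univ, iff_true]
        rcases hg with rfl | rfl
        · exact one_smul _ x
        · exact hz1 x
      rw [← Nat.card_eq_fintype_card, h1, ← Nat.card_eq_fintype_card (α := X)]
      exact Nat.card_congr (Equiv.Set.univ X)
    · rw [if_neg hg, ← Nat.card_eq_fintype_card]
      push Not at hg
      exact h2 g hg.1 hg.2
  have hsum : ∑ g : G, Fintype.card (fixedBy X g) + 4 =
      2 * Fintype.card X + 2 * Fintype.card G := by
    have e1 : ∑ g : G, Fintype.card (fixedBy X g) =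
        ∑ g : G, if g = 1 ∨ g = z then Fintype.card X else 2 :=
      Finset.sum_congr rfl fun g _ => hf g
    rw [e1, Finset.sum_ite, Finset.sum_const, Finset.sum_const, smul_eq_mul, smul_eq_mul]
    have e2 : (Finset.univ.filter fun g : G => g = 1 ∨ g = z) = {1, z} := by
      ext g
      simp
    have e3 : (Finset.univ.filter fun g : G => g = 1 ∨ g = z).card = 2 := by
      rw [e2, Finset.card_pair hz.symm]
    have e4 := Finset.card_filter_add_card_filter_not (s := (Finset.univ : Finset G))
      (fun g : G => g = 1 ∨ g = z)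
    rw [Finset.card_univ, e3] at e4
    rw [e3]
    omega
  have hX : Nat.card G ∣ 24 * Fintype.card X := by
    rw [card_eq_sum_card_group_div_card_stabilizer G X, Finset.mul_sum]
    refine Finset.dvd_sum fun ω _ => ?_
    obtain ⟨k, hk⟩ := h24 ω.out
    have h3 : Nat.card (stabilizer G ω.out) ∣ Nat.card G := Subgroup.card_subgroup_dvd_card _
    obtain ⟨l, hl⟩ := h3
    have h4 : 0 < Nat.card (stabilizer G ω.out) := Nat.card_pos
    rw [← Nat.card_eq_fintype_card, ← Nat.card_eq_fintype_card, hl, Nat.mul_div_cancel_left l h4, hk]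
    exact ⟨k, by ring⟩
  rw [Nat.card_eq_fintype_card] at hX ⊢
  obtain ⟨a, ha⟩ := hX
  rw [hb] at hsum
  have key : ((Fintype.card G : ℕ) : ℤ) ∣ 48 := by
    refine ⟨a + 24 - 12 * Fintype.card (Quotient (orbitRel G X)), ?_⟩
    have ha' : (24 : ℤ) * (Fintype.card X : ℤ) = (Fintype.card G : ℤ) * (a : ℤ) := by
      exact_mod_cast ha
    have hs' : (Fintype.card (Quotient (orbitRel G X)) : ℤ) * (Fintype.card G : ℤ) + 4 =
        2 * (Fintype.card X : ℤ) + 2 * (Fintype.card G : ℤ) := by
      exact_mod_cast hsum
    linear_combination (12 : ℤ) * hs' + ha'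
  exact_mod_cast key

theorem cnt {G X : Type*} [Group G] [Finite G] [MulAction G X] (z : G) (hz : z ≠ 1)
    (hzc : ∀ g : G, g * z = z * g) (hz1 : ∀ x : X, z • x = x)
    (h2 : ∀ g : G, g ≠ 1 → g ≠ z → (fixedBy X g).ncard = 2)
    (h24 : ∀ x : X, Nat.card (stabilizer G x) ∣ 24) : Nat.card G ∣ 48 := by
  classical
  let P : SubMulAction G X :=
    { carrier := {x | ∃ g : G, g ≠ 1 ∧ g ≠ z ∧ g • x = x}
      smul_mem' := by
        rintro h x ⟨g, hg1, hgz, hgx⟩
        refine ⟨h * g * h⁻¹, ?_, ?_, ?_⟩
        · intro h3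
          apply hg1
          have h4 : h * g = h := by
            have := congrArg (fun y => y * h) h3
            simpa using this
          simpa using h4
        · intro h3
          apply hgz
          have h4 : h * g = z * h := by
            have := congrArg (fun y => y * h) h3
            simpa using this
          rw [← hzc h] at h4
          exact mul_left_cancel h4
        · rw [smul_smul, inv_mul_cancel_right, mul_smul, hgx] }
  have hmem : ∀ x : X, x ∈ P ↔ ∃ g : G, g ≠ 1 ∧ g ≠ z ∧ g • x = x := fun x => Iff.rfl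
  have hfin : Finite P := by
    have h3 : (P : Set X) ⊆ ⋃ g : {g : G // g ≠ 1 ∧ g ≠ z}, fixedBy X (g : G) := by
      rintro x ⟨g, hg1, hgz, hgx⟩
      exact Set.mem_iUnion.2 ⟨⟨g, hg1, hgz⟩, hgx⟩
    have h4 : (⋃ g : {g : G // g ≠ 1 ∧ g ≠ z}, fixedBy X (g : G)).Finite := by
      refine Set.finite_iUnion fun g => ?_
      apply Set.finite_of_ncard_ne_zero
      rw [h2 g.1 g.2.1 g.2.2]
      norm_num
    exact (h4.subset h3).to_subtype
  refine cnt_fin (X := P) z hz (fun x => Subtype.ext (hz1 x.1)) (fun g hg1 hgz => ?_) (fun x => ?_)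
  · rw [← h2 g hg1 hgz, ← Nat.card_coe_set_eq]
    refine Nat.card_congr
      { toFun := fun x => ⟨x.1.1, congrArg Subtype.val x.2⟩
        invFun := fun x => ⟨⟨x.1, g, hg1, hgz, x.2⟩, Subtype.ext x.2⟩
        left_inv := fun x => rfl
        right_inv := fun x => rfl }
  · rw [SubMulAction.stabilizer_of_subMul]
    exact h24 x.1

end Pool.Agent.H63.MO
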