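import Pool.Agent.H63.MO.Root

/-!
# Module Cx: the loxodromic case, arithmetic part

PROOF. `K = ℂ` in `root_core`: `σ = κ`, `v = V`, `u = λ`, `w = λ̄`, `a := a / 4`, `b := ā / 4`.
For large `n`: `‖1 - a λ ^ n‖ = EE (a λ ^ n / 4) EE (conj (a λ ^ n / 4))` (`norm_EE`, H20/RO/Ser).
`hK`: for an integer `k ≠ 0`, `1 ≤ |k| ‖k‖ = |k|²`.  `he`: `he_complex` (H20/RO/Cat).  `hbd`:
`|s n| ≤ κ (1 + ‖a‖) V ^ n`.  `λ̄` is algebraic (`IsAlgebraic.algHom`/`isAlgebraic_algHom_iff` with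
the conjugation as a `ℚ`-algebra homomorphism, or: conjugate the polynomial equation).  Conclusion:
`a λ ^ n / 4 = (ā / 4) λ̄ ^ n`, so `a λ ^ n` is real.
-/

set_option autoImplicit false

open Finset Pool.Agent.H20.RO

namespace Pool.Agent.H63.MO

theorem cx_core {lam a : ℂ} (h0 : lam ≠ 0) (h1 : ‖lam‖ < 1) (hlam : IsAlgebraic ℚ lam) {V κ : ℝ}
    (hV : 0 < V) (hVa : IsAlgebraic ℚ V) (hκ : 0 < κ) {s : ℕ → ℚ}
    (hs : ∀ n, κ * V ^ n * ‖1 - a * lam ^ n‖ = s n) {N D : ℕ} (hN : 0 < N) (hD : 0 < D)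
    (hint : ∀ n, ∃ k : ℤ, (N : ℚ) * (D : ℚ) ^ n * s n = k) (n : ℕ) : (a * lam ^ n).im = 0 := by
  have hK : ∀ k : ℤ, k ≠ 0 → 1 ≤ |(k : ℝ)| * ‖(k : ℂ)‖ := by
    intro k hk
    rw [Complex.norm_intCast]
    have h2 : (1 : ℝ) ≤ |(k : ℝ)| := by
      have : (1 : ℤ) ≤ |k| := Int.one_le_abs hk
      exact_mod_cast this
    nlinarith
  have hbd : ∀ n, |((s n : ℚ) : ℝ)| ≤ (κ * (1 + ‖a‖)) * V ^ n := by
    intro n
    have hl : ‖lam‖ ^ n ≤ 1 := pow_le_one₀ (norm_nonneg _) h1.le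
    have h3 : ‖1 - a * lam ^ n‖ ≤ 1 + ‖a‖ := by
      calc ‖1 - a * lam ^ n‖ ≤ ‖(1 : ℂ)‖ + ‖a * lam ^ n‖ := norm_sub_le _ _
        _ = 1 + ‖a‖ * ‖lam‖ ^ n := by rw [norm_one, norm_mul, norm_pow]
        _ ≤ 1 + ‖a‖ * 1 := by gcongr
        _ = 1 + ‖a‖ := by ring
    rw [← hs n, abs_of_nonneg (by positivity)]
    calc κ * V ^ n * ‖1 - a * lam ^ n‖ ≤ κ * V ^ n * (1 + ‖a‖) := by gcongr
      _ = (κ * (1 + ‖a‖)) * V ^ n := by ring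
  obtain ⟨n₀, hn₀⟩ := exists_pow_lt_of_lt_one
    (show (0 : ℝ) < 1 / (‖a‖ + 1) by positivity) h1
  have hs' : ∀ n ≥ n₀, ((s n : ℚ) : ℂ) = (κ : ℂ) * (V : ℂ) ^ n *
      (EE (a / 4 * lam ^ n) * EE ((starRingEnd ℂ) a / 4 * (starRingEnd ℂ) lam ^ n)) := by
    intro n hn
    have h3 : ‖lam‖ ^ n < 1 / (‖a‖ + 1) :=
      lt_of_le_of_lt (pow_le_pow_of_le_one (norm_nonneg _) h1.le hn) hn₀
    have h4 : ‖lam‖ ^ n * (‖a‖ + 1) < 1 := by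
      rwa [lt_div_iff₀ (by positivity)] at h3
    have h5 : 4 * ‖a / 4 * lam ^ n‖ < 1 := by
      rw [norm_mul, norm_div, norm_pow]
      have h6 : ‖(4 : ℂ)‖ = 4 := by norm_num
      rw [h6]
      have h7 : 0 ≤ ‖lam‖ ^ n := by positivity
      have h8 : 4 * (‖a‖ / 4 * ‖lam‖ ^ n) = ‖lam‖ ^ n * ‖a‖ := by ring
      rw [h8]
      nlinarith
    have h6 := norm_EE h5
    have h7 : (starRingEnd ℂ) (a / 4 * lam ^ n) =
        (starRingEnd ℂ) a / 4 * (starRingEnd ℂ) lam ^ n := by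
      rw [map_mul, map_div₀, map_pow]
      congr 2
      exact Complex.conj_ofNat 4
    rw [h7] at h6
    rw [h6]
    have h8 : 1 - 4 * (a / 4 * lam ^ n) = 1 - a * lam ^ n := by ring
    rw [h8]
    have h9 : ((s n : ℚ) : ℂ) = (((s n : ℚ) : ℝ) : ℂ) := by push_cast; rfl
    rw [h9, ← hs n]
    push_cast
    ring
  have hwa : IsAlgebraic ℚ ((starRingEnd ℂ) lam) :=
    hlam.algHom ((Complex.conjAe.restrictScalars ℚ : ℂ ≃ₐ[ℚ] ℂ) : ℂ →ₐ[ℚ] ℂ)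
  have hva : IsAlgebraic ℚ (V : ℂ) := hVa.algebraMap
  have hmain := root_core (K := ℂ) hK he_complex hN hD hint hbd
    (σ := (κ : ℂ)) (v := (V : ℂ)) (u := lam) (w := (starRingEnd ℂ) lam) (a := a / 4)
    (b := (starRingEnd ℂ) a / 4) (by exact_mod_cast hκ.ne') (by exact_mod_cast hV.ne') h0
    (by rw [RCLike.norm_conj]) h1 hva hlam hwa hs' n
  rw [← Complex.conj_eq_iff_im, map_mul, map_pow]
  have h3 : a * lam ^ n = 4 * (a / 4 * lam ^ n) := by ring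
  rw [h3, hmain]
  ring

end Pool.Agent.H63.MO
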