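import Mathlib

/-!
# Module Dbl: double series

This is `dbl` of Pool/Agent/H20/RO/SDbl.lean (adapt its proof) for a general normed field and for
norms `‖μ ij‖ = v ρ ^ (i + j)`, `v > 0` (there: `v = 1`, `ℂ`).

PROOF. For `i + j ≥ m` and `k ≥ 1`: `‖c ij * μ ij ^ k‖ ≤ B v ^ k (ρ ^ k) ^ (i + j) ≤
B v ^ k (ρ ^ m) ^ k ρ ^ (i + j - m)`, and `∑ ρ ^ (i + j) = 1 / (1 - ρ)²`.  So
`‖s‖ ≤ C (v ρ ^ m) ^ k` with `C = B ρ ^ (-m) / (1 - ρ)²`.  Subtract the terms of `antidiagonal m`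
and use the same bound with `m + 1`.
-/

set_option autoImplicit false

open Finset

namespace Pool.Agent.H63.MO

private lemma Dbl_sum {ρ : ℝ} (hρ0 : 0 < ρ) (hρ1 : ρ < 1) :
    Summable fun ij : ℕ × ℕ => ρ ^ (ij.1 + ij.2) := by
  have h1 := summable_geometric_of_lt_one hρ0.le hρ1
  have h2 := h1.mul_of_nonneg h1 (fun i => (pow_pos hρ0 i).le) (fun i => (pow_pos hρ0 i).le)
  refine h2.congr fun ij => ?_
  rw [pow_add]

private lemma Dbl_aux {K : Type*} [NormedField K] {ρ v B : ℝ} (hρ0 : 0 < ρ) (hρ1 : ρ < 1)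
    (hv : 0 < v) (hB : 0 ≤ B) {c μ : ℕ × ℕ → K}
    (hc : ∀ ij, ‖c ij‖ ≤ B) (hμ : ∀ ij : ℕ × ℕ, ‖μ ij‖ = v * ρ ^ (ij.1 + ij.2)) {m : ℕ}
    (h0 : ∀ ij : ℕ × ℕ, ij.1 + ij.2 < m → c ij = 0) {k : ℕ} (hk : 1 ≤ k) {s : K}
    (hs : HasSum (fun ij => c ij * μ ij ^ k) s) :
    ‖s‖ ≤ (B * (ρ ^ m)⁻¹ * ∑' ij : ℕ × ℕ, ρ ^ (ij.1 + ij.2)) * (v * ρ ^ m) ^ k := by
  have hm : 0 < ρ ^ m := pow_pos hρ0 m
  have h1 := ((Dbl_sum hρ0 hρ1).hasSum).mul_left (B * (ρ ^ m)⁻¹ * (v * ρ ^ m) ^ k)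
  have h2 : ∀ ij : ℕ × ℕ,
      ‖c ij * μ ij ^ k‖ ≤ B * (ρ ^ m)⁻¹ * (v * ρ ^ m) ^ k * ρ ^ (ij.1 + ij.2) := by
    intro ij
    rcases lt_or_ge (ij.1 + ij.2) m with h | h
    · rw [h0 ij h, zero_mul, norm_zero]
      positivity
    · rw [norm_mul, norm_pow, hμ]
      obtain ⟨d, hd⟩ := Nat.exists_eq_add_of_le h
      rw [hd]
      have h3 : (v * ρ ^ (m + d)) ^ k ≤ (v * ρ ^ m) ^ k * ρ ^ d := by
        have e : v * ρ ^ (m + d) = v * ρ ^ m * ρ ^ d := by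
          rw [pow_add]
          ring
        rw [e, mul_pow]
        refine mul_le_mul_of_nonneg_left ?_ (by positivity)
        exact pow_le_of_le_one (pow_pos hρ0 d).le (pow_le_one₀ hρ0.le hρ1.le) (by omega)
      have h4 : B * (ρ ^ m)⁻¹ * (v * ρ ^ m) ^ k * ρ ^ (m + d) =
          B * ((v * ρ ^ m) ^ k * ρ ^ d) := by
        rw [pow_add]
        field_simp
      rw [h4]
      exact mul_le_mul (hc ij) h3 (by positivity) hB
  have h5 := hs.norm_le_of_bounded h1 h2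
  refine h5.trans (le_of_eq ?_)
  ring

theorem dblK {K : Type*} [NormedField K] {ρ v B : ℝ} (hρ0 : 0 < ρ) (hρ1 : ρ < 1) (hv : 0 < v)
    {c μ : ℕ × ℕ → K} (hc : ∀ ij, ‖c ij‖ ≤ B)
    (hμ : ∀ ij : ℕ × ℕ, ‖μ ij‖ = v * ρ ^ (ij.1 + ij.2)) {m : ℕ}
    (h0 : ∀ ij : ℕ × ℕ, ij.1 + ij.2 < m → c ij = 0) :
    ∃ C : ℝ, 0 ≤ C ∧ ∀ k : ℕ, 1 ≤ k → ∀ s : K, HasSum (fun ij => c ij * μ ij ^ k) s →
      ‖s‖ ≤ C * (v * ρ ^ m) ^ k ∧
      ‖s - ∑ ij ∈ antidiagonal m, c ij * μ ij ^ k‖ ≤ C * (v * ρ ^ (m + 1)) ^ k := by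
  have hB : 0 ≤ B := (norm_nonneg _).trans (hc (0, 0))
  have hS : 0 ≤ ∑' ij : ℕ × ℕ, ρ ^ (ij.1 + ij.2) := tsum_nonneg fun ij => (pow_pos hρ0 _).le
  have hm : 0 < ρ ^ m := pow_pos hρ0 m
  have hm1 : 0 < ρ ^ (m + 1) := pow_pos hρ0 _
  have hle : (ρ ^ m)⁻¹ ≤ (ρ ^ (m + 1))⁻¹ :=
    inv_anti₀ hm1 (pow_le_pow_of_le_one hρ0.le hρ1.le (Nat.le_succ m))
  refine ⟨B * (ρ ^ (m + 1))⁻¹ * ∑' ij : ℕ × ℕ, ρ ^ (ij.1 + ij.2), by positivity,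
    fun k hk s hs => ⟨?_, ?_⟩⟩
  · refine (Dbl_aux hρ0 hρ1 hv hB hc hμ h0 hk hs).trans ?_
    refine mul_le_mul_of_nonneg_right ?_ (by positivity)
    refine mul_le_mul_of_nonneg_right ?_ hS
    exact mul_le_mul_of_nonneg_left hle hB
  · have hg : HasSum (fun ij : ℕ × ℕ => if ij.1 + ij.2 = m then c ij * μ ij ^ k else 0)
        (∑ ij ∈ antidiagonal m, c ij * μ ij ^ k) := by
      have h1 : HasSum (fun ij : ℕ × ℕ => if ij.1 + ij.2 = m then c ij * μ ij ^ k else 0)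
          (∑ ij ∈ antidiagonal m, (if ij.1 + ij.2 = m then c ij * μ ij ^ k else 0)) :=
        hasSum_sum_of_ne_finset_zero (fun ij hij => if_neg fun h => hij (mem_antidiagonal.2 h))
      have h2 : ∑ ij ∈ antidiagonal m, (if ij.1 + ij.2 = m then c ij * μ ij ^ k else 0) =
          ∑ ij ∈ antidiagonal m, c ij * μ ij ^ k :=
        Finset.sum_congr rfl fun ij hij => if_pos (mem_antidiagonal.1 hij)
      rwa [h2] at h1
    have h3 := hs.sub hg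
    have h4 : (fun ij : ℕ × ℕ => c ij * μ ij ^ k - if ij.1 + ij.2 = m then c ij * μ ij ^ k else 0) =
        fun ij => (if ij.1 + ij.2 = m then 0 else c ij) * μ ij ^ k := by
      funext ij
      split_ifs <;> simp
    rw [h4] at h3
    refine Dbl_aux hρ0 hρ1 hv hB (c := fun ij => if ij.1 + ij.2 = m then 0 else c ij) ?_ hμ
      (m := m + 1) ?_ hk h3
    · intro ij
      split_ifs
      · rw [norm_zero]
        exact hB
      · exact hc ij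
    · intro ij hij
      split_ifs with h
      · rfl
      · exact h0 ij (by omega)

end Pool.Agent.H63.MO
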