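import Pool.Agent.H20.RO.Defs

/-!
# Rational distance sets and Möbius maps (MP_f77932_co): definitions
-/

set_option autoImplicit false

open Finset Pool.Agent.H20.RO

namespace Pool.Agent.H63.MO

/-- `S` is contained in a circle. -/
def OnCirc (S : Set ℂ) : Prop := ∃ (c : ℂ) (r : ℝ), 0 < r ∧ ∀ z ∈ S, dist z c = r

/-- All points of `S`, with at most two exceptions, lie on one line or on one circle. -/
def Near (S : Set ℂ) : Prop := ∃ p q : ℂ, OnLine (S \ {p, q}) ∨ OnCirc (S \ {p, q})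

/-- `v` is the image of `u` under the Möbius map `u ↦ (a u + b) / (c u + d)` (and `u` is not its
pole). -/
def Mob (a b c d u v : ℂ) : Prop := c * u + d ≠ 0 ∧ v = (a * u + b) / (c * u + d)

/-- The numbers `J 0 = 1`, `J (n + 1) = J n (c z_n + d)`. -/
noncomputable def J (c d : ℂ) (z : ℕ → ℂ) : ℕ → ℂ
  | 0 => 1
  | n + 1 => J c d z n * (c * z n + d)

/-- The numbers `L n = J n (z_n - w) / (a + d) ^ n`. -/
noncomputable def L (a c d : ℂ) (z : ℕ → ℂ) (w : ℂ) (n : ℕ) : ℂ :=
  J c d z n * (z n - w) / (a + d) ^ n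

end Pool.Agent.H63.MO
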