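import Pool.Agent.H20.RO.Ser

/-!
# Module Efac: expansion of the distances

This is `rec_exp` and `p_fac` of H20/RO (PExp, PFac; adapt their proofs) for an algebraically closed
field `K`.

PROOF. `z ≠ 0`, `z * (t - z) = 1`, so `z⁻¹ = t - z`, `z - z⁻¹ ≠ 0` (norms).  As in `rec_exp`:
`y n = α z ^ n + β z⁻¹ ^ n` in `K`, `α β (4 - t²) = (4 - t²) B` and `4 - t² = -(z - z⁻¹)² ≠ 0`, so
`α β = B ≠ 0`.  Let `R ∈ K` be a root of `X² - A X + B` (`IsAlgClosed.exists_root` or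
`IsAlgClosed.exists_eq_mul_self` for the discriminant), `R ≠ 0`, `A - R = B / R`; `c₁ = α / R`,
`c₂ = R / β`.  `c₁ = c₂` would give `R² = α β = B`, so `2 R² = A R`, `A = 2 R`, `A² = 4 B`
(in `K`, so in `ℚ`), excluded by `hAB`.  For `x = z ^ n`:
`s n ^ 2 = A - α x - β x⁻¹ = -(β / x) (1 - c₁ x) (1 - c₂ x)`.  Let `ζ ^ 2 = z`, `σ ^ 2 = -β`
(`IsAlgClosed.exists_pow_nat_eq`), `v = ζ⁻¹`, `a = c₁ / 4`, `b = c₂ / 4`.  For `n ≥ n₀`
(`4 ‖a‖ ‖z‖ ^ n < 1`, `4 ‖b‖ ‖z‖ ^ n < 1`): `G n = EE (a z ^ n) EE (b z ^ n)`,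
`G n ^ 2 = (1 - c₁ x) (1 - c₂ x)` (`EE_sq`), so `s n ^ 2 = (σ v ^ n G n) ^ 2` and
`s n = ± σ v ^ n G n`; choose `s' n = ± s n` with the same sign.
-/

set_option autoImplicit false

open Finset Filter Topology Pool.Agent.H20.RO

namespace Pool.Agent.H63.MO

private theorem Efac_sq {K : Type*} [Field K] {α β x R W : K} (hβ : β ≠ 0) (hR : R ≠ 0)
    (hx : x ≠ 0) (h : α * β = R * W) :
    R + W - (α * x + β * x⁻¹) = -(β / x) * ((1 - α / R * x) * (1 - R / β * x)) := by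
  have hW : W = α * β / R := by
    rw [h]
    field_simp
  rw [hW]
  field_simp
  ring

private theorem Efac_exp {K : Type*} [NormedField K] {t : ℚ} {z : K} (hz0 : z ≠ 0)
    (hne : z - z⁻¹ ≠ 0) (hzi : z⁻¹ = ((t : ℚ) : K) - z) [CharZero K]
    (hz : z ^ 2 - ((t : ℚ) : K) * z + 1 = 0) {y : ℕ → ℚ}
    (hy : ∀ n, y (n + 2) = t * y (n + 1) - y n) :
    ∃ α β : K, (∀ n, ((y n : ℚ) : K) = α * z ^ n + β * (z⁻¹) ^ n) ∧
      α * β * ((4 - t ^ 2 : ℚ) : K) = ((y 1 ^ 2 - t * y 0 * y 1 + y 0 ^ 2 : ℚ) : K) := by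
  have hzz : z * z⁻¹ = 1 := mul_inv_cancel₀ hz0
  have ht : (t : K) = z + z⁻¹ := by rw [hzi]; ring
  have hw : (z⁻¹) ^ 2 = (t : K) * z⁻¹ - 1 := by
    rw [ht]
    linear_combination -hzz
  refine ⟨((y 1 : K) - y 0 * z⁻¹) / (z - z⁻¹), ((y 0 : K) * z - y 1) / (z - z⁻¹), ?_, ?_⟩
  · have key : ∀ n, ((y n : ℚ) : K) = ((y 1 : K) - y 0 * z⁻¹) / (z - z⁻¹) * z ^ n +
          ((y 0 : K) * z - y 1) / (z - z⁻¹) * (z⁻¹) ^ n ∧
        ((y (n + 1) : ℚ) : K) = ((y 1 : K) - y 0 * z⁻¹) / (z - z⁻¹) * z ^ (n + 1) +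
          ((y 0 : K) * z - y 1) / (z - z⁻¹) * (z⁻¹) ^ (n + 1) := by
      intro n
      induction n with
      | zero =>
        constructor
        · rw [pow_zero, pow_zero, mul_one, mul_one, ← add_div, eq_div_iff hne]
          ring
        · rw [zero_add, pow_one, pow_one, div_mul_eq_mul_div, div_mul_eq_mul_div, ← add_div,
            eq_div_iff hne]
          ring
      | succ n ih =>
        refine ⟨ih.2, ?_⟩
        rw [hy n]
        push_cast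
        rw [ih.1, ih.2]
        have e1 : z ^ (n + 1 + 1) = z ^ n * (t * z - 1) := by
          have : z ^ 2 = t * z - 1 := by linear_combination hz
          rw [← this]; ring
        have e2 : (z⁻¹) ^ (n + 1 + 1) = (z⁻¹) ^ n * (t * z⁻¹ - 1) := by
          rw [← hw]; ring
        rw [e1, e2, pow_succ, pow_succ]
        ring
    exact fun n => (key n).1
  · have hsq : (z - z⁻¹) ^ 2 = (t : K) ^ 2 - 4 := by
      rw [ht]
      linear_combination -(4 : K) * hzz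
    have h5 : ((y 1 : K) - y 0 * z⁻¹) / (z - z⁻¹) * (((y 0 : K) * z - y 1) / (z - z⁻¹)) *
        (4 - (t : K) ^ 2) = -(((y 1 : K) - y 0 * z⁻¹) * ((y 0 : K) * z - y 1)) := by
      have h6 : (4 - (t : K) ^ 2) = -(z - z⁻¹) ^ 2 := by rw [hsq]; ring
      rw [h6, div_mul_div_comm, mul_neg, ← sq (z - z⁻¹),
        div_mul_cancel₀ _ (pow_ne_zero 2 hne)]
    push_cast
    rw [h5, ht]
    linear_combination ((y 0 : K) ^ 2) * hzz

theorem e_fac {K : Type*} [NormedField K] [CompleteSpace K] [CharZero K] [IsAlgClosed K]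
    (he : ∀ n, ‖(ee n : K)‖ ≤ 4 ^ n) {t : ℚ} {z : K} (hz0 : z ≠ 0) (hz1 : ‖z‖ < 1)
    (hz : z ^ 2 - ((t : ℚ) : K) * z + 1 = 0) {A B : ℚ} (hB : B ≠ 0) (hAB : A ^ 2 ≠ 4 * B)
    {y s : ℕ → ℚ} (hy : ∀ n, y (n + 2) = t * y (n + 1) - y n) (hs : ∀ n, s n ^ 2 = A - y n)
    (hdisc : y 1 ^ 2 - t * y 0 * y 1 + y 0 ^ 2 = (4 - t ^ 2) * B) :
    ∃ (σ v a b : K) (s' : ℕ → ℚ) (n₀ : ℕ), σ ≠ 0 ∧ v ^ 2 * z = 1 ∧ a ≠ b ∧
      (∀ n, s' n = s n ∨ s' n = - s n) ∧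
      ∀ n ≥ n₀, ((s' n : ℚ) : K) = σ * v ^ n * (EE (a * z ^ n) * EE (b * z ^ n)) := by
  classical
  have hzz : z * z⁻¹ = 1 := mul_inv_cancel₀ hz0
  have hzi : z⁻¹ = ((t : ℚ) : K) - z := by
    have h : z * (((t : ℚ) : K) - z) = 1 := by linear_combination -hz
    exact inv_eq_of_mul_eq_one_right h
  have ht : (t : K) = z + z⁻¹ := by rw [hzi]; ring
  have hne : z - z⁻¹ ≠ 0 := by
    intro h
    have h1 : z = z⁻¹ := sub_eq_zero.1 h
    have h2 : z * z = 1 := by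
      nth_rewrite 2 [h1]
      exact hzz
    have h3 : ‖z‖ * ‖z‖ = 1 := by rw [← norm_mul, h2, norm_one]
    have h4 : 0 ≤ ‖z‖ := norm_nonneg z
    nlinarith
  obtain ⟨α, β, hyn, hab⟩ := Efac_exp hz0 hne hzi hz hy
  have h4 : ((4 - t ^ 2 : ℚ) : K) ≠ 0 := by
    have h5 : ((4 - t ^ 2 : ℚ) : K) = -(z - z⁻¹) ^ 2 := by
      push_cast
      rw [ht]
      linear_combination -(4 : K) * hzz
    rw [h5]
    exact neg_ne_zero.2 (pow_ne_zero 2 hne)
  have hB0 : ((B : ℚ) : K) ≠ 0 := by exact_mod_cast hB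
  have hαβ : α * β = (B : K) := by
    have h1 : α * β * ((4 - t ^ 2 : ℚ) : K) = (B : K) * ((4 - t ^ 2 : ℚ) : K) := by
      rw [hab, hdisc, Rat.cast_mul]
      ring
    exact mul_right_cancel₀ h4 h1
  have hne' : α * β ≠ 0 := by rwa [hαβ]
  have hα : α ≠ 0 := left_ne_zero_of_mul hne'
  have hβ : β ≠ 0 := right_ne_zero_of_mul hne'
  have h2K : (2 : K) ≠ 0 := two_ne_zero
  have hfour : (4 : K) ≠ 0 := by
    have : ((4 : ℚ) : K) ≠ 0 := by exact_mod_cast (by norm_num : (4 : ℚ) ≠ 0)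
    simpa using this
  obtain ⟨D, hD⟩ := IsAlgClosed.exists_pow_nat_eq ((A : K) ^ 2 - 4 * (B : K)) (n := 2) two_pos
  set R : K := ((A : K) + D) / 2 with hRd
  have hR2 : R * ((A : K) - R) = (B : K) := by
    rw [hRd]
    have e : ((A : K) + D) / 2 * ((A : K) - ((A : K) + D) / 2) = ((A : K) ^ 2 - D ^ 2) / 4 := by
      field_simp
      ring
    rw [e, hD]
    field_simp
    ring
  have hR0 : R ≠ 0 := by
    intro h
    rw [h, zero_mul] at hR2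
    exact hB0 hR2.symm
  have hRW : α * β = R * ((A : K) - R) := by rw [hαβ, hR2]
  have hc12 : α / R / 4 ≠ R / β / 4 := by
    intro h0
    have h1 : α / R = R / β := by
      have := congrArg (fun u => u * 4) h0
      simpa [div_mul_cancel₀ _ hfour] using this
    rw [div_eq_div_iff hR0 hβ, hαβ] at h1
    have h5 : (A : K) * R = 2 * (B : K) := by linear_combination hR2 - h1
    have h6 : ((A : K) ^ 2) * (B : K) = 4 * (B : K) * (B : K) := by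
      linear_combination (A : K) ^ 2 * h1 + ((A : K) * R + 2 * B) * h5
    have h7 : (A : K) ^ 2 = 4 * (B : K) := mul_right_cancel₀ hB0 h6
    exact hAB (by exact_mod_cast h7)
  obtain ⟨ζ, hζ⟩ := IsAlgClosed.exists_pow_nat_eq z (n := 2) two_pos
  obtain ⟨σ, hσ⟩ := IsAlgClosed.exists_pow_nat_eq (-β) (n := 2) two_pos
  have hζ0 : ζ ≠ 0 := by
    intro h
    rw [h] at hζ
    exact hz0 (by rw [← hζ]; ring)
  have hσ0 : σ ≠ 0 := by
    intro h
    rw [h] at hσ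
    exact hβ (neg_eq_zero.1 (by rw [← hσ]; ring))
  set a : K := α / R / 4 with had
  set b : K := R / β / 4 with hbd
  set M : ℝ := 4 * ‖a‖ + 4 * ‖b‖ with hM
  have htend : Tendsto (fun m : ℕ => M * ‖z‖ ^ m) atTop (𝓝 (M * 0)) :=
    Tendsto.const_mul M (tendsto_pow_atTop_nhds_zero_of_lt_one (norm_nonneg z) hz1)
  rw [mul_zero] at htend
  obtain ⟨m0, hm0⟩ := eventually_atTop.1 (htend.eventually (gt_mem_nhds one_pos))
  have hbound : ∀ m ≥ m0, ∀ w : K, 4 * ‖w‖ ≤ M → 4 * ‖w * z ^ m‖ < 1 := by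
    intro m hm w hk
    have h1 := hm0 m hm
    rw [norm_mul, norm_pow, ← mul_assoc]
    exact lt_of_le_of_lt (mul_le_mul_of_nonneg_right hk (by positivity)) h1
  have hn1 := norm_nonneg a
  have hn2 := norm_nonneg b
  have ha : ∀ m ≥ m0, 4 * ‖a * z ^ m‖ < 1 := fun m hm =>
    hbound m hm _ (by rw [hM]; linarith)
  have hb : ∀ m ≥ m0, 4 * ‖b * z ^ m‖ < 1 := fun m hm =>
    hbound m hm _ (by rw [hM]; linarith)
  have hG2 : ∀ m ≥ m0, (EE (a * z ^ m) * EE (b * z ^ m)) ^ 2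
      = (1 - α / R * z ^ m) * (1 - R / β * z ^ m) := by
    intro m hm
    have e1 := EE_sq he (ha m hm)
    have e2 := EE_sq he (hb m hm)
    have e3 : (4 : K) * (a * z ^ m) = α / R * z ^ m := by
      rw [had, ← mul_assoc, mul_div_cancel₀ _ hfour]
    have e4 : (4 : K) * (b * z ^ m) = R / β * z ^ m := by
      rw [hbd, ← mul_assoc, mul_div_cancel₀ _ hfour]
    rw [e3] at e1
    rw [e4] at e2
    rw [mul_pow, e1, e2]
  have hvz : ∀ m : ℕ, ((ζ⁻¹) ^ m) ^ 2 = (z ^ m)⁻¹ := by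
    intro m
    rw [← hζ, inv_pow, inv_pow, ← pow_mul, ← pow_mul, mul_comm m 2]
  have hsq : ∀ m ≥ m0, ((s m : ℚ) : K) ^ 2
      = (σ * (ζ⁻¹) ^ m * (EE (a * z ^ m) * EE (b * z ^ m))) ^ 2 := by
    intro m hm
    have hx : z ^ m ≠ 0 := pow_ne_zero _ hz0
    have h1 : ((s m : ℚ) : K) ^ 2 = R + ((A : K) - R) - (α * z ^ m + β * (z ^ m)⁻¹) := by
      have h2 : ((s m : ℚ) : K) ^ 2 = (((s m) ^ 2 : ℚ) : K) := by push_cast; ring
      rw [h2, hs m, Rat.cast_sub, hyn m, inv_pow]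
      ring
    rw [h1, Efac_sq hβ hR0 hx hRW, mul_pow, hG2 m hm, mul_pow, hσ, hvz]
    field_simp
  refine ⟨σ, ζ⁻¹, a, b, fun m => if ((s m : ℚ) : K) = σ * (ζ⁻¹) ^ m *
    (EE (a * z ^ m) * EE (b * z ^ m)) then s m else - s m, m0, hσ0, ?_, hc12, fun m => ?_,
    fun m hm => ?_⟩
  · rw [inv_pow, hζ]
    exact inv_mul_cancel₀ hz0
  · simp only
    split_ifs
    · exact Or.inl rfl
    · exact Or.inr rfl
  · simp only
    by_cases h2 : ((s m : ℚ) : K) = σ * (ζ⁻¹) ^ m * (EE (a * z ^ m) * EE (b * z ^ m))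
    · rw [if_pos h2]
      exact h2
    · rw [if_neg h2]
      have h3 := (sq_eq_sq_iff_eq_or_eq_neg.1 (hsq m hm)).resolve_left h2
      rw [Rat.cast_neg, h3, neg_neg]

end Pool.Agent.H63.MO
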