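import Pool.Agent.H63.MO.Ell

/-!
# Module Elc: the elliptic case

PROOF. `λ = κ₁ / κ₂`, `‖λ‖ = 1`, `λ̄ = λ⁻¹`.  `(κ₁ + κ₂)² = 1` gives `λ + λ⁻¹ = 1 / δ - 2`, so
`1 / δ = 2 + 2 Re λ` is real and `≥ 0`, not `0`: `δ = ‖δ‖ = q` is rational, `C = 1 / q - 2 = 2 Re λ`
is rational.  If `C` is an integer: `|C| ≤ 2`, `λ² - C λ + 1 = 0`, so `λ = ± 1` or `λ³ = 1` or
`λ⁴ = 1` or `λ⁶ = 1`, so `κ₁ ^ 12 = κ₂ ^ 12`, excluded by `hno`.  `t = C² - 2 = λ² + λ⁻²`: if `t` is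
an integer then `C²` is, so `C` is.  So `t.den ≠ 1`.
`‖κ₁‖² = ‖κ₂‖² = q`, `κ₁ κ̄₂ = q λ`.  `s m = ‖L (2 m)‖ / q ^ m` is rational and
`s m ^ 2 = ‖α‖² + ‖β‖² + 2 Re (α β̄ λ ^ (2 m))`.  `y m = - 2 Re (α β̄ λ ^ (2 m))` (real),
`y (m + 2) = t y (m + 1) - y m`.  `A = ‖α‖² + ‖β‖²` is rational: `s 2 ^ 2 - t s 1 ^ 2 + s 0 ^ 2 =
(2 - t) A`, `t ≠ 2`.  So the `y m` are rational.  `B = ‖α‖² ‖β‖²`:
`y 1² - t y 0 y 1 + y 0² = (4 - t²) B` (with `y m = - (x λ² ^ m + x̄ λ⁻² ^ m)`, `x = α β̄`), so `B` is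
rational (`t² ≠ 4`).  If `B = 0`, then `α = 0` or `β = 0`.  Otherwise `ell_core`
(`|s m| ≤ ‖α‖ + ‖β‖`): `(‖α‖² + ‖β‖²)² = 4 ‖α‖² ‖β‖²`, `‖α‖ = ‖β‖`.
-/

set_option autoImplicit false

open Finset Pool.Agent.H20.RO

namespace Pool.Agent.H63.MO

private theorem Elc_conj {κ₁ κ₂ : ℂ} (h1 : κ₁ + κ₂ = 1) (h0 : κ₁ ≠ 0) (h0' : κ₂ ≠ 0)
    (heq : ‖κ₁‖ = ‖κ₂‖) : (starRingEnd ℂ) κ₁ = κ₂ := by
  have e1 : κ₁ * (starRingEnd ℂ) κ₁ = (‖κ₁‖ : ℂ) ^ 2 := Complex.mul_conj' κ₁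
  have e2 : κ₂ * (starRingEnd ℂ) κ₂ = (‖κ₁‖ : ℂ) ^ 2 := by
    rw [heq]
    exact Complex.mul_conj' κ₂
  have e3 : (starRingEnd ℂ) κ₁ + (starRingEnd ℂ) κ₂ = 1 := by
    rw [← map_add, h1, map_one]
  have e4 : (‖κ₁‖ : ℂ) ^ 2 = κ₁ * κ₂ := by
    linear_combination (-(‖κ₁‖ : ℂ) ^ 2) * h1 - κ₂ * e1 - κ₁ * e2 + κ₁ * κ₂ * e3
  refine mul_left_cancel₀ h0 ?_
  rw [e1, e4]

private theorem Elc_den {C : ℚ} {κ₁ κ₂ : ℂ} (h1 : κ₁ + κ₂ = 1) (h0 : κ₁ ≠ 0) (h0' : κ₂ ≠ 0)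
    (heq : ‖κ₁‖ = ‖κ₂‖) (hno : ∀ n : ℕ, 1 ≤ n → κ₁ ^ n ≠ κ₂ ^ n)
    (hC : (C : ℂ) = κ₁ / κ₂ + κ₂ / κ₁) : (C ^ 2 - 2).den ≠ 1 := by
  intro hd
  have e1 : C ^ 2 = (((C ^ 2 - 2).num + 2 : ℤ) : ℚ) := by
    have e2 := Rat.num_div_den (C ^ 2 - 2)
    rw [hd] at e2
    push_cast
    push_cast at e2
    linarith
  have e3 : (C ^ 2).den = 1 := by
    rw [e1]
    exact Rat.den_intCast _
  rw [Rat.den_pow] at e3
  have e4 : C.den = 1 := by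
    have := C.den_pos
    nlinarith
  have e5 : C = (C.num : ℚ) := by
    have e6 := Rat.num_div_den C
    rw [e4] at e6
    simpa using e6.symm
  obtain ⟨c, hc⟩ : ∃ c : ℤ, C = c := ⟨C.num, e5⟩
  have hn : ‖κ₁ / κ₂‖ = 1 := by
    rw [norm_div, heq, div_self (norm_ne_zero_iff.2 h0')]
  have hn' : ‖κ₂ / κ₁‖ = 1 := by
    rw [norm_div, heq, div_self (norm_ne_zero_iff.2 h0')]
  have e7 : |(c : ℝ)| ≤ 2 := by
    have e8 : ‖(C : ℂ)‖ ≤ 2 := by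
      rw [hC]
      refine (norm_add_le _ _).trans ?_
      rw [hn, hn']
      norm_num
    rw [hc] at e8
    have e9 : (((c : ℤ) : ℚ) : ℂ) = ((c : ℝ) : ℂ) := by push_cast; rfl
    rw [e9, Complex.norm_real, Real.norm_eq_abs] at e8
    exact e8
  have e8 : κ₁ ^ 2 + κ₂ ^ 2 = (c : ℂ) * (κ₁ * κ₂) := by
    rw [hc] at hC
    push_cast at hC
    rw [hC]
    field_simp
  rw [abs_le] at e7
  have f1 : (-2 : ℤ) ≤ c := by
    have := e7.1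
    exact_mod_cast this
  have f2 : c ≤ 2 := by
    have := e7.2
    exact_mod_cast this
  interval_cases c
  · have : (κ₁ + κ₂) ^ 2 = 0 := by
      push_cast at e8
      linear_combination e8
    rw [h1] at this
    norm_num at this
  · refine hno 3 (by norm_num) ?_
    push_cast at e8
    linear_combination (κ₁ - κ₂) * e8
  · refine hno 4 (by norm_num) ?_
    push_cast at e8
    linear_combination (κ₁ ^ 2 - κ₂ ^ 2) * e8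
  · refine hno 6 (by norm_num) ?_
    push_cast at e8
    linear_combination (κ₁ + κ₂) * (κ₁ ^ 3 - κ₂ ^ 3) * e8
  · have : (κ₁ - κ₂) ^ 2 = 0 := by
      push_cast at e8
      linear_combination e8
    have h2 : κ₁ - κ₂ = 0 := by
      exact pow_eq_zero_iff (two_ne_zero) |>.1 this
    refine hno 1 le_rfl ?_
    rw [pow_one, pow_one]
    exact sub_eq_zero.1 h2

theorem ell {L : ℕ → ℂ} {δ κ₁ κ₂ α β : ℂ} (h1 : κ₁ + κ₂ = 1) (h2 : κ₁ * κ₂ = δ) (hδ : δ ≠ 0)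
    (heq : ‖κ₁‖ = ‖κ₂‖) (hno : ∀ n : ℕ, 1 ≤ n → κ₁ ^ n ≠ κ₂ ^ n) (hδ1 : ∃ q : ℚ, ‖δ‖ = q)
    (hL : ∀ n, L n = α * κ₁ ^ n + β * κ₂ ^ n) (hr : ∀ n, ∃ r : ℚ, ‖L n‖ = r) :
    α = 0 ∨ β = 0 ∨ ‖α‖ = ‖β‖ := by
  obtain ⟨Q, hQ⟩ := hδ1
  choose r hr using hr
  have h0 : κ₁ ≠ 0 := by
    rintro rfl
    exact hδ (by rw [← h2, zero_mul])
  have h0' : κ₂ ≠ 0 := by
    rintro rfl
    exact hδ (by rw [← h2, mul_zero])
  have c1 := Elc_conj h1 h0 h0' heq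
  have c2 : (starRingEnd ℂ) κ₂ = κ₁ := by
    rw [← c1, Complex.conj_conj]
  have hn2 : κ₁ * κ₂ = (‖κ₁‖ : ℂ) ^ 2 := by
    rw [← c1]
    exact Complex.mul_conj' κ₁
  have hQr : (Q : ℝ) = ‖κ₁‖ ^ 2 := by
    rw [← hQ, ← h2, norm_mul, ← heq]
    ring
  have hQc : (Q : ℂ) = κ₁ * κ₂ := by
    rw [hn2]
    have : ((Q : ℝ) : ℂ) = ((‖κ₁‖ ^ 2 : ℝ) : ℂ) := by rw [hQr]
    push_cast at this
    exact this
  have hk0 : 0 < ‖κ₁‖ := norm_pos_iff.2 h0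
  have hQ0r : (0 : ℝ) < Q := by
    rw [hQr]
    positivity
  have hQ0 : Q ≠ 0 := by
    rintro rfl
    simp at hQ0r
  obtain ⟨C, hCd⟩ : ∃ C : ℚ, C = 1 / Q - 2 := ⟨_, rfl⟩
  have hC : (C : ℂ) = κ₁ / κ₂ + κ₂ / κ₁ := by
    rw [hCd]
    push_cast
    rw [hQc]
    field_simp
    linear_combination (-(κ₁ + κ₂ + 1)) * h1
  have hden := Elc_den h1 h0 h0' heq hno hC
  obtain ⟨t, htd⟩ : ∃ t : ℚ, t = C ^ 2 - 2 := ⟨_, rfl⟩
  rw [← htd] at hden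
  have ht2 : (2 : ℚ) - t ≠ 0 := by
    intro h
    have h3 : t = 2 := by linarith
    rw [h3] at hden
    exact hden rfl
  have ht4 : (4 : ℚ) - t ^ 2 ≠ 0 := by
    intro h
    have h3 : (t + 2) * (2 - t) = 0 := by linear_combination h
    rcases mul_eq_zero.1 h3 with h4 | h4
    · have h5 : t = -2 := by linarith
      rw [h5] at hden
      exact hden rfl
    · exact ht2 h4
  obtain ⟨l, hl⟩ : ∃ l : ℂ, l = κ₁ / κ₂ := ⟨_, rfl⟩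
  obtain ⟨l', hl'⟩ : ∃ l' : ℂ, l' = κ₂ / κ₁ := ⟨_, rfl⟩
  have hll : l * l' = 1 := by
    rw [hl, hl']
    field_simp
  have htc : (t : ℂ) = l ^ 2 + l' ^ 2 := by
    rw [htd]
    push_cast
    rw [hC, ← hl, ← hl']
    linear_combination 2 * hll
  obtain ⟨Y, hY⟩ : ∃ Y : ℕ → ℂ, ∀ m, Y m = -(α * (starRingEnd ℂ) β * (l ^ 2) ^ m +
    (starRingEnd ℂ) α * β * (l' ^ 2) ^ m) := ⟨_, fun m => rfl⟩
  have hl1 : l ^ 2 * l' ^ 2 = 1 := by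
    rw [← mul_pow, hll, one_pow]
  have hYrec : ∀ m, Y (m + 2) = (t : ℂ) * Y (m + 1) - Y m := by
    intro m
    rw [hY, hY, hY, htc]
    generalize l ^ 2 = u at *
    generalize l' ^ 2 = u' at *
    rw [pow_succ u (m + 1), pow_succ u m, pow_succ u' (m + 1), pow_succ u' m]
    linear_combination (α * (starRingEnd ℂ) β * u ^ m + (starRingEnd ℂ) α * β * u' ^ m) * hl1
  obtain ⟨s, hs⟩ : ∃ s : ℕ → ℚ, ∀ m, s m = r (2 * m) / Q ^ m := ⟨_, fun m => rfl⟩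
  have hs2 : ∀ m, (s m : ℂ) ^ 2 = (α * (starRingEnd ℂ) α + β * (starRingEnd ℂ) β) - Y m := by
    intro m
    have e1 : (r (2 * m) : ℂ) ^ 2 = L (2 * m) * (starRingEnd ℂ) (L (2 * m)) := by
      rw [Complex.mul_conj', hr (2 * m)]
      push_cast
      rfl
    rw [hL, map_add, map_mul, map_mul, map_pow, map_pow, c1, c2] at e1
    have e2 : (l ^ 2) ^ m = (κ₁ ^ (2 * m)) / κ₂ ^ (2 * m) := by
      rw [hl, ← pow_mul, div_pow]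
    have e3 : (l' ^ 2) ^ m = (κ₂ ^ (2 * m)) / κ₁ ^ (2 * m) := by
      rw [hl', ← pow_mul, div_pow]
    rw [hs, hY, e2, e3]
    push_cast
    rw [div_pow, e1, hQc, ← pow_mul, mul_comm m 2, mul_pow]
    have k1 : κ₁ ^ (2 * m) ≠ 0 := pow_ne_zero _ h0
    have k2 : κ₂ ^ (2 * m) ≠ 0 := pow_ne_zero _ h0'
    generalize κ₁ ^ (2 * m) = p at *
    generalize κ₂ ^ (2 * m) = p' at *
    field_simp
    ring
  obtain ⟨A, hA⟩ : ∃ A : ℚ, A = (s 2 ^ 2 - t * s 1 ^ 2 + s 0 ^ 2) / (2 - t) := ⟨_, rfl⟩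
  have hAc : (A : ℂ) = α * (starRingEnd ℂ) α + β * (starRingEnd ℂ) β := by
    have e1 : (A : ℂ) * (2 - t) = (s 2 : ℂ) ^ 2 - t * (s 1 : ℂ) ^ 2 + (s 0 : ℂ) ^ 2 := by
      have e2 : A * (2 - t) = s 2 ^ 2 - t * s 1 ^ 2 + s 0 ^ 2 := by
        rw [hA, div_mul_cancel₀ _ ht2]
      have e3 : ((A * (2 - t) : ℚ) : ℂ) = ((s 2 ^ 2 - t * s 1 ^ 2 + s 0 ^ 2 : ℚ) : ℂ) := by
        rw [e2]
      push_cast at e3
      exact e3
    rw [hs2, hs2, hs2] at e1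
    have e4 : (2 : ℂ) - t ≠ 0 := by
      have : (((2 : ℚ) - t : ℚ) : ℂ) ≠ 0 := by
        rw [Rat.cast_ne_zero]
        exact ht2
      push_cast at this
      exact this
    refine mul_right_cancel₀ e4 ?_
    have e5 := hYrec 0
    linear_combination e1 - e5
  obtain ⟨y, hy⟩ : ∃ y : ℕ → ℚ, ∀ m, y m = A - s m ^ 2 := ⟨_, fun m => rfl⟩
  have hyc : ∀ m, (y m : ℂ) = Y m := by
    intro m
    rw [hy]
    push_cast
    rw [hs2, hAc]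
    ring
  have hyrec : ∀ m, y (m + 2) = t * y (m + 1) - y m := by
    intro m
    have e1 : ((y (m + 2) : ℚ) : ℂ) = ((t * y (m + 1) - y m : ℚ) : ℂ) := by
      push_cast
      rw [hyc, hyc, hyc, hYrec]
    exact_mod_cast e1
  obtain ⟨B, hB⟩ : ∃ B : ℚ, B = (y 1 ^ 2 - t * y 0 * y 1 + y 0 ^ 2) / (4 - t ^ 2) := ⟨_, rfl⟩
  have hB1 : y 1 ^ 2 - t * y 0 * y 1 + y 0 ^ 2 = (4 - t ^ 2) * B := by
    rw [hB, mul_div_cancel₀ _ ht4]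
  have hBc : (B : ℂ) = (α * (starRingEnd ℂ) α) * (β * (starRingEnd ℂ) β) := by
    have e1 : (((y 1 ^ 2 - t * y 0 * y 1 + y 0 ^ 2 : ℚ)) : ℂ) = (((4 - t ^ 2) * B : ℚ) : ℂ) := by
      rw [hB1]
    push_cast at e1
    rw [hyc, hyc, hY, hY, pow_zero, pow_zero, pow_one, pow_one] at e1
    have e4 : (4 : ℂ) - (t : ℂ) ^ 2 ≠ 0 := by
      have : (((4 : ℚ) - t ^ 2 : ℚ) : ℂ) ≠ 0 := by
        rw [Rat.cast_ne_zero]
        exact ht4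
      push_cast at this
      exact this
    refine mul_left_cancel₀ e4 ?_
    rw [← e1, htc]
    generalize l ^ 2 = u at *
    generalize l' ^ 2 = u' at *
    generalize (starRingEnd ℂ) α = α' at *
    generalize (starRingEnd ℂ) β = β' at *
    have e5 : u' * u = 1 := by rw [mul_comm]; exact hl1
    linear_combination (-(α * β') ^ 2 - (α' * β) ^ 2 + 2 * (α * β' * (α' * β))) * e5
  have hAr : (A : ℝ) = ‖α‖ ^ 2 + ‖β‖ ^ 2 := by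
    rw [Complex.mul_conj', Complex.mul_conj'] at hAc
    have : ((A : ℝ) : ℂ) = ((‖α‖ ^ 2 + ‖β‖ ^ 2 : ℝ) : ℂ) := by
      push_cast
      exact hAc
    exact_mod_cast this
  have hBr : (B : ℝ) = ‖α‖ ^ 2 * ‖β‖ ^ 2 := by
    rw [Complex.mul_conj', Complex.mul_conj'] at hBc
    have : ((B : ℝ) : ℂ) = ((‖α‖ ^ 2 * ‖β‖ ^ 2 : ℝ) : ℂ) := by
      push_cast
      exact hBc
    exact_mod_cast this
  by_cases hB0 : B = 0
  · rw [hB0] at hBr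
    simp only [Rat.cast_zero] at hBr
    rcases mul_eq_zero.1 hBr.symm with h3 | h3
    · left
      exact norm_eq_zero.1 ((pow_eq_zero_iff two_ne_zero).1 h3)
    · right
      left
      exact norm_eq_zero.1 ((pow_eq_zero_iff two_ne_zero).1 h3)
  · right
    right
    have hbd : ∃ C : ℝ, ∀ n, |(s n : ℝ)| ≤ C := by
      refine ⟨‖α‖ + ‖β‖, fun n => ?_⟩
      have e1 : (s n : ℝ) = ‖L (2 * n)‖ / (Q : ℝ) ^ n := by
        rw [hs, hr]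
        push_cast
        rfl
      rw [e1, abs_of_nonneg (by positivity), div_le_iff₀ (by positivity), hL]
      refine (norm_add_le _ _).trans ?_
      rw [norm_mul, norm_mul, norm_pow, norm_pow, ← heq, hQr, ← pow_mul]
      exact le_of_eq (by ring)
    have h3 := ell_core hden hB0 hyrec (fun n => by rw [hy]; ring) hbd hB1
    have h4 : (A : ℝ) ^ 2 = 4 * (B : ℝ) := by exact_mod_cast h3
    rw [hAr, hBr] at h4
    have h5 : (‖α‖ ^ 2 - ‖β‖ ^ 2) ^ 2 = 0 := by linear_combination h4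
    have h6 : ‖α‖ ^ 2 = ‖β‖ ^ 2 := by
      have := (pow_eq_zero_iff two_ne_zero).1 h5
      linarith
    exact (pow_left_inj₀ (norm_nonneg _) (norm_nonneg _) two_ne_zero).1 h6

end Pool.Agent.H63.MO
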