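import Pool.Agent.H63.MO.Exs
import Pool.Agent.H63.MO.Dbl

/-!
# Module Lev: a double series of exponentials that vanishes

PROOF. Strong induction on `m`.  Suppose the claim for all smaller levels; with `g x = x ^ k` every
sum `∑ ij ∈ antidiagonal m', c ij * μ ij ^ k`, `m' < m`, is zero.  Let `c' ij = c ij` for
`i + j ≥ m` and `0` otherwise.  For `k ≥ n₀`, `k ≥ 1`: `HasSum (c' ij * μ ij ^ k) 0` (subtract the
finitely many terms with `i + j < m`: `HasSum.sub` with `hasSum_sum_of_ne_finset_zero`, the finite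
sum is `∑ m' < m, ∑ ij ∈ antidiagonal m' = 0`).  `dblK` for `c'`:
`‖∑ ij ∈ antidiagonal m, c ij * μ ij ^ k‖ ≤ C (v ρ ^ (m + 1)) ^ k`.  `exs_small` with
`ρ := v ρ ^ m`, `τ := v ρ ^ (m + 1)`.
-/

set_option autoImplicit false

open Finset

namespace Pool.Agent.H63.MO


theorem levels {K : Type*} [NormedField K] {ρ v B : ℝ} (hρ0 : 0 < ρ) (hρ1 : ρ < 1) (hv : 0 < v)
    {c μ : ℕ × ℕ → K} (hc : ∀ ij, ‖c ij‖ ≤ B)
    (hμ : ∀ ij : ℕ × ℕ, ‖μ ij‖ = v * ρ ^ (ij.1 + ij.2)) {n₀ : ℕ}
    (h : ∀ k ≥ n₀, HasSum (fun ij => c ij * μ ij ^ k) 0) (m : ℕ) (g : K → K) :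
    ∑ ij ∈ antidiagonal m, c ij * g (μ ij) = 0 := by
  classical
  induction m using Nat.strong_induction_on generalizing g with
  | _ m ih =>
    have hB : 0 ≤ B := (norm_nonneg _).trans (hc (0, 0))
    set c' : ℕ × ℕ → K := fun ij => if m ≤ ij.1 + ij.2 then c ij else 0 with hc'
    have hc'B : ∀ ij, ‖c' ij‖ ≤ B := by
      intro ij
      by_cases hm : m ≤ ij.1 + ij.2
      · simp only [hc', if_pos hm]
        exact hc ij
      · simp only [hc', if_neg hm, norm_zero]
        exact hB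
    have h0 : ∀ ij : ℕ × ℕ, ij.1 + ij.2 < m → c' ij = 0 := by
      intro ij hij
      simp only [hc', if_neg (not_le.2 hij)]
    have hanti : ∀ k, ∑ ij ∈ antidiagonal m, c' ij * μ ij ^ k =
        ∑ ij ∈ antidiagonal m, c ij * μ ij ^ k := by
      intro k
      refine sum_congr rfl fun ij hij => ?_
      have h1 : ij.1 + ij.2 = m := mem_antidiagonal.1 hij
      simp only [hc', if_pos (le_of_eq h1.symm)]
    have hsum : ∀ k ≥ n₀, HasSum (fun ij => c' ij * μ ij ^ k) 0 := by
      intro k hk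
      set T : Finset (ℕ × ℕ) := (range m).biUnion fun m' => antidiagonal m' with hT
      have hTmem : ∀ ij : ℕ × ℕ, ij ∈ T ↔ ij.1 + ij.2 < m := by
        intro ij
        rw [hT, mem_biUnion]
        constructor
        · rintro ⟨a, ha, hb⟩
          rw [mem_antidiagonal.1 hb]
          exact mem_range.1 ha
        · intro hlt
          exact ⟨ij.1 + ij.2, mem_range.2 hlt, mem_antidiagonal.2 rfl⟩
      have hT0 : ∑ ij ∈ T, c ij * μ ij ^ k = 0 := by
        rw [hT, sum_biUnion]
        · refine sum_eq_zero fun m' hm' => ?_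
          exact ih m' (mem_range.1 hm') (fun x => x ^ k)
        · intro a _ b _ hab
          rw [Function.onFun, disjoint_left]
          intro ij ha hb
          exact hab ((mem_antidiagonal.1 ha).symm.trans (mem_antidiagonal.1 hb))
      have h1 : HasSum (fun ij => if ij ∈ T then c ij * μ ij ^ k else 0)
          (∑ ij ∈ T, if ij ∈ T then c ij * μ ij ^ k else 0) :=
        hasSum_sum_of_ne_finset_zero (fun ij hij => if_neg hij)
      have h2 : (∑ ij ∈ T, if ij ∈ T then c ij * μ ij ^ k else 0) = 0 := by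
        rw [← hT0]
        exact sum_congr rfl fun ij hij => if_pos hij
      rw [h2] at h1
      have h3 := (h k hk).sub h1
      rw [sub_zero] at h3
      refine h3.congr_fun ?_
      intro ij
      by_cases hij : ij.1 + ij.2 < m
      · rw [if_pos ((hTmem ij).2 hij), h0 ij hij, zero_mul, sub_self]
      · rw [if_neg (fun hh => hij ((hTmem ij).1 hh)), sub_zero]
        simp only [hc', if_pos (not_lt.1 hij)]
    obtain ⟨C, hC0, hC⟩ := dblK hρ0 hρ1 hv hc'B hμ h0
    have hb : ∀ k ≥ max n₀ 1, ‖∑ ij ∈ antidiagonal m, c ij * μ ij ^ k‖ ≤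
        C * (v * ρ ^ (m + 1)) ^ k := by
      intro k hk
      have h1 := (hC k (le_trans (le_max_right _ _) hk) 0
        (hsum k (le_trans (le_max_left _ _) hk))).2
      rw [hanti, zero_sub, norm_neg] at h1
      exact h1
    refine exs_small (antidiagonal m) c μ (ρ := v * ρ ^ m) (τ := v * ρ ^ (m + 1)) (C := C)
      (mul_pos hv (pow_pos hρ0 m)) (mul_pos hv (pow_pos hρ0 _)).le ?_ ?_ hb g
    · refine mul_lt_mul_of_pos_left ?_ hv
      exact pow_lt_pow_right_of_lt_one₀ hρ0 hρ1 (Nat.lt_succ_self m)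
    · intro ij hij
      rw [hμ, mem_antidiagonal.1 hij]

end Pool.Agent.H63.MO
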