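import Pool.Agent.H20.RO.App
import Pool.Agent.H63.MO.Lev

/-!
# Module Eng: the engine

PROOF. Let `A' = max A 1` and choose `m₀` with `D² A' (v ρ ^ m₀) < 1`.  `Q : Polynomial ℚ` the
product of the `minpoly ℚ (μ ij)` over `ij ∈ range m₀ ×ˢ range m₀` with `i + j < m₀`: `Q ≠ 0`,
`Q.eval₂ (Rat.castHom K) (μ ij) = 0` for `i + j < m₀` (`minpoly.aeval`; `algebraMap ℚ K =
Rat.castHom K` by `RingHom.ext_rat` / `Subsingleton.elim`) and `Q.coeff 0 ≠ 0`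
(`minpoly.coeff_zero_eq_zero`, `μ ij ≠ 0`).  `app_hasSum` (H20/RO/App): for `n ≥ n₀`
`app Q s n = ∑_ij c ij Q(μ ij) μ ij ^ n`; the coefficients vanish for `i + j < m₀` and have norm
`≤ B B_Q` with `B_Q = ∑ k, ‖Q.coeff k‖ v ^ k` (`‖μ ij‖ ≤ v`).  `dblK` (m = m₀):
`‖app Q s n‖ ≤ C₁ (v ρ ^ m₀) ^ n`.  Also `|app Q s n| ≤ C₂ A' ^ n`
(`|app Q s n| ≤ ∑ |Q.coeff k| C A' ^ (n + k)`) and `V = M D ^ n app Q s n` is an integer (`app_int`).
If `V ≠ 0`: `1 ≤ |V| ‖V‖ ≤ (M D ^ n C₂ A' ^ n) (M D ^ n C₁ (v ρ ^ m₀) ^ n)` (for a natural number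
`k`, `‖(k : K)‖ ≤ k`: induction), which is false for large `n`.  So `app Q s n = 0` for `n ≥ n₁`;
`levels`: `∑ ij ∈ antidiagonal m, c ij * Q(μ ij) * g (μ ij) = 0` for all `m`, `g`.  Since
`Q(0) ≠ 0` and `x ↦ Q(x)` is continuous, `Q(x) ≠ 0` for `‖x‖ < ε`; for `m` with `v ρ ^ m < ε` take
`g x = x ^ n / Q(x)`.
-/

set_option autoImplicit false

open Finset Pool.Agent.H20.RO

namespace Pool.Agent.H63.MO

private lemma Eng_alg {K : Type*} [NormedField K] [CharZero K] {x : K} :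
    (minpoly ℚ x).eval₂ (Rat.castHom K) x = 0 := by
  have h : algebraMap ℚ K = Rat.castHom K := Subsingleton.elim _ _
  rw [← h, ← Polynomial.aeval_def]
  exact minpoly.aeval ℚ x

private lemma Eng_poly {K : Type*} [NormedField K] [CharZero K] {μ : ℕ × ℕ → K}
    (hμ0 : ∀ ij, μ ij ≠ 0) (halg : ∀ ij, IsAlgebraic ℚ (μ ij)) (m₀ : ℕ) :
    ∃ Q : Polynomial ℚ, Q.coeff 0 ≠ 0 ∧
      ∀ ij : ℕ × ℕ, ij.1 + ij.2 < m₀ → Q.eval₂ (Rat.castHom K) (μ ij) = 0 := by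
  refine ⟨∏ ij ∈ range m₀ ×ˢ range m₀, minpoly ℚ (μ ij), ?_, ?_⟩
  · rw [Polynomial.coeff_zero_eq_eval_zero, Polynomial.eval_prod, Finset.prod_ne_zero_iff]
    intro ij _
    rw [← Polynomial.coeff_zero_eq_eval_zero]
    exact minpoly.coeff_zero_ne_zero (halg ij).isIntegral (hμ0 ij)
  · intro ij hij
    rw [Polynomial.eval₂_finsetProd]
    refine Finset.prod_eq_zero (i := ij) ?_ Eng_alg
    rw [Finset.mem_product, mem_range, mem_range]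
    omega

private lemma Eng_bound {K : Type*} [NormedField K] [CharZero K] (Q : Polynomial ℚ) {v : ℝ}
    (hv : 0 < v) {x : K} (hx : ‖x‖ ≤ v) : ‖Q.eval₂ (Rat.castHom K) x‖ ≤
      ∑ k ∈ range (Q.natDegree + 1), ‖((Q.coeff k : ℚ) : K)‖ * v ^ k := by
  rw [Polynomial.eval₂_eq_sum_range]
  refine (norm_sum_le _ _).trans (Finset.sum_le_sum fun k _ => ?_)
  rw [norm_mul, norm_pow, Rat.coe_castHom]
  exact mul_le_mul_of_nonneg_left (pow_le_pow_left₀ (norm_nonneg _) hx k) (norm_nonneg _)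

private lemma Eng_real (Q : Polynomial ℚ) {s : ℕ → ℚ} {C A : ℝ} (hC : 0 ≤ C) (hA : 0 ≤ A)
    (hbd : ∀ n, |(s n : ℝ)| ≤ C * A ^ n) (n : ℕ) : |(app Q s n : ℝ)| ≤
      (∑ k ∈ range (Q.natDegree + 1), |(Q.coeff k : ℝ)| * (C * A ^ k)) * A ^ n := by
  unfold app
  push_cast
  rw [Finset.sum_mul]
  refine (Finset.abs_sum_le_sum_abs _ _).trans (Finset.sum_le_sum fun k _ => ?_)
  rw [abs_mul, mul_assoc]
  refine mul_le_mul_of_nonneg_left ((hbd (n + k)).trans (le_of_eq ?_)) (abs_nonneg _)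
  rw [pow_add]
  ring

private lemma Eng_zero {K : Type*} [NormedField K] [CharZero K]
    (hK : ∀ k : ℤ, k ≠ 0 → 1 ≤ |(k : ℝ)| * ‖(k : K)‖) {a : ℕ → ℚ} {M D : ℕ} (hM : 0 < M)
    (hD : 0 < D) (hint : ∀ n, ∃ k : ℤ, (M : ℚ) * (D : ℚ) ^ n * a n = k) {C₁ C₂ A τ : ℝ}
    (hA : 0 ≤ A) (hτ : 0 ≤ τ) (hC₁ : 0 ≤ C₁)
    (hC₂ : 0 ≤ C₂) (h1 : ∀ n, |(a n : ℝ)| ≤ C₂ * A ^ n) {n₀ : ℕ}
    (h2 : ∀ n ≥ n₀, ‖((a n : ℚ) : K)‖ ≤ C₁ * τ ^ n) (hsm : (D : ℝ) ^ 2 * A * τ < 1) :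
    ∃ n₁ ≥ n₀, ∀ n ≥ n₁, a n = 0 := by
  have hlim : Filter.Tendsto (fun n : ℕ => ((M : ℝ) ^ 2 * C₁ * C₂) * ((D : ℝ) ^ 2 * A * τ) ^ n)
      Filter.atTop (nhds 0) := by
    have := (tendsto_pow_atTop_nhds_zero_of_lt_one (by positivity) hsm).const_mul
      ((M : ℝ) ^ 2 * C₁ * C₂)
    rwa [mul_zero] at this
  obtain ⟨n₁, hn₁⟩ := Filter.eventually_atTop.1 (hlim.eventually_lt_const one_pos)
  refine ⟨max n₀ n₁, le_max_left _ _, fun n hn => ?_⟩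
  have hn0 : n₀ ≤ n := le_trans (le_max_left _ _) hn
  have hn1 := hn₁ n (le_trans (le_max_right _ _) hn)
  obtain ⟨k, hk⟩ := hint n
  have hMD : (M : ℚ) * (D : ℚ) ^ n ≠ 0 := by positivity
  by_contra hne
  have hk0 : k ≠ 0 := by
    rintro rfl
    rw [Int.cast_zero, mul_eq_zero] at hk
    rcases hk with hk | hk
    · exact hMD hk
    · exact hne hk
  have h3 := hK k hk0
  have h4 : |(k : ℝ)| ≤ (M : ℝ) * (D : ℝ) ^ n * (C₂ * A ^ n) := by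
    have e : (k : ℝ) = (M : ℝ) * (D : ℝ) ^ n * (a n : ℝ) := by
      have := congrArg (fun q : ℚ => (q : ℝ)) hk
      push_cast at this
      exact this.symm
    rw [e, abs_mul, abs_of_pos (by positivity : (0 : ℝ) < (M : ℝ) * (D : ℝ) ^ n)]
    exact mul_le_mul_of_nonneg_left (h1 n) (by positivity)
  have h5 : ‖(k : K)‖ ≤ (M : ℝ) * (D : ℝ) ^ n * (C₁ * τ ^ n) := by
    have e : (k : K) = (M : K) * (D : K) ^ n * ((a n : ℚ) : K) := by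
      have := congrArg (fun q : ℚ => (q : K)) hk
      push_cast at this
      exact this.symm
    have hM1 : ‖(M : K)‖ ≤ (M : ℝ) := by
      have := Nat.norm_cast_le (α := K) M
      rwa [norm_one, mul_one] at this
    have hD1 : ‖(D : K)‖ ≤ (D : ℝ) := by
      have := Nat.norm_cast_le (α := K) D
      rwa [norm_one, mul_one] at this
    rw [e, norm_mul, norm_mul, norm_pow]
    exact mul_le_mul (mul_le_mul hM1 (pow_le_pow_left₀ (norm_nonneg _) hD1 n) (by positivity)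
      (by positivity)) (h2 n hn0) (norm_nonneg _) (by positivity)
  have h6 : |(k : ℝ)| * ‖(k : K)‖ ≤
      ((M : ℝ) ^ 2 * C₁ * C₂) * ((D : ℝ) ^ 2 * A * τ) ^ n := by
    refine (mul_le_mul h4 h5 (norm_nonneg _) (by positivity)).trans (le_of_eq ?_)
    rw [mul_pow, mul_pow, ← pow_mul, mul_comm 2 n, pow_mul]
    ring
  linarith

theorem engine {K : Type*} [NormedField K] [CharZero K]
    (hK : ∀ k : ℤ, k ≠ 0 → 1 ≤ |(k : ℝ)| * ‖(k : K)‖)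
    {s : ℕ → ℚ} {N D : ℕ} (hN : 0 < N) (hD : 0 < D)
    (hint : ∀ n, ∃ k : ℤ, (N : ℚ) * (D : ℚ) ^ n * s n = k) {C A : ℝ}
    (hbd : ∀ n, |(s n : ℝ)| ≤ C * A ^ n) {c μ : ℕ × ℕ → K} {B v ρ : ℝ} (hc : ∀ ij, ‖c ij‖ ≤ B)
    (hv : 0 < v) (hρ0 : 0 < ρ) (hρ1 : ρ < 1)
    (hμ : ∀ ij : ℕ × ℕ, ‖μ ij‖ = v * ρ ^ (ij.1 + ij.2)) (halg : ∀ ij, IsAlgebraic ℚ (μ ij))
    {n₀ : ℕ} (hs : ∀ n ≥ n₀, HasSum (fun ij => c ij * μ ij ^ n) ((s n : ℚ) : K)) :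
    ∃ M₁ : ℕ, ∀ m ≥ M₁, ∀ n : ℕ, ∑ ij ∈ antidiagonal m, c ij * μ ij ^ n = 0 := by
  have hμ0 : ∀ ij, μ ij ≠ 0 := by
    intro ij h
    have h1 := hμ ij
    rw [h, norm_zero] at h1
    have h2 : 0 < v * ρ ^ (ij.1 + ij.2) := by positivity
    linarith
  have hμv : ∀ ij, ‖μ ij‖ ≤ v := by
    intro ij
    rw [hμ ij]
    exact mul_le_of_le_one_right hv.le (pow_le_one₀ hρ0.le hρ1.le)
  have hB : 0 ≤ B := (norm_nonneg _).trans (hc (0, 0))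
  have hC : 0 ≤ C := by
    have := (abs_nonneg _).trans (hbd 0)
    rwa [pow_zero, mul_one] at this
  obtain ⟨A', hA', hbd'⟩ : ∃ A' : ℝ, 0 ≤ A' ∧ ∀ n, |(s n : ℝ)| ≤ C * A' ^ n := by
    refine ⟨|A|, abs_nonneg _, fun n => (hbd n).trans ?_⟩
    exact mul_le_mul_of_nonneg_left ((le_abs_self _).trans (le_of_eq (abs_pow A n))) hC
  -- the choice of `m₀`
  obtain ⟨m₀, hm₀⟩ : ∃ m₀ : ℕ, (D : ℝ) ^ 2 * A' * (v * ρ ^ m₀) < 1 := by
    have h1 : Filter.Tendsto (fun m : ℕ => (D : ℝ) ^ 2 * A' * (v * ρ ^ m)) Filter.atTop (nhds 0) := by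
      have h2 := ((tendsto_pow_atTop_nhds_zero_of_lt_one hρ0.le hρ1).const_mul v).const_mul
        ((D : ℝ) ^ 2 * A')
      simpa using h2
    exact (h1.eventually_lt_const one_pos).exists
  obtain ⟨Q, hQ0, hQμ⟩ := Eng_poly hμ0 halg m₀
  set BQ : ℝ := ∑ k ∈ range (Q.natDegree + 1), ‖((Q.coeff k : ℚ) : K)‖ * v ^ k with hBQ
  have hBQ0 : 0 ≤ BQ := Finset.sum_nonneg fun k _ => by positivity
  have hc' : ∀ ij, ‖c ij * Q.eval₂ (Rat.castHom K) (μ ij)‖ ≤ B * BQ := by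
    intro ij
    rw [norm_mul]
    exact mul_le_mul (hc ij) (Eng_bound Q hv (hμv ij)) (norm_nonneg _) hB
  obtain ⟨C₁, hC₁, hdbl⟩ := dblK hρ0 hρ1 hv hc' hμ (m := m₀) (by
    intro ij hij
    rw [hQμ ij hij, mul_zero])
  have happ : ∀ n ≥ n₀, HasSum (fun ij => c ij * Q.eval₂ (Rat.castHom K) (μ ij) * μ ij ^ n)
      ((app Q s n : ℚ) : K) :=
    fun n hn => app_hasSum Q s c μ n (fun k => hs (n + k) (by omega))
  obtain ⟨M, hM, hMint⟩ := app_int Q hN hD hint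
  obtain ⟨n₁, hn₁, hz⟩ := Eng_zero (K := K) hK (a := fun n => app Q s n) hM hD hMint
    (C₁ := C₁) (C₂ := ∑ k ∈ range (Q.natDegree + 1), |(Q.coeff k : ℝ)| * (C * A' ^ k))
    (A := A') (τ := v * ρ ^ m₀) hA' (by positivity) hC₁
    (Finset.sum_nonneg fun k _ => by positivity) (fun n => Eng_real Q hC hA' hbd' n)
    (n₀ := max n₀ 1)
    (fun n hn => ((hdbl n (le_trans (le_max_right _ _) hn) _
      (happ n (le_trans (le_max_left _ _) hn))).1)) hm₀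
  have hzero : ∀ k ≥ n₁, HasSum (fun ij => c ij * Q.eval₂ (Rat.castHom K) (μ ij) * μ ij ^ k) 0 := by
    intro k hk
    have h1 := happ k (le_trans (le_max_left _ _) (le_trans hn₁ hk))
    have h2 : app Q s k = 0 := hz k hk
    rw [h2, Rat.cast_zero] at h1
    exact h1
  -- `Q` does not vanish near `0`
  obtain ⟨ε, hε, hQε⟩ : ∃ ε : ℝ, 0 < ε ∧ ∀ x : K, ‖x‖ < ε → Q.eval₂ (Rat.castHom K) x ≠ 0 := by
    have hcont : Continuous fun x : K => Q.eval₂ (Rat.castHom K) x := by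
      simp_rw [Polynomial.eval₂_eq_eval_map]
      exact (Q.map (Rat.castHom K)).continuous
    have h0 : Q.eval₂ (Rat.castHom K) 0 ≠ 0 := by
      rw [Polynomial.eval₂_at_zero, Rat.coe_castHom]
      exact_mod_cast hQ0
    have h1 := hcont.continuousAt.eventually_ne h0
    obtain ⟨ε, hε, h2⟩ := Metric.eventually_nhds_iff.1 h1
    exact ⟨ε, hε, fun x hx => h2 (by rwa [dist_zero_right])⟩
  obtain ⟨M₁, hM₁⟩ : ∃ M₁ : ℕ, ∀ m ≥ M₁, v * ρ ^ m < ε := by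
    have h1 : Filter.Tendsto (fun m : ℕ => v * ρ ^ m) Filter.atTop (nhds 0) := by
      have h2 := (tendsto_pow_atTop_nhds_zero_of_lt_one hρ0.le hρ1).const_mul v
      simpa using h2
    exact Filter.eventually_atTop.1 (h1.eventually_lt_const hε)
  refine ⟨M₁, fun m hm n => ?_⟩
  have h1 := levels hρ0 hρ1 hv hc' hμ hzero m
    (fun x => x ^ n / Q.eval₂ (Rat.castHom K) x)
  rw [← h1]
  refine Finset.sum_congr rfl fun ij hij => ?_
  have h2 : ‖μ ij‖ < ε := by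
    rw [hμ ij, mem_antidiagonal.1 hij]
    exact hM₁ m hm
  have h3 := hQε _ h2
  field_simp

end Pool.Agent.H63.MO
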