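import Pool.Agent.H20.RO.Ser
import Pool.Agent.H20.RO.Cc
import Pool.Agent.H63.MO.Eng

/-!
# Module Root: square roots of products of two binomials

PROOF. Choose `n₁ ≥ n₀` with `4 ‖a‖ ρ ^ n₁ < 1`, `4 ‖b‖ ρ ^ n₁ < 1` (`ρ = ‖u‖ = ‖w‖`) and put
`a' = a u ^ n₁`, `b' = b w ^ n₁`, `s' n = s (n + n₁)`, `σ' = σ v ^ n₁`.  For all `n`,
`s' n = σ' v ^ n EE (a' u ^ n) EE (b' w ^ n)`, and by `prod_sum` (H20/RO/Ser) this is
`∑_ij c ij μ ij ^ n` with `c (i, j) = σ' (ee i * a' ^ i) (ee j * b' ^ j)`, `μ (i, j) = v u ^ i w ^ j`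
(`‖c ij‖ ≤ ‖σ'‖` because `‖ee i‖ ≤ 4 ^ i`).  `s'` satisfies `hint` with `N D ^ n₁` and `hbd` with
`C A ^ n₁`; the `μ ij` are algebraic.  `engine`: for `m ≥ M₁` and all `n`:
`∑ ij ∈ antidiagonal m, c ij μ ij ^ n = σ' v ^ n cc (a' u ^ n) (b' w ^ n) m = 0`.  So
`cc (a' u ^ n) (b' w ^ n) m = 0` for all `m ≥ M₁`; `cc_inf` (H20/RO/Cc): `a' u ^ n = b' w ^ n` for
every `n`, that is `a u ^ n = b w ^ n` for all `n ≥ n₁`.  If `a = 0` then `b = 0`.  If `a ≠ 0`, then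
`b ≠ 0`; divide the equations for `n₁ + 1` and `n₁`: `u = w`, then `a = b`.
-/

set_option autoImplicit false

open Finset Pool.Agent.H20.RO

namespace Pool.Agent.H63.MO

theorem root_core {K : Type*} [NormedField K] [CompleteSpace K] [CharZero K]
    (hK : ∀ k : ℤ, k ≠ 0 → 1 ≤ |(k : ℝ)| * ‖(k : K)‖) (he : ∀ n, ‖(ee n : K)‖ ≤ 4 ^ n)
    {s : ℕ → ℚ} {N D : ℕ} (hN : 0 < N) (hD : 0 < D)
    (hint : ∀ n, ∃ k : ℤ, (N : ℚ) * (D : ℚ) ^ n * s n = k) {C A : ℝ}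
    (hbd : ∀ n, |(s n : ℝ)| ≤ C * A ^ n) {σ v u w a b : K} (hσ : σ ≠ 0) (hv : v ≠ 0)
    (hu : u ≠ 0) (huw : ‖u‖ = ‖w‖) (hu1 : ‖u‖ < 1) (hva : IsAlgebraic ℚ v)
    (hua : IsAlgebraic ℚ u) (hwa : IsAlgebraic ℚ w) {n₀ : ℕ}
    (hs : ∀ n ≥ n₀, ((s n : ℚ) : K) = σ * v ^ n * (EE (a * u ^ n) * EE (b * w ^ n))) (n : ℕ) :
    a * u ^ n = b * w ^ n := by
  have hw : w ≠ 0 := by
    intro h
    rw [h, norm_zero] at huw
    exact hu (norm_eq_zero.1 huw)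
  have hρ0 : 0 < ‖u‖ := norm_pos_iff.2 hu
  have hv0 : 0 < ‖v‖ := norm_pos_iff.2 hv
  obtain ⟨k, hk⟩ := exists_pow_lt_of_lt_one
    (show (0:ℝ) < 1 / (4 * (‖a‖ + ‖b‖ + 1)) by positivity) hu1
  obtain ⟨n₁, hn₁0, hn₁k⟩ : ∃ n₁, n₀ ≤ n₁ ∧ k ≤ n₁ := ⟨max n₀ k, le_max_left _ _, le_max_right _ _⟩
  have hk1 : ‖u‖ ^ n₁ < 1 / (4 * (‖a‖ + ‖b‖ + 1)) :=
    lt_of_le_of_lt (pow_le_pow_of_le_one hρ0.le hu1.le hn₁k) hk
  have hk2 : ‖u‖ ^ n₁ * (4 * (‖a‖ + ‖b‖ + 1)) < 1 := by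
    rwa [lt_div_iff₀ (by positivity)] at hk1
  have hpow0 : 0 ≤ ‖u‖ ^ n₁ := by positivity
  have ha' : 4 * ‖a * u ^ n₁‖ < 1 := by
    rw [norm_mul, norm_pow]
    nlinarith [mul_nonneg hpow0 (norm_nonneg b), mul_nonneg hpow0 (norm_nonneg a)]
  have hb' : 4 * ‖b * w ^ n₁‖ < 1 := by
    rw [norm_mul, norm_pow, ← huw]
    nlinarith [mul_nonneg hpow0 (norm_nonneg b), mul_nonneg hpow0 (norm_nonneg a)]
  set a' : K := a * u ^ n₁ with ha'd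
  set b' : K := b * w ^ n₁ with hb'd
  set σ' : K := σ * v ^ n₁ with hσ'd
  have hσ' : σ' ≠ 0 := mul_ne_zero hσ (pow_ne_zero _ hv)
  have hint' : ∀ n, ∃ k : ℤ, ((N * D ^ n₁ : ℕ) : ℚ) * (D : ℚ) ^ n * s (n + n₁) = k := by
    intro n
    obtain ⟨k, hk⟩ := hint (n + n₁)
    refine ⟨k, ?_⟩
    rw [← hk]
    push_cast
    rw [pow_add]
    ring
  have hbd' : ∀ n, |(s (n + n₁) : ℝ)| ≤ (C * A ^ n₁) * A ^ n := by
    intro n
    refine (hbd (n + n₁)).trans (le_of_eq ?_)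
    rw [pow_add]
    ring
  set c : ℕ × ℕ → K := fun ij => σ' * (((ee ij.1 : K) * a' ^ ij.1) * ((ee ij.2 : K) * b' ^ ij.2))
    with hcd
  set μ : ℕ × ℕ → K := fun ij => v * u ^ ij.1 * w ^ ij.2 with hμd
  have hterm : ∀ x : K, 4 * ‖x‖ < 1 → ∀ i : ℕ, ‖(ee i : K) * x ^ i‖ ≤ 1 := by
    intro x hx i
    rw [norm_mul, norm_pow]
    calc ‖(ee i : K)‖ * ‖x‖ ^ i ≤ 4 ^ i * ‖x‖ ^ i :=
          mul_le_mul_of_nonneg_right (he i) (by positivity)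
      _ = (4 * ‖x‖) ^ i := by rw [mul_pow]
      _ ≤ 1 := pow_le_one₀ (by positivity) hx.le
  have hc : ∀ ij, ‖c ij‖ ≤ ‖σ'‖ := by
    intro ij
    rw [hcd]
    simp only
    rw [norm_mul σ' _, norm_mul ((ee ij.1 : K) * a' ^ ij.1) _]
    have h1 := hterm a' ha' ij.1
    have h2 := hterm b' hb' ij.2
    have h3 : ‖(ee ij.1 : K) * a' ^ ij.1‖ * ‖(ee ij.2 : K) * b' ^ ij.2‖ ≤ 1 :=
      mul_le_one₀ h1 (norm_nonneg _) h2
    calc ‖σ'‖ * (‖(ee ij.1 : K) * a' ^ ij.1‖ * ‖(ee ij.2 : K) * b' ^ ij.2‖) ≤ ‖σ'‖ * 1 :=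
          mul_le_mul_of_nonneg_left h3 (norm_nonneg _)
      _ = ‖σ'‖ := mul_one _
  have hμ : ∀ ij : ℕ × ℕ, ‖μ ij‖ = ‖v‖ * ‖u‖ ^ (ij.1 + ij.2) := by
    intro ij
    rw [hμd]
    simp only
    rw [norm_mul, norm_mul, norm_pow, norm_pow, ← huw, pow_add, mul_assoc]
  have halg : ∀ ij, IsAlgebraic ℚ (μ ij) := by
    intro ij
    exact (hva.mul (hua.pow _)).mul (hwa.pow _)
  have hcμ : ∀ (ij : ℕ × ℕ) (n : ℕ), c ij * μ ij ^ n
      = (σ' * v ^ n) * (((ee ij.1 : K) * (a' * u ^ n) ^ ij.1) *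
        ((ee ij.2 : K) * (b' * w ^ n) ^ ij.2)) := by
    intro ij n
    rw [hcd, hμd]
    simp only
    rw [mul_pow, mul_pow, mul_pow, mul_pow, ← pow_mul, ← pow_mul, ← pow_mul, ← pow_mul,
      mul_comm ij.1 n, mul_comm ij.2 n]
    ring
  have hsum : ∀ n ≥ 0, HasSum (fun ij => c ij * μ ij ^ n) (((fun n => s (n + n₁)) n : ℚ) : K) := by
    intro n _
    have hun : ‖u‖ ^ n ≤ 1 := pow_le_one₀ hρ0.le hu1.le
    have h1 : 4 * ‖a' * u ^ n‖ < 1 := by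
      rw [norm_mul, norm_pow]
      have := mul_le_mul_of_nonneg_left hun (norm_nonneg a')
      linarith
    have h2 : 4 * ‖b' * w ^ n‖ < 1 := by
      rw [norm_mul, norm_pow, ← huw]
      have := mul_le_mul_of_nonneg_left hun (norm_nonneg b')
      linarith
    have h3 := (prod_sum he h1 h2).mul_left (σ' * v ^ n)
    have h4 : ((s (n + n₁) : ℚ) : K) = (σ' * v ^ n) * (EE (a' * u ^ n) * EE (b' * w ^ n)) := by
      rw [hs (n + n₁) (by omega)]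
      have e1 : a * u ^ (n + n₁) = a' * u ^ n := by rw [ha'd, pow_add]; ring
      have e2 : b * w ^ (n + n₁) = b' * w ^ n := by rw [hb'd, pow_add]; ring
      have e3 : σ * v ^ (n + n₁) = σ' * v ^ n := by rw [hσ'd, pow_add]; ring
      rw [e1, e2, e3]
    simp only
    rw [h4]
    refine h3.congr_fun ?_
    intro ij
    exact hcμ ij n
  obtain ⟨M₁, hM₁⟩ := engine hK (s := fun n => s (n + n₁)) (N := N * D ^ n₁) (D := D)
    (Nat.mul_pos hN (pow_pos hD _)) hD hint' hbd' hc hv0 hρ0 hu1 hμ halg hsum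
  have hcc : ∀ m ≥ M₁, ∀ n : ℕ, cc (a' * u ^ n) (b' * w ^ n) m = 0 := by
    intro m hm n
    have h1 := hM₁ m hm n
    have h2 : ∑ ij ∈ antidiagonal m, c ij * μ ij ^ n
        = (σ' * v ^ n) * cc (a' * u ^ n) (b' * w ^ n) m := by
      unfold cc
      rw [Finset.mul_sum]
      refine Finset.sum_congr rfl (fun ij _ => ?_)
      rw [hcμ]
      ring
    rw [h2] at h1
    exact (mul_eq_zero.1 h1).resolve_left (mul_ne_zero hσ' (pow_ne_zero _ hv))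
  have heq : ∀ n : ℕ, a' * u ^ n = b' * w ^ n := by
    intro n
    by_contra hne
    obtain ⟨l, hl, hcl⟩ := cc_inf hne M₁
    exact hcl (hcc l hl n)
  have h0 : a * u ^ n₁ = b * w ^ n₁ := by
    have := heq 0
    simpa [ha'd, hb'd] using this
  have h1 : a * u ^ n₁ * u = b * w ^ n₁ * w := by
    have := heq 1
    simpa [ha'd, hb'd] using this
  by_cases ha : a = 0
  · have hb : b = 0 := by
      rw [ha, zero_mul] at h0
      exact (mul_eq_zero.1 h0.symm).resolve_right (pow_ne_zero _ hw)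
    rw [ha, hb, zero_mul, zero_mul]
  · have hau : a * u ^ n₁ ≠ 0 := mul_ne_zero ha (pow_ne_zero _ hu)
    have huw' : u = w := by
      rw [← h0] at h1
      exact mul_left_cancel₀ hau h1
    have hab : a = b := by
      rw [huw'] at h0
      exact mul_right_cancel₀ (pow_ne_zero _ hw) h0
    rw [huw', hab]

end Pool.Agent.H63.MO
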