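import Pool.Agent.H63.MO.Kp
import Pool.Agent.H63.MO.Efac
import Pool.Agent.H63.MO.Root

/-!
# Module Ell: the elliptic case, arithmetic part

PROOF. Suppose `A² ≠ 4 B`.  `K, z` from `kp`, `σ, v, a, b, s', n₀` from `e_fac`; `z` is algebraic
over `ℚ` (root of `X² - t X + 1`), so `v` is (`v² = z⁻¹`; `IsAlgebraic.inv`, `IsAlgebraic.of_pow`).
Denominators: let `D = t.den` and let `c > 0` be a common denominator of `A, y 0, y 1`; by induction
`c D ^ n y n` is an integer, `(c D ^ n s n)² = c D ^ n (c D ^ n (A - y n))` is an integer, so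
`c D ^ n s n` is an integer (`int_of_sq`, H20/RO/App); the same for `s'`.  `hbd` with `A := 1`.
`root_core` with `u = w = z`: for `n = 0`, `a = b`, contradiction.
-/

set_option autoImplicit false

open Finset Pool.Agent.H20.RO

namespace Pool.Agent.H63.MO

private theorem Ell_int {t A : ℚ} {y s : ℕ → ℚ}
    (hy : ∀ n, y (n + 2) = t * y (n + 1) - y n) (hs : ∀ n, s n ^ 2 = A - y n) :
    ∃ N : ℕ, 0 < N ∧ ∀ n, ∃ k : ℤ, (N : ℚ) * (t.den : ℚ) ^ n * s n = k := by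
  have hden : ∀ q : ℚ, (q.den : ℚ) * q = (q.num : ℚ) := by
    intro q
    rw [mul_comm]
    exact Rat.mul_den_eq_num q
  have hN : 0 < A.den * (y 0).den * (y 1).den :=
    Nat.mul_pos (Nat.mul_pos A.den_pos (y 0).den_pos) (y 1).den_pos
  obtain ⟨N, hNd⟩ : ∃ N : ℕ, N = A.den * (y 0).den * (y 1).den := ⟨_, rfl⟩
  rw [← hNd] at hN
  have hcast : (N : ℚ) = (A.den : ℚ) * ((y 0).den : ℚ) * ((y 1).den : ℚ) := by
    rw [hNd]; push_cast; ring
  have hA : ∃ k : ℤ, (N : ℚ) * A = k := by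
    refine ⟨A.num * (y 0).den * (y 1).den, ?_⟩
    rw [hcast]
    push_cast
    rw [← hden A]
    ring
  have h0 : ∃ k : ℤ, (N : ℚ) * y 0 = k := by
    refine ⟨(y 0).num * A.den * (y 1).den, ?_⟩
    rw [hcast]
    push_cast
    rw [← hden (y 0)]
    ring
  have h1 : ∃ k : ℤ, (N : ℚ) * y 1 = k := by
    refine ⟨(y 1).num * A.den * (y 0).den, ?_⟩
    rw [hcast]
    push_cast
    rw [← hden (y 1)]
    ring
  have hD := hden t
  have hyi : ∀ n, (∃ k : ℤ, (N : ℚ) * (t.den : ℚ) ^ n * y n = k) ∧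
      (∃ k : ℤ, (N : ℚ) * (t.den : ℚ) ^ (n + 1) * y (n + 1) = k) := by
    intro n
    induction n with
    | zero =>
      obtain ⟨k0, hk0⟩ := h0
      obtain ⟨k1, hk1⟩ := h1
      refine ⟨⟨k0, by rw [pow_zero, mul_one, hk0]⟩, ⟨t.den * k1, ?_⟩⟩
      push_cast
      rw [← hk1]
      ring
    | succ n ih =>
      obtain ⟨⟨k0, hk0⟩, ⟨k1, hk1⟩⟩ := ih
      refine ⟨⟨k1, hk1⟩, ⟨t.num * k1 - t.den ^ 2 * k0, ?_⟩⟩
      have e : n + 1 + 1 = n + 2 := rfl
      rw [e, hy n]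
      push_cast
      rw [← hk0, ← hk1, ← hD]
      ring
  refine ⟨N, hN, fun n => ?_⟩
  obtain ⟨k, hk⟩ := (hyi n).1
  obtain ⟨a, ha⟩ := hA
  refine int_of_sq (k := N * t.den ^ n * (t.den ^ n * a - k)) ?_
  push_cast
  rw [← hk, ← ha, mul_pow, hs n]
  ring

theorem ell_core {t A B : ℚ} (ht : t.den ≠ 1) (hB : B ≠ 0) {y s : ℕ → ℚ}
    (hy : ∀ n, y (n + 2) = t * y (n + 1) - y n) (hs : ∀ n, s n ^ 2 = A - y n)
    (hbd : ∃ C : ℝ, ∀ n, |(s n : ℝ)| ≤ C)
    (hdisc : y 1 ^ 2 - t * y 0 * y 1 + y 0 ^ 2 = (4 - t ^ 2) * B) : A ^ 2 = 4 * B := by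
  by_contra hAB
  obtain ⟨K, _, _, _, _, hK, he, z, hz0, hz1, hz⟩ := kp ht
  obtain ⟨σ, v, a, b, s', n₀, hσ, hv, hab, hs', hexp⟩ := e_fac he hz0 hz1 hz hB hAB hy hs hdisc
  obtain ⟨N, hN, hint⟩ := Ell_int hy hs
  obtain ⟨C, hC⟩ := hbd
  have hv0 : v ≠ 0 := by
    rintro rfl
    simp at hv
  have hza : IsAlgebraic ℚ z := by
    refine ⟨Polynomial.X ^ 2 - Polynomial.C t * Polynomial.X + 1, ?_, ?_⟩
    · intro h
      have h2 := congrArg (fun p => Polynomial.coeff p 2) h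
      simp [Polynomial.coeff_one] at h2
    · simp only [map_add, map_sub, map_mul, map_pow, Polynomial.aeval_X, Polynomial.aeval_C, map_one,
        eq_ratCast]
      exact hz
  have hva : IsAlgebraic ℚ v := by
    have h1 : v ^ 2 = z⁻¹ := eq_inv_of_mul_eq_one_left hv
    have h2 : IsAlgebraic ℚ (v ^ 2) := by
      rw [h1]
      exact hza.inv
    exact h2.of_pow two_pos
  have hint' : ∀ n, ∃ k : ℤ, (N : ℚ) * (t.den : ℚ) ^ n * s' n = k := by
    intro n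
    obtain ⟨k, hk⟩ := hint n
    rcases hs' n with h | h
    · exact ⟨k, by rw [h, hk]⟩
    · refine ⟨-k, ?_⟩
      rw [h]
      push_cast
      rw [← hk]
      ring
  have hbd' : ∀ n, |(s' n : ℝ)| ≤ C * (1 : ℝ) ^ n := by
    intro n
    rw [one_pow, mul_one]
    rcases hs' n with h | h
    · rw [h]; exact hC n
    · rw [h]
      push_cast
      rw [abs_neg]
      exact hC n
  have h := root_core hK he hN t.den_pos hint' hbd' hσ hv0 hz0 rfl hz1 hva hza hza hexp 0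
  rw [pow_zero, mul_one, mul_one] at h
  exact hab h

end Pool.Agent.H63.MO
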