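import Mathlib

/-!
# Module Exs: finite exponential sums

`exs_poly`: `Polynomial.eval_eq_sum_range`, `Finset.mul_sum`, `Finset.sum_comm`, `pow_add`.
For a point `x` of the finite set `V = F.image μ` take the polynomial
`R = ∏ y ∈ V.erase x, (X - C y) * C ((x - y)⁻¹)` (`R(x) = 1`, `R(y) = 0` for the other `y ∈ V`), or
`Lagrange.basis`.  `exs_all`: `exs_poly` with `n = 0` gives `∑ i ∈ F with μ i = x, f i = 0` for all
`x`; then `∑ f i * g (μ i) = ∑ x ∈ V, g x * ∑ i ∈ F with μ i = x, f i = 0`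
(`Finset.sum_fiberwise_of_maps_to`).
`exs_small`: `exs_poly` for this `R`: `(∑ i with μ i = x, f i) * x ^ n` is a fixed linear combination
of the sums at `n, n + 1, ..., n + deg R`, so its norm is `≤ C' τ ^ n` for `n ≥ n₀`, and it is
`‖∑ i with μ i = x, f i‖ * ρ ^ n`; since `τ / ρ < 1`, the sum over the fibre is zero
(`tendsto_pow_atTop_nhds_zero_of_lt_one`).  Conclude as before.
-/

set_option autoImplicit false

open Finset

namespace Pool.Agent.H63.MO

theorem exs_poly {K ι : Type*} [Field K] (F : Finset ι) (f μ : ι → K) (R : Polynomial K) (n : ℕ) :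
    ∑ i ∈ F, f i * R.eval (μ i) * μ i ^ n =
      ∑ k ∈ range (R.natDegree + 1), R.coeff k * ∑ i ∈ F, f i * μ i ^ (n + k) := by
  simp_rw [Polynomial.eval_eq_sum_range, Finset.mul_sum, Finset.sum_mul]
  rw [Finset.sum_comm]
  refine sum_congr rfl fun k _ => sum_congr rfl fun i _ => ?_
  rw [pow_add]
  ring

theorem exs_all {K ι : Type*} [Field K] (F : Finset ι) (f μ : ι → K)
    (h : ∀ n : ℕ, ∑ i ∈ F, f i * μ i ^ n = 0) (g : K → K) : ∑ i ∈ F, f i * g (μ i) = 0 := by
  classical
  have hR : ∀ i ∈ F, (Lagrange.interpolate (F.image μ) id g).eval (μ i) = g (μ i) := by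
    intro i hi
    have h1 := Lagrange.eval_interpolate_at_node (s := F.image μ) (v := id) (i := μ i) g
      Function.injective_id.injOn (mem_image_of_mem μ hi)
    simpa using h1
  have h2 := exs_poly F f μ (Lagrange.interpolate (F.image μ) id g) 0
  have h3 : ∑ i ∈ F, f i * g (μ i) =
      ∑ i ∈ F, f i * (Lagrange.interpolate (F.image μ) id g).eval (μ i) * μ i ^ 0 := by
    refine sum_congr rfl fun i hi => ?_
    rw [hR i hi, pow_zero, mul_one]
  rw [h3, h2]
  refine sum_eq_zero fun k _ => ?_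
  rw [h (0 + k), mul_zero]

theorem exs_small {K ι : Type*} [NormedField K] (F : Finset ι) (f μ : ι → K) {ρ τ C : ℝ}
    (hρ : 0 < ρ) (hτ0 : 0 ≤ τ) (hτ : τ < ρ) (hμ : ∀ i ∈ F, ‖μ i‖ = ρ) {n₀ : ℕ}
    (h : ∀ n ≥ n₀, ‖∑ i ∈ F, f i * μ i ^ n‖ ≤ C * τ ^ n) (g : K → K) :
    ∑ i ∈ F, f i * g (μ i) = 0 := by
  classical
  have key : ∀ x ∈ F.image μ, ∑ i ∈ F with μ i = x, f i = 0 := by
    intro x hx
    obtain ⟨i₀, hi₀, rfl⟩ := mem_image.1 hx
    set x := μ i₀ with hxdef
    set g' : K → K := fun y => if y = x then 1 else 0 with hg'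
    set R := Lagrange.interpolate (F.image μ) id g' with hRdef
    have hR : ∀ i ∈ F, R.eval (μ i) = g' (μ i) := by
      intro i hi
      have h1 := Lagrange.eval_interpolate_at_node (s := F.image μ) (v := id) (i := μ i) g'
        Function.injective_id.injOn (mem_image_of_mem μ hi)
      exact h1
    set S := ∑ i ∈ F with μ i = x, f i with hS
    set C' : ℝ := ∑ k ∈ range (R.natDegree + 1), ‖R.coeff k‖ * (C * τ ^ k) with hC'
    have hsum : ∀ n : ℕ, S * x ^ n =
        ∑ k ∈ range (R.natDegree + 1), R.coeff k * ∑ i ∈ F, f i * μ i ^ (n + k) := by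
      intro n
      rw [← exs_poly, hS, sum_filter, Finset.sum_mul]
      refine sum_congr rfl fun i hi => ?_
      rw [hR i hi, hg']
      by_cases hix : μ i = x
      · simp [hix]
      · simp [hix]
    have hb : ∀ n ≥ n₀, ‖S‖ ≤ C' * (τ / ρ) ^ n := by
      intro n hn
      have h1 : ‖S‖ * ρ ^ n ≤ C' * τ ^ n := by
        have h2 : ‖S * x ^ n‖ = ‖S‖ * ρ ^ n := by
          rw [norm_mul, norm_pow, hxdef, hμ i₀ hi₀]
        rw [← h2, hsum n]
        refine (norm_sum_le _ _).trans ?_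
        rw [hC', Finset.sum_mul]
        refine sum_le_sum fun k _ => ?_
        rw [norm_mul, mul_assoc]
        refine mul_le_mul_of_nonneg_left ?_ (norm_nonneg _)
        refine (h (n + k) (by omega)).trans (le_of_eq ?_)
        rw [pow_add]
        ring
      rw [div_pow, ← mul_div_assoc, le_div_iff₀ (pow_pos hρ n)]
      exact h1
    have ht : Filter.Tendsto (fun n : ℕ => C' * (τ / ρ) ^ n) Filter.atTop (nhds (C' * 0)) :=
      (tendsto_pow_atTop_nhds_zero_of_lt_one (div_nonneg hτ0 hρ.le)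
        ((div_lt_one hρ).2 hτ)).const_mul C'
    rw [mul_zero] at ht
    have h0 : ‖S‖ ≤ 0 := ge_of_tendsto ht (Filter.eventually_atTop.2 ⟨n₀, hb⟩)
    exact norm_le_zero_iff.1 h0
  rw [← Finset.sum_fiberwise_of_maps_to (t := F.image μ) (g := μ)
    (fun i hi => mem_image_of_mem μ hi)]
  refine sum_eq_zero fun x hx => ?_
  have h1 : ∑ i ∈ F with μ i = x, f i * g (μ i) = (∑ i ∈ F with μ i = x, f i) * g x := by
    rw [Finset.sum_mul]
    refine sum_congr rfl fun i hi => ?_
    rw [(mem_filter.1 hi).2]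
  rw [h1, key x hx, zero_mul]

end Pool.Agent.H63.MO
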