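import Mathlib

/-!
# Module Sep: traces separate

PROOF. `sep`: write `A = !![a, b; c, d]`, `B = !![e, f; g, h]`, `Z = !![p, q; r, s]` (`Matrix.of`,
`Matrix.eta_fin_two`).  The four equations are linear in `p, q, r, s`; the determinant of the
system is, up to sign, `trace (A B adj A adj B) - 2` (use `det A = det B = 1`); so `Z = 0` by
Cramer's rule (give `(trace (A B adj A adj B) - 2) * p` etc. as a combination of the four equations:
the cofactors; `linear_combination`; or use the `4 × 4` matrix and
`Matrix.exists_mulVec_eq_zero_iff`, `Matrix.det_succ_row_zero`, `Fin.sum_univ_succ`).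
`sep2`: `A = !![a, b; c, d]` of determinant `1` with `trace A ≠ ± 2`; `Z` commutes with `A`.
`A` is not a scalar, so `Z = x A + y` (compare the entries of `A Z = Z A`: `b r = c q`,
`b (p - s) = (a - d) q`, `c (p - s) = (a - d) r`), `t = trace A`, `trace Z = x t + 2 y = 0`,
`trace (A Z) = x (t² - 2) + y t = 0`; the determinant is `t² - 2 (t² - 2) = 4 - t² ≠ 0`.
-/

set_option autoImplicit false

open Matrix

namespace Pool.Agent.H63.MO

theorem sep {A B Z : Matrix (Fin 2) (Fin 2) ℂ} (hA : A.det = 1) (hB : B.det = 1)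
    (hAB : (A * B * A.adjugate * B.adjugate).trace ≠ 2) (h1 : Z.trace = 0)
    (h2 : (A * Z).trace = 0) (h3 : (B * Z).trace = 0) (h4 : (A * B * Z).trace = 0) : Z = 0 := by
  obtain ⟨a, b, c, d, rfl⟩ : ∃ a b c d, A = !![a, b; c, d] := ⟨_, _, _, _, Matrix.eta_fin_two A⟩
  obtain ⟨e, f, g, h, rfl⟩ : ∃ e f g h, B = !![e, f; g, h] := ⟨_, _, _, _, Matrix.eta_fin_two B⟩
  obtain ⟨p, q, r, s, rfl⟩ : ∃ p q r s, Z = !![p, q; r, s] := ⟨_, _, _, _, Matrix.eta_fin_two Z⟩
  rw [Matrix.det_fin_two_of] at hA hB
  rw [Matrix.adjugate_fin_two_of, Matrix.adjugate_fin_two_of, Matrix.mul_fin_two,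
    Matrix.mul_fin_two, Matrix.mul_fin_two, Matrix.trace_fin_two_of] at hAB
  rw [Matrix.trace_fin_two_of] at h1
  rw [Matrix.mul_fin_two, Matrix.trace_fin_two_of] at h2 h3
  rw [Matrix.mul_fin_two, Matrix.mul_fin_two, Matrix.trace_fin_two_of] at h4
  have hne := sub_ne_zero.2 hAB
  have ep : p = 0 := by
    refine (mul_eq_zero.1 ?_).resolve_left hne
    linear_combination (- a * c * f * h + a * d * f * g + b * c * e * h - b * c * f * g - b * c * h^2 + b * d * g * h + c^2 * f^2 - c * d * e * f + c * d * f * h - d^2 * f * g) * h1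
      + (- a * f * g - b * g * h + c * e * f + d * f * g) * h2
      + (a * c * f - b * c * e + b * c * h - b * d * g) * h3
      + (b * g - c * f) * h4
      + 2 * p * (a * d - b * c) * hB
      + 2 * p * hA
  have eq : q = 0 := by
    refine (mul_eq_zero.1 ?_).resolve_left hne
    linear_combination (a^2 * f * h - a * b * e * h + a * b * h^2 - a * c * f^2 - a * d * f * h - b^2 * g * h + b * c * e * f + b * d * f * g) * h1
      + (- a * f * h + b * e * h - b * f * g - b * h^2 + c * f^2 + d * f * h) * h2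
      + (- a^2 * f + a * b * e - a * b * h + a * d * f + b^2 * g - b * c * f) * h3
      + (a * f - b * e + b * h - d * f) * h4
      + 2 * q * (a * d - b * c) * hB
      + 2 * q * hA
  have er : r = 0 := by
    refine (mul_eq_zero.1 ?_).resolve_left hne
    linear_combination (a * c * f * g - a * d * e * g + b * c * g * h - b * d * g^2 - c^2 * e * f + c * d * e^2 - c * d * e * h + d^2 * e * g) * h1
      + (a * e * g + b * g^2 - c * e^2 + c * e * h - c * f * g - d * e * g) * h2
      + (a * d * g - b * c * g + c^2 * f - c * d * e + c * d * h - d^2 * g) * h3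
      + (- a * g + c * e - c * h + d * g) * h4
      + 2 * r * (a * d - b * c) * hB
      + 2 * r * hA
  have es : s = 0 := by
    refine (mul_eq_zero.1 ?_).resolve_left hne
    linear_combination (- a^2 * f * g + a * b * e * g - a * b * g * h + a * c * e * f + a * d * f * g + b^2 * g^2 - b * c * e^2 + b * c * e * h - b * c * f * g - b * d * e * g) * h1
      + (a * f * g + b * g * h - c * e * f - d * f * g) * h2
      + (- a * c * f + b * c * e - b * c * h + b * d * g) * h3
      + (- b * g + c * f) * h4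
      + 2 * s * (a * d - b * c) * hB
      + 2 * s * hA
  rw [ep, eq, er, es]
  ext i j
  fin_cases i <;> fin_cases j <;> rfl

theorem sep2 {A Z : Matrix (Fin 2) (Fin 2) ℂ} (hA : A.det = 1) (ht : A.trace ≠ 2)
    (ht' : A.trace ≠ -2) (hc : A * Z = Z * A) (h1 : Z.trace = 0) (h2 : (A * Z).trace = 0) :
    Z = 0 := by
  obtain ⟨a, b, c, d, rfl⟩ : ∃ a b c d, A = !![a, b; c, d] := ⟨_, _, _, _, Matrix.eta_fin_two A⟩
  obtain ⟨p, q, r, s, rfl⟩ : ∃ p q r s, Z = !![p, q; r, s] := ⟨_, _, _, _, Matrix.eta_fin_two Z⟩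
  rw [Matrix.det_fin_two_of] at hA
  rw [Matrix.trace_fin_two_of] at ht ht' h1
  rw [Matrix.mul_fin_two, Matrix.mul_fin_two] at hc
  rw [Matrix.mul_fin_two, Matrix.trace_fin_two_of] at h2
  have c1 := congrFun (congrFun hc 0) 0
  have c2 := congrFun (congrFun hc 0) 1
  have c3 := congrFun (congrFun hc 1) 0
  simp only [Matrix.of_apply, Matrix.cons_val_zero, Matrix.cons_val_one, Matrix.cons_val',
    Matrix.empty_val', Matrix.cons_val_fin_one] at c1 c2 c3
  have hD : (a + d - 2) * (a + d + 2) ≠ 0 := by
    refine mul_ne_zero (sub_ne_zero.2 ht) ?_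
    intro h
    exact ht' (by linear_combination h)
  have hs : s = -p := by linear_combination h1
  subst hs
  -- the discriminant `(a - d) ^ 2 + 4 b c`
  have ep : p = 0 := by
    refine (mul_eq_zero.1 ?_).resolve_left hD
    linear_combination (a - d) * h2 + b * c3 - c * c2 + 4 * p * hA
  have eq : q = 0 := by
    refine (mul_eq_zero.1 ?_).resolve_left hD
    subst ep
    linear_combination (2 * b) * h2 - 2 * b * c1 + (a - d) * c2 + 4 * q * hA
  have er : r = 0 := by
    refine (mul_eq_zero.1 ?_).resolve_left hD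
    linear_combination (2 * c) * h2 + 2 * c * c1 - (a - d) * c3 + 4 * r * hA
  rw [ep, eq, er, neg_zero]
  ext i j
  fin_cases i <;> fin_cases j <;> rfl

end Pool.Agent.H63.MO
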