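import Pool.Agent.H63.MO.Uni
import Pool.Agent.H63.MO.Sep

/-!
# Module FinG: groups of exponent 24 in SL(2, ℂ) are finite

PROOF. Case 1: there are `A, B ∈ Γ` with `A B ≠ B A`.  The commutator `k = A B A⁻¹ B⁻¹ ∈ Γ` is not
`1`, so its trace is not `2` (`uni`); the inverse is the adjugate
(`SpecialLinearGroup.coe_inv`).  The map `X ↦ (tr X, tr (A X), tr (B X), tr (A B X))` from `Γ` to
`TF ^ 4` (`tr_mem`: `X, A X, B X, A B X ∈ Γ`) is injective by `sep` (for `Z = X - Y`), and `TF` is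
finite.
Case 2: `Γ` is commutative.  If `Γ ⊆ {1, -1}` it is finite.  Otherwise let `A ∈ Γ`, `A ≠ 1, -1`;
`tr A ≠ ± 2` (`uni`, `uni_neg`); the map `X ↦ (tr X, tr (A X))` to `TF ^ 2` is injective by `sep2`.
(`Set.Finite.of_injOn`, `Finite.of_injective`, `Set.Finite.prod`.)
-/

set_option autoImplicit false

open Matrix

namespace Pool.Agent.H63.MO

private theorem finG_sub {M N P : Matrix (Fin 2) (Fin 2) ℂ} (e : (M * N).trace = (M * P).trace) :
    (M * (N - P)).trace = 0 := by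
  rw [mul_sub, Matrix.trace_sub, e, sub_self]

theorem fin_group (Γ : Subgroup (SpecialLinearGroup (Fin 2) ℂ)) (h : ∀ g ∈ Γ, g ^ 24 = 1) :
    Finite Γ := by
  have hfin : Finite TF := TF_fin.to_subtype
  by_cases hc : ∃ A ∈ Γ, ∃ B ∈ Γ, A * B ≠ B * A
  · obtain ⟨A, hA, B, hB, hAB⟩ := hc
    have hk : (A.1 * B.1 * A.1.adjugate * B.1.adjugate).trace ≠ 2 := by
      intro ht
      have hk1 : A * B * A⁻¹ * B⁻¹ ∈ Γ :=
        Γ.mul_mem (Γ.mul_mem (Γ.mul_mem hA hB) (Γ.inv_mem hA)) (Γ.inv_mem hB)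
      have hk3 : A * B * A⁻¹ * B⁻¹ = 1 := uni (h _ hk1) ht
      apply hAB
      calc A * B = (A * B * A⁻¹ * B⁻¹) * (B * A) := by group
        _ = B * A := by rw [hk3, one_mul]
    refine Finite.of_injective (fun X : Γ =>
      ((⟨X.1.1.trace, tr_mem (h _ X.2)⟩,
        ⟨(A * X.1).1.trace, tr_mem (h _ (Γ.mul_mem hA X.2))⟩,
        ⟨(B * X.1).1.trace, tr_mem (h _ (Γ.mul_mem hB X.2))⟩,
        ⟨(A * B * X.1).1.trace, tr_mem (h _ (Γ.mul_mem (Γ.mul_mem hA hB) X.2))⟩) :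
        TF × TF × TF × TF)) ?_
    intro X Y hXY
    simp only [Prod.mk.injEq, Subtype.mk.injEq] at hXY
    obtain ⟨e1, e2, e3, e4⟩ := hXY
    have hz : X.1.1 - Y.1.1 = 0 := by
      refine sep A.2 B.2 hk ?_ (finG_sub e2) (finG_sub e3) (finG_sub e4)
      rw [Matrix.trace_sub, e1, sub_self]
    exact Subtype.ext (Subtype.ext (sub_eq_zero.1 hz))
  · push Not at hc
    by_cases h2 : ∃ A ∈ Γ, A ≠ 1 ∧ A ≠ -1
    · obtain ⟨A, hA, hA1, hA2⟩ := h2
      refine Finite.of_injective (fun X : Γ =>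
        ((⟨X.1.1.trace, tr_mem (h _ X.2)⟩,
          ⟨(A * X.1).1.trace, tr_mem (h _ (Γ.mul_mem hA X.2))⟩) : TF × TF)) ?_
      intro X Y hXY
      simp only [Prod.mk.injEq, Subtype.mk.injEq] at hXY
      obtain ⟨e1, e2⟩ := hXY
      have hcomm : A.1 * (X.1.1 - Y.1.1) = (X.1.1 - Y.1.1) * A.1 := by
        have c1 : A.1 * X.1.1 = X.1.1 * A.1 :=
          congrArg (fun g : SpecialLinearGroup (Fin 2) ℂ => g.1) (hc A hA X.1 X.2)
        have c2 : A.1 * Y.1.1 = Y.1.1 * A.1 :=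
          congrArg (fun g : SpecialLinearGroup (Fin 2) ℂ => g.1) (hc A hA Y.1 Y.2)
        rw [mul_sub, sub_mul, c1, c2]
      have hz : X.1.1 - Y.1.1 = 0 := by
        refine sep2 A.2 (fun ht => hA1 (uni (h _ hA) ht)) (fun ht => hA2 (uni_neg (h _ hA) ht))
          hcomm ?_ (finG_sub e2)
        rw [Matrix.trace_sub, e1, sub_self]
      exact Subtype.ext (Subtype.ext (sub_eq_zero.1 hz))
    · push Not at h2
      have hsub : (Γ : Set (SpecialLinearGroup (Fin 2) ℂ)) ⊆ {1, -1} := by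
        intro g hg
        by_cases h1 : g = 1
        · exact Or.inl h1
        · exact Or.inr (h2 g hg h1)
      exact ((Set.toFinite ({1, -1} : Set (SpecialLinearGroup (Fin 2) ℂ))).subset hsub).to_subtype

end Pool.Agent.H63.MO
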