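import Pool.Agent.H63.MO.Rec

/-!
# Module Fix: fixed points

Notation: `t = a + d ≠ 0`, `δ = (a d - b c) / t²`, `κ₁ + κ₂ = 1`, `κ₁ κ₂ = δ`, `c ≠ 0`,
`f₁ = (t κ₁ - d) / c`, `f₂ = (t κ₂ - d) / c`.
`fix_iff`: `f (c f + d) = a f + b` iff `c f² + (d - a) f - b = 0` iff `c (f - f₁) (f - f₂) = 0`
(`c (f₁ + f₂) = t - 2 d = a - d`, `c² f₁ f₂ = t² δ - t d + d² = - b c`).
`L_fix`: `L 1 - κ₂ L 0 = c (z_0 - f₂) (f₁ - w) / t` from `L_zero`, `L_one`: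
`t (L 1 - κ₂ L 0) = (a z_0 + b - t κ₂ z_0) - w (c z_0 + d - t κ₂)`, `t κ₂ = c f₂ + d`,
`a - t κ₂ = c f₁`, `b = - c f₁ f₂`.
`L_exp`: two-step induction (`κ₁² = κ₁ - δ`, `κ₂² = κ₂ - δ`).  `L_par`: `κ₁ = κ₂ = 1/2`, `δ = 1/4`.
-/

set_option autoImplicit false

open Finset Pool.Agent.H20.RO

namespace Pool.Agent.H63.MO

theorem fix_iff {a b c d κ₁ κ₂ : ℂ} (hc : c ≠ 0) (ht : a + d ≠ 0) (h1 : κ₁ + κ₂ = 1)
    (h2 : κ₁ * κ₂ = (a * d - b * c) / (a + d) ^ 2) (f : ℂ) :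
    f * (c * f + d) = a * f + b ↔
      f = ((a + d) * κ₁ - d) / c ∨ f = ((a + d) * κ₂ - d) / c := by
  have hp : (a + d) ^ 2 * (κ₁ * κ₂) = a * d - b * c := by
    rw [h2]
    exact mul_div_cancel₀ _ (pow_ne_zero 2 ht)
  have key : (c * f - ((a + d) * κ₁ - d)) * (c * f - ((a + d) * κ₂ - d)) =
      c * (f * (c * f + d) - (a * f + b)) := by
    linear_combination (-(c * f * (a + d)) - d * (a + d)) * h1 + hp
  rw [eq_div_iff hc, eq_div_iff hc]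
  constructor
  · intro h
    have h0 : (c * f - ((a + d) * κ₁ - d)) * (c * f - ((a + d) * κ₂ - d)) = 0 := by
      rw [key, h, sub_self, mul_zero]
    rcases mul_eq_zero.1 h0 with h' | h'
    · left
      linear_combination h'
    · right
      linear_combination h'
  · intro h
    have h0 : c * (f * (c * f + d) - (a * f + b)) = 0 := by
      rw [← key]
      rcases h with h' | h'
      · rw [mul_comm c f, h', sub_self, zero_mul]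
      · rw [mul_comm c f, h', sub_self, mul_zero]
    rcases mul_eq_zero.1 h0 with h' | h'
    · exact absurd h' hc
    · exact sub_eq_zero.1 h'

theorem L_fix {a b c d : ℂ} {z : ℕ → ℂ} (h : ∀ n, Mob a b c d (z n) (z (n + 1))) (hc : c ≠ 0)
    (ht : a + d ≠ 0) {κ₁ κ₂ : ℂ} (h1 : κ₁ + κ₂ = 1)
    (h2 : κ₁ * κ₂ = (a * d - b * c) / (a + d) ^ 2) (w : ℂ) :
    L a c d z w 1 - κ₂ * L a c d z w 0 =
      c * (z 0 - ((a + d) * κ₂ - d) / c) * (((a + d) * κ₁ - d) / c - w) / (a + d) := by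
  have hp : (a + d) ^ 2 * (κ₁ * κ₂) = a * d - b * c := by
    rw [h2]
    exact mul_div_cancel₀ _ (pow_ne_zero 2 ht)
  rw [L_zero, L_one h]
  field_simp
  linear_combination (-(c * z 0 * (a + d)) - d * (a + d)) * h1 + hp

theorem L_exp {L : ℕ → ℂ} {δ κ₁ κ₂ : ℂ} (h1 : κ₁ + κ₂ = 1) (h2 : κ₁ * κ₂ = δ) (hne : κ₁ ≠ κ₂)
    (hL : ∀ n, L (n + 2) = L (n + 1) - δ * L n) (n : ℕ) :
    L n = (L 1 - κ₂ * L 0) / (κ₁ - κ₂) * κ₁ ^ n + -((L 1 - κ₁ * L 0) / (κ₁ - κ₂)) * κ₂ ^ n := by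
  have hd : κ₁ - κ₂ ≠ 0 := sub_ne_zero.2 hne
  have q1 : κ₁ ^ 2 = κ₁ - δ := by linear_combination κ₁ * h1 - h2
  have q2 : κ₂ ^ 2 = κ₂ - δ := by linear_combination κ₂ * h1 - h2
  have both : ∀ n, (L n = (L 1 - κ₂ * L 0) / (κ₁ - κ₂) * κ₁ ^ n +
      -((L 1 - κ₁ * L 0) / (κ₁ - κ₂)) * κ₂ ^ n) ∧
      (L (n + 1) = (L 1 - κ₂ * L 0) / (κ₁ - κ₂) * κ₁ ^ (n + 1) +
      -((L 1 - κ₁ * L 0) / (κ₁ - κ₂)) * κ₂ ^ (n + 1)) := by
    intro n
    induction n with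
    | zero =>
      constructor
      · field_simp
        ring
      · field_simp
        ring
    | succ n ih =>
      refine ⟨ih.2, ?_⟩
      rw [hL n, ih.1, ih.2]
      linear_combination (-((L 1 - κ₂ * L 0) / (κ₁ - κ₂) * κ₁ ^ n)) * q1 +
        ((L 1 - κ₁ * L 0) / (κ₁ - κ₂) * κ₂ ^ n) * q2
  exact (both n).1

theorem L_par {L : ℕ → ℂ} (hL : ∀ n, L (n + 2) = L (n + 1) - 1 / 4 * L n) (n : ℕ) :
    L n = (1 / 2) ^ n * (L 0 + n * (2 * L 1 - L 0)) := by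
  have both : ∀ n : ℕ, (L n = (1 / 2) ^ n * (L 0 + n * (2 * L 1 - L 0))) ∧
      (L (n + 1) = (1 / 2) ^ (n + 1) * (L 0 + (n + 1 : ℕ) * (2 * L 1 - L 0))) := by
    intro n
    induction n with
    | zero =>
      constructor
      · simp
      · simp
    | succ n ih =>
      refine ⟨ih.2, ?_⟩
      rw [hL n, ih.1, ih.2]
      push_cast
      ring
  exact (both n).1

end Pool.Agent.H63.MO
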