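import Pool.Agent.H63.MO.Uni

/-!
# Module Fpt: fixed points on the projective line

`SpecialLinearGroup (Fin 2) ℂ` acts on `ℙ ℂ (Fin 2 → ℂ)` (Mathlib:
LinearAlgebra/Projectivization/Action, `Projectivization.smul_mk`).  `g • mk v = mk v` iff
`g v = μ v` for some `μ` (`Projectivization.mk_eq_mk_iff`, `mk_eq_mk_iff'`).

PROOFS. `fix_two`: `eig_two`: `v, w` are eigenvectors with different eigenvalues `κ, κ⁻¹`, so they
are linearly independent, a basis of `Fin 2 → ℂ`.  If `u = x v + y w` and `g u = μ u`, then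
`x (κ - μ) = 0 = y (κ⁻¹ - μ)`, so `x = 0` or `y = 0`: the fixed points are `mk v`, `mk w`, and they
are different.
`stab`: `x = mk v`; for `g` in the stabilizer `g v = χ(g) v`; `χ` is a homomorphism to `ℂˣ`
(or to `rootsOfUnity 24 ℂ`), `χ(g) ^ 24 = 1`; it is injective: if `χ(g) = 1`, then `1` is an
eigenvalue, so `det (g - 1) = 2 - tr g = 0`, `tr g = 2` and `g = 1` by `uni`.  The group
`rootsOfUnity 24 ℂ` has `24` elements (`Complex.card_rootsOfUnity`);
`Subgroup.card_dvd_of_injective`.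
-/

set_option autoImplicit false

open Matrix MulAction
open scoped LinearAlgebra.Projectivization

namespace Pool.Agent.H63.MO

private theorem Fpt_par {a b : Fin 2 → ℂ} (hb : b ≠ 0) (h : a 0 * b 1 - a 1 * b 0 = 0) :
    ∃ c : ℂ, c • b = a := by
  by_cases h0 : b 0 = 0
  · have h1 : b 1 ≠ 0 := by
      intro h1
      apply hb
      ext i
      fin_cases i
      · exact h0
      · exact h1
    refine ⟨a 1 / b 1, ?_⟩
    have ha0 : a 0 = 0 := by
      rw [h0, mul_zero, sub_zero] at h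
      exact (mul_eq_zero.1 h).resolve_right h1
    ext i
    fin_cases i
    · simp [h0, ha0]
    · simp [h1]
  · refine ⟨a 0 / b 0, ?_⟩
    ext i
    fin_cases i
    · simp [h0]
    · simp only [Pi.smul_apply, smul_eq_mul]
      change a 0 / b 0 * b 1 = a 1
      field_simp
      linear_combination h

private theorem Fpt_det (g : SpecialLinearGroup (Fin 2) ℂ) (a b : Fin 2 → ℂ) :
    (g.1 *ᵥ a) 0 * (g.1 *ᵥ b) 1 - (g.1 *ᵥ a) 1 * (g.1 *ᵥ b) 0 = a 0 * b 1 - a 1 * b 0 := by
  have hd : g.1 0 0 * g.1 1 1 - g.1 0 1 * g.1 1 0 = 1 := by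
    have := g.2
    rwa [det_fin_two] at this
  simp only [mulVec, dotProduct, Fin.sum_univ_two]
  linear_combination (a 0 * b 1 - a 1 * b 0) * hd

private theorem Fpt_fix (g : SpecialLinearGroup (Fin 2) ℂ) {v : Fin 2 → ℂ} (hv : v ≠ 0) :
    g • (Projectivization.mk ℂ v hv) = Projectivization.mk ℂ v hv ↔
      ∃ a : ℂ, a • v = g.1 *ᵥ v := by
  rw [Projectivization.smul_mk, Projectivization.mk_eq_mk_iff']
  rfl

private theorem Fpt_tr (g : SpecialLinearGroup (Fin 2) ℂ) {v : Fin 2 → ℂ} (hv : v ≠ 0)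
    (h : g.1 *ᵥ v = v) : g.1.trace = 2 := by
  have h3 : (g.1 - 1).det = 0 := by
    rw [← exists_mulVec_eq_zero_iff]
    exact ⟨v, hv, by rw [sub_mulVec, h, one_mulVec, sub_self]⟩
  have hd : g.1 0 0 * g.1 1 1 - g.1 0 1 * g.1 1 0 = 1 := by
    have := g.2
    rwa [det_fin_two] at this
  rw [det_fin_two, Matrix.sub_apply, Matrix.sub_apply, Matrix.sub_apply, Matrix.sub_apply,
    one_apply_eq, one_apply_eq, one_apply_ne (by decide), one_apply_ne (by decide)] at h3
  rw [trace_fin_two]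
  linear_combination hd - h3

theorem fix_two {g : SpecialLinearGroup (Fin 2) ℂ} (h : g ^ 24 = 1) (h1 : g ≠ 1) (h2 : g ≠ -1) :
    (fixedBy (ℙ ℂ (Fin 2 → ℂ)) g).ncard = 2 := by
  obtain ⟨κ, v, w, hκ, hκκ, hv, hw, hgv, hgw⟩ := eig_two h h1 h2
  have hne : Projectivization.mk ℂ v hv ≠ Projectivization.mk ℂ w hw := by
    intro he
    obtain ⟨a, ha⟩ := (Projectivization.mk_eq_mk_iff' ℂ v w hv hw).1 he
    have e1 : g.1 *ᵥ v = κ⁻¹ • v := by
      rw [← ha, mulVec_smul, hgw, smul_comm]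
    rw [hgv] at e1
    exact hκκ (smul_left_injective ℂ hv e1)
  have hset : fixedBy (ℙ ℂ (Fin 2 → ℂ)) g =
      {Projectivization.mk ℂ v hv, Projectivization.mk ℂ w hw} := by
    ext x
    induction x using Projectivization.ind with | _ u hu =>
    rw [mem_fixedBy, Fpt_fix, Set.mem_insert_iff, Set.mem_singleton_iff]
    constructor
    · rintro ⟨μ, hμ⟩
      by_cases d1 : u 0 * v 1 - u 1 * v 0 = 0
      · left
        rw [Projectivization.mk_eq_mk_iff']
        exact Fpt_par hv d1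
      · by_cases d2 : u 0 * w 1 - u 1 * w 0 = 0
        · right
          rw [Projectivization.mk_eq_mk_iff']
          exact Fpt_par hw d2
        · exfalso
          have e1 := Fpt_det g u v
          have e2 := Fpt_det g u w
          rw [← hμ, hgv] at e1
          rw [← hμ, hgw] at e2
          simp only [Pi.smul_apply, smul_eq_mul] at e1 e2
          have f1 : μ * κ = 1 := by
            have : (μ * κ - 1) * (u 0 * v 1 - u 1 * v 0) = 0 := by linear_combination e1
            exact sub_eq_zero.1 ((mul_eq_zero.1 this).resolve_right d1)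
          have f2 : μ * κ⁻¹ = 1 := by
            have : (μ * κ⁻¹ - 1) * (u 0 * w 1 - u 1 * w 0) = 0 := by linear_combination e2
            exact sub_eq_zero.1 ((mul_eq_zero.1 this).resolve_right d2)
          have hμ0 : μ ≠ 0 := left_ne_zero_of_mul (by rw [f1]; exact one_ne_zero)
          exact hκκ (mul_left_cancel₀ hμ0 (by rw [f1, f2]))
    · rintro (hx | hx)
      · obtain ⟨a, ha⟩ := (Projectivization.mk_eq_mk_iff' ℂ u v hu hv).1 hx
        exact ⟨κ, by rw [← ha, mulVec_smul, hgv, smul_comm]⟩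
      · obtain ⟨a, ha⟩ := (Projectivization.mk_eq_mk_iff' ℂ u w hu hw).1 hx
        exact ⟨κ⁻¹, by rw [← ha, mulVec_smul, hgw, smul_comm]⟩
  rw [hset]
  exact Set.ncard_pair hne

theorem stab (Γ : Subgroup (SpecialLinearGroup (Fin 2) ℂ)) (h : ∀ g ∈ Γ, g ^ 24 = 1)
    (x : ℙ ℂ (Fin 2 → ℂ)) : Nat.card (stabilizer Γ x) ∣ 24 := by
  induction x using Projectivization.ind with | _ v hv =>
  set x : ℙ ℂ (Fin 2 → ℂ) := Projectivization.mk ℂ v hv with hx
  have hex : ∀ g : stabilizer Γ x, ∃ a : ℂ, a • v = (g : SpecialLinearGroup (Fin 2) ℂ).1 *ᵥ v := by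
    intro g
    have hg : ((g : Γ) : SpecialLinearGroup (Fin 2) ℂ) • x = x := g.2
    exact (Fpt_fix _ hv).1 hg
  choose χ hχ using hex
  have hinj : ∀ a b : ℂ, a • v = b • v → a = b := fun a b hab => smul_left_injective ℂ hv hab
  have hpow : ∀ (g : stabilizer Γ x) (n : ℕ),
      ((g : SpecialLinearGroup (Fin 2) ℂ) ^ n).1 *ᵥ v = (χ g) ^ n • v := by
    intro g n
    induction n with
    | zero => simp
    | succ n ih =>
      rw [pow_succ, pow_succ]
      change (((g : SpecialLinearGroup (Fin 2) ℂ) ^ n).1 * (g : SpecialLinearGroup (Fin 2) ℂ).1) *ᵥ v = _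
      rw [← mulVec_mulVec, ← hχ g, mulVec_smul, ih, smul_smul, mul_comm]
  have h24 : ∀ g : stabilizer Γ x, χ g ^ 24 = 1 := by
    intro g
    apply hinj
    rw [← hpow, h _ (g : Γ).2, one_smul]
    simp
  have hmul : ∀ g g' : stabilizer Γ x, χ (g * g') = χ g * χ g' := by
    intro g g'
    apply hinj
    rw [hχ (g * g')]
    change ((g : SpecialLinearGroup (Fin 2) ℂ).1 * (g' : SpecialLinearGroup (Fin 2) ℂ).1) *ᵥ v = _
    rw [← mulVec_mulVec, ← hχ g', mulVec_smul, ← hχ g, smul_smul, mul_comm]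
  let f : stabilizer Γ x →* rootsOfUnity 24 ℂ := MonoidHom.mk'
    (fun g => rootsOfUnity.mkOfPowEq (χ g) (h24 g)) (by
      intro g g'
      ext
      simp [hmul])
  have hf : Function.Injective f := by
    rw [injective_iff_map_eq_one]
    intro g hg
    have h1 : χ g = 1 := by
      have := congrArg (fun z : rootsOfUnity 24 ℂ => ((z : ℂˣ) : ℂ)) hg
      simpa [f] using this
    have h2 : (g : SpecialLinearGroup (Fin 2) ℂ).1 *ᵥ v = v := by
      rw [← hχ g, h1, one_smul]
    have h4 : (g : SpecialLinearGroup (Fin 2) ℂ).1.trace = 2 := Fpt_tr _ hv h2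
    have h5 := uni (h _ (g : Γ).2) h4
    exact Subtype.ext (Subtype.ext h5)
  have := Subgroup.card_dvd_of_injective f hf
  rwa [Complex.card_rootsOfUnity] at this

end Pool.Agent.H63.MO
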