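import Pool.Agent.H63.MO.Defs

/-!
# Module Gc: lines and circles

`gen_circle`: if `A = 0`, then `B ≠ 0` and `S` is on the line `p + ℝ v`, `p = - C B / (2 ‖B‖²)`,
`v = i B` (`Re (B̄ w) = - C / 2`).  If `A ≠ 0`: `‖w + B / A‖² = (‖B‖² - A C) / A² > 0`.
`gc_im`: expand: `Im (x (f - w) conj (g - w)) = A ‖w‖² + 2 Re (B̄ w) + C` with `A = Im x`,
`C = Im (x f ḡ)`, `B̄ = - i (x̄ f̄ - x ḡ) / 2`; here
`4 (‖B‖² - A C) = ‖x̄ f̄ - x ḡ‖² - 4 Im x Im (x f ḡ) = ‖x‖² ‖f - g‖² > 0` (expand in real and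
imaginary parts and `ring` / `nlinarith`).
`gc_apo`: `r² ‖w - f‖² = s² ‖w - g‖²`: `A = r² - s²`, `B = s² g - r² f`, `C = r² ‖f‖² - s² ‖g‖²`;
`‖B‖² - A C = r² s² ‖f - g‖² > 0`.
-/

set_option autoImplicit false

open Finset Pool.Agent.H20.RO

namespace Pool.Agent.H63.MO

private theorem Gc_sq (z : ℂ) : ‖z‖ ^ 2 = z.re ^ 2 + z.im ^ 2 := by
  rw [Complex.sq_norm, Complex.normSq_apply]
  ring

theorem gen_circle {S : Set ℂ} {A C : ℝ} {B : ℂ} (h : A * C < ‖B‖ ^ 2)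
    (hS : ∀ w ∈ S, A * ‖w‖ ^ 2 + 2 * ((starRingEnd ℂ) B * w).re + C = 0) :
    OnLine S ∨ OnCirc S := by
  by_cases hA : A = 0
  · left
    subst hA
    have hB : B ≠ 0 := by
      rintro rfl
      simp at h
    have hN : 0 < B.re ^ 2 + B.im ^ 2 := by
      rw [← Gc_sq]
      exact pow_pos (norm_pos_iff.2 hB) 2
    refine ⟨((-C / (2 * (B.re ^ 2 + B.im ^ 2)) : ℝ) : ℂ) * B, Complex.I * B,
      mul_ne_zero Complex.I_ne_zero hB, fun w hw => ?_⟩
    refine ⟨(B.re * w.im - B.im * w.re) / (B.re ^ 2 + B.im ^ 2), ?_⟩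
    have h1 := hS w hw
    simp only [Complex.mul_re, Complex.conj_re, Complex.conj_im] at h1
    have hC : C = -(2 * (B.re * w.re + B.im * w.im)) := by linarith
    apply Complex.ext
    · simp only [Complex.add_re, Complex.mul_re, Complex.ofReal_re, Complex.ofReal_im, Complex.I_re,
        Complex.I_im, Complex.mul_im]
      rw [hC]
      field_simp
      ring
    · simp only [Complex.add_im, Complex.mul_re, Complex.ofReal_re, Complex.ofReal_im, Complex.I_re,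
        Complex.I_im, Complex.mul_im]
      rw [hC]
      field_simp
      ring
  · right
    have hA2 : 0 < A ^ 2 := by positivity
    have hr : 0 < (‖B‖ ^ 2 - A * C) / A ^ 2 := div_pos (sub_pos.2 h) hA2
    refine ⟨((-1 / A : ℝ) : ℂ) * B, Real.sqrt ((‖B‖ ^ 2 - A * C) / A ^ 2), Real.sqrt_pos.2 hr,
      fun w hw => ?_⟩
    rw [eq_comm, Real.sqrt_eq_iff_mul_self_eq hr.le dist_nonneg, ← sq, dist_eq_norm,
      div_eq_iff hA2.ne']
    simp only [Gc_sq]
    have h1 := hS w hw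
    rw [Gc_sq w] at h1
    simp only [Complex.mul_re, Complex.conj_re, Complex.conj_im] at h1
    simp only [Complex.sub_re, Complex.sub_im, Complex.mul_re, Complex.mul_im, Complex.ofReal_re,
      Complex.ofReal_im]
    have e1 : (w.re - (-1 / A * B.re - 0 * B.im)) ^ 2 * A ^ 2 = (A * w.re + B.re) ^ 2 := by
      field_simp
      ring
    have e2 : (w.im - (-1 / A * B.im + 0 * B.re)) ^ 2 * A ^ 2 = (A * w.im + B.im) ^ 2 := by
      field_simp
      ring
    rw [add_mul, e1, e2]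
    linear_combination (-A) * h1

theorem gc_im {S : Set ℂ} {x f g : ℂ} (hx : x ≠ 0) (hfg : f ≠ g)
    (hS : ∀ w ∈ S, (x * (f - w) * (starRingEnd ℂ) (g - w)).im = 0) : OnLine S ∨ OnCirc S := by
  have h1 : 0 < ‖x‖ ^ 2 * ‖f - g‖ ^ 2 :=
    mul_pos (pow_pos (norm_pos_iff.2 hx) 2) (pow_pos (norm_pos_iff.2 (sub_ne_zero.2 hfg)) 2)
  refine gen_circle (A := x.im) (C := (x * f * (starRingEnd ℂ) g).im)
    (B := Complex.I * (x * f - (starRingEnd ℂ) x * g) * ((1 / 2 : ℝ) : ℂ)) ?_ ?_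
  · rw [Gc_sq x, Gc_sq (f - g)] at h1
    rw [Gc_sq]
    simp only [Complex.sub_re, Complex.sub_im, Complex.mul_re, Complex.mul_im, Complex.ofReal_re,
      Complex.ofReal_im, Complex.I_re, Complex.I_im, Complex.conj_re, Complex.conj_im] at h1 ⊢
    nlinarith
  · intro w hw
    have h2 := hS w hw
    rw [Gc_sq]
    simp only [map_mul, map_sub, Complex.conj_I, Complex.conj_conj, Complex.conj_ofReal,
      Complex.sub_re, Complex.sub_im, Complex.mul_re, Complex.mul_im, Complex.ofReal_re,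
      Complex.ofReal_im, Complex.I_re, Complex.I_im, Complex.conj_re, Complex.conj_im,
      Complex.neg_re, Complex.neg_im] at h2 ⊢
    linear_combination h2

theorem gc_apo {S : Set ℂ} {r s : ℝ} (hr : 0 < r) (hs : 0 < s) {f g : ℂ} (hfg : f ≠ g)
    (hS : ∀ w ∈ S, r * ‖w - f‖ = s * ‖w - g‖) : OnLine S ∨ OnCirc S := by
  have h1 : 0 < (r * s) ^ 2 * ‖f - g‖ ^ 2 :=
    mul_pos (by positivity) (pow_pos (norm_pos_iff.2 (sub_ne_zero.2 hfg)) 2)
  refine gen_circle (A := r ^ 2 - s ^ 2) (C := r ^ 2 * ‖f‖ ^ 2 - s ^ 2 * ‖g‖ ^ 2)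
    (B := ((s ^ 2 : ℝ) : ℂ) * g - ((r ^ 2 : ℝ) : ℂ) * f) ?_ ?_
  · rw [Gc_sq (f - g)] at h1
    simp only [Gc_sq, Complex.sub_re, Complex.sub_im, Complex.mul_re, Complex.mul_im,
      Complex.ofReal_re, Complex.ofReal_im] at h1 ⊢
    nlinarith
  · intro w hw
    have h2 : (r * ‖w - f‖) ^ 2 = (s * ‖w - g‖) ^ 2 := by rw [hS w hw]
    rw [mul_pow, mul_pow] at h2
    simp only [Gc_sq, map_mul, map_sub, Complex.conj_ofReal,
      Complex.sub_re, Complex.sub_im, Complex.mul_re, Complex.mul_im, Complex.ofReal_re,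
      Complex.ofReal_im, Complex.conj_re, Complex.conj_im] at h2 ⊢
    linear_combination h2

end Pool.Agent.H63.MO
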