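import Pool.Agent.H63.MO.Cnt
import Pool.Agent.H63.MO.FinG
import Pool.Agent.H63.MO.Fpt

/-!
# Module Grp: groups of exponent 24 in SL(2, ℂ)

PROOF. `Γ` is finite (`fin_group`).  `cnt` for `G = Γ`, `X = ℙ ℂ (Fin 2 → ℂ)`, `z = -1` (central,
acts trivially, `-1 ≠ 1`): `fix_two` (the set `fixedBy` of an element of `Γ` is the one of the
matrix) and `stab`.
-/

set_option autoImplicit false

open Matrix MulAction
open scoped LinearAlgebra.Projectivization

namespace Pool.Agent.H63.MO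

theorem group_card (Γ : Subgroup (SpecialLinearGroup (Fin 2) ℂ)) (h : ∀ g ∈ Γ, g ^ 24 = 1)
    (hneg : -1 ∈ Γ) : Finite Γ ∧ Nat.card Γ ∣ 48 := by
  have hfin : Finite Γ := fin_group Γ h
  have hne : (-1 : SpecialLinearGroup (Fin 2) ℂ) ≠ 1 := by
    intro he
    have h1 := congrArg (fun g : SpecialLinearGroup (Fin 2) ℂ => g.1 0 0) he
    have e : (-1 : SpecialLinearGroup (Fin 2) ℂ).1 = -(1 : Matrix (Fin 2) (Fin 2) ℂ) := rfl
    have e1 : (1 : SpecialLinearGroup (Fin 2) ℂ).1 = (1 : Matrix (Fin 2) (Fin 2) ℂ) := rfl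
    simp only [e, e1, Matrix.neg_apply, one_apply_eq] at h1
    norm_num at h1
  refine ⟨hfin, cnt (G := Γ) (X := ℙ ℂ (Fin 2 → ℂ)) ⟨-1, hneg⟩ ?_ ?_ ?_ ?_ (stab Γ h)⟩
  · intro he
    exact hne (congrArg Subtype.val he)
  · intro g
    apply Subtype.ext
    change g.1 * (-1) = (-1) * g.1
    rw [mul_neg, neg_mul, mul_one, one_mul]
  · intro x
    induction x using Projectivization.ind with | _ v hv =>
    change (-1 : SpecialLinearGroup (Fin 2) ℂ) • Projectivization.mk ℂ v hv = _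
    rw [Projectivization.smul_mk, Projectivization.mk_eq_mk_iff']
    refine ⟨-1, ?_⟩
    change (-1 : ℂ) • v = (-1 : SpecialLinearGroup (Fin 2) ℂ).1 *ᵥ v
    have e : (-1 : SpecialLinearGroup (Fin 2) ℂ).1 = -(1 : Matrix (Fin 2) (Fin 2) ℂ) := rfl
    rw [e, neg_mulVec, one_mulVec, neg_smul, one_smul]
  · intro g hg1 hgz
    exact fix_two (h g.1 g.2) (fun he => hg1 (Subtype.ext he)) (fun he => hgz (Subtype.ext he))

end Pool.Agent.H63.MO
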