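import Pool.Agent.H20.RO.App

/-!
# Module Int: denominators

`q n = ‖L n‖² = s n ^ 2`.  `four`: with `q n = L n * conj (L n)` (as a complex number) and
`L (n+2) = L (n+1) - δ L n`, `L (n+3) = ...`, `L (n+4) = ...`, everything is a polynomial in
`L n, L (n+1), δ` and their conjugates, `ring` (coefficients: `T = δ + δ̄`, `R = δ δ̄`).  Check with
`x⁴ - x³ + (T - 2 R) x² - R x + R²`, the polynomial with the roots `κ_i κ̄_j`.
`seq_int`: let `D > 0` be a common denominator of `T, R` and `N > 0` one of `q 0, ..., q 3`; by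
induction `N D ^ n q n` is an integer.  So `(N D ^ n s n)² = (N D ^ n) (N D ^ n q n)` is an integer
and `int_of_sq` (H20/RO/App) gives the claim.
-/

set_option autoImplicit false

open Finset Pool.Agent.H20.RO

namespace Pool.Agent.H63.MO

private lemma Int_norm (z : ℂ) : ((‖z‖ ^ 2 : ℝ) : ℂ) = z * (starRingEnd ℂ) z := by
  rw [Complex.mul_conj, Complex.normSq_eq_norm_sq]

theorem four {L : ℕ → ℂ} {δ : ℂ} (hL : ∀ n, L (n + 2) = L (n + 1) - δ * L n) {T R : ℚ}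
    (hT : δ + (starRingEnd ℂ) δ = T) (hR : δ * (starRingEnd ℂ) δ = R) (n : ℕ) :
    ‖L (n + 4)‖ ^ 2 = ‖L (n + 3)‖ ^ 2 - ((T - 2 * R : ℚ) : ℝ) * ‖L (n + 2)‖ ^ 2 +
      (R : ℝ) * ‖L (n + 1)‖ ^ 2 - ((R ^ 2 : ℚ) : ℝ) * ‖L n‖ ^ 2 := by
  have h2 := hL n
  have h3 : L (n + 3) = L (n + 2) - δ * L (n + 1) := hL (n + 1)
  have h4 : L (n + 4) = L (n + 3) - δ * L (n + 2) := hL (n + 2)
  rw [h2] at h3 h4
  rw [h3] at h4
  apply Complex.ofReal_injective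
  push_cast
  have e : ∀ z : ℂ, (‖z‖ : ℂ) ^ 2 = z * (starRingEnd ℂ) z := by
    intro z
    rw [← Int_norm]
    push_cast
    rfl
  rw [e, e, e, e, e, ← hT, ← hR, h4, h3, h2]
  simp only [map_sub, map_mul]
  ring

private lemma Int_den (q : ℚ) : ∃ z : ℤ, (q.den : ℚ) * q = z := ⟨q.num, by
  rw [mul_comm]
  exact Rat.mul_den_eq_num q⟩

theorem seq_int {L : ℕ → ℂ} {δ : ℂ} (hL : ∀ n, L (n + 2) = L (n + 1) - δ * L n) {T R : ℚ}
    (hT : δ + (starRingEnd ℂ) δ = T) (hR : δ * (starRingEnd ℂ) δ = R) {s : ℕ → ℚ}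
    (hs : ∀ n, ‖L n‖ = s n) :
    ∃ N D : ℕ, 0 < N ∧ 0 < D ∧ ∀ n, ∃ k : ℤ, (N : ℚ) * (D : ℚ) ^ n * s n = k := by
  have hrec : ∀ n, s (n + 4) ^ 2 = s (n + 3) ^ 2 - (T - 2 * R) * s (n + 2) ^ 2 +
      R * s (n + 1) ^ 2 - R ^ 2 * s n ^ 2 := by
    intro n
    have h := four hL hT hR n
    rw [hs, hs, hs, hs, hs] at h
    exact_mod_cast h
  set D : ℕ := T.den * R.den with hD
  have hD0 : 0 < D := Nat.mul_pos T.pos R.pos
  obtain ⟨tz, htz⟩ : ∃ z : ℤ, (D : ℚ) * (T - 2 * R) = z := by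
    refine ⟨R.den * T.num - 2 * (T.den * R.num), ?_⟩
    have h1 := Rat.mul_den_eq_num T
    have h2 := Rat.mul_den_eq_num R
    rw [hD]
    push_cast
    rw [← h1, ← h2]
    ring
  obtain ⟨rz, hrz⟩ : ∃ z : ℤ, (D : ℚ) * R = z := by
    refine ⟨T.den * R.num, ?_⟩
    have h2 := Rat.mul_den_eq_num R
    rw [hD]
    push_cast
    rw [← h2]
    ring
  set N : ℕ := (s 0 ^ 2).den * (s 1 ^ 2).den * (s 2 ^ 2).den * (s 3 ^ 2).den with hN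
  have hN0 : 0 < N := by
    have h0 := (s 0 ^ 2).pos
    have h1 := (s 1 ^ 2).pos
    have h2 := (s 2 ^ 2).pos
    have h3 := (s 3 ^ 2).pos
    positivity
  have key : ∀ n, (∃ k : ℤ, (N : ℚ) * (D : ℚ) ^ n * s n ^ 2 = k) ∧
      (∃ k : ℤ, (N : ℚ) * (D : ℚ) ^ (n + 1) * s (n + 1) ^ 2 = k) ∧
      (∃ k : ℤ, (N : ℚ) * (D : ℚ) ^ (n + 2) * s (n + 2) ^ 2 = k) ∧
      (∃ k : ℤ, (N : ℚ) * (D : ℚ) ^ (n + 3) * s (n + 3) ^ 2 = k) := by
    intro n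
    induction n with
    | zero =>
      obtain ⟨z0, h0⟩ := Int_den (s 0 ^ 2)
      obtain ⟨z1, h1⟩ := Int_den (s 1 ^ 2)
      obtain ⟨z2, h2⟩ := Int_den (s 2 ^ 2)
      obtain ⟨z3, h3⟩ := Int_den (s 3 ^ 2)
      refine ⟨⟨(s 1 ^ 2).den * (s 2 ^ 2).den * (s 3 ^ 2).den * z0, ?_⟩,
        ⟨(s 0 ^ 2).den * (s 2 ^ 2).den * (s 3 ^ 2).den * D * z1, ?_⟩,
        ⟨(s 0 ^ 2).den * (s 1 ^ 2).den * (s 3 ^ 2).den * D ^ 2 * z2, ?_⟩,
        ⟨(s 0 ^ 2).den * (s 1 ^ 2).den * (s 2 ^ 2).den * D ^ 3 * z3, ?_⟩⟩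
      · rw [hN]
        push_cast
        rw [← h0]
        ring
      · rw [hN]
        push_cast
        rw [← h1]
        ring
      · rw [hN]
        push_cast
        rw [← h2]
        ring
      · rw [hN]
        push_cast
        rw [← h3]
        ring
    | succ n ih =>
      obtain ⟨⟨a, ha⟩, ⟨b, hb⟩, ⟨c, hc⟩, ⟨d, hd⟩⟩ := ih
      refine ⟨⟨b, hb⟩, ⟨c, hc⟩, ⟨d, hd⟩, ⟨D * d - D * tz * c + D ^ 2 * rz * b - D ^ 2 * rz ^ 2 * a, ?_⟩⟩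
      have e : n + 1 + 3 = n + 4 := by ring
      rw [e, hrec n]
      push_cast
      rw [← ha, ← hb, ← hc, ← hd, ← htz, ← hrz]
      ring
  refine ⟨N, D, hN0, hD0, fun n => ?_⟩
  obtain ⟨k, hk⟩ := (key n).1
  have h1 : ((N : ℚ) * (D : ℚ) ^ n * s n) ^ 2 = ((N * D ^ n * k : ℤ) : ℚ) := by
    push_cast
    rw [← hk]
    ring
  exact int_of_sq h1

end Pool.Agent.H63.MO
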