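import Pool.Agent.H63.MO.Cx
import Pool.Agent.H63.MO.Int

/-!
# Module Hyp: the loxodromic case

PROOF. `R = δ δ̄ = ‖δ‖²` and `T = δ + δ̄ = 1 + ‖δ‖² - ‖1 - δ‖²` are rational (`hδ1`, `hδ2`); `δ` is a
root of `X² - T X + R`, so it is algebraic, `κ₁` is a root of `X² - X + δ`, algebraic
(`κ₁ + κ₂ = 1`), `κ₂ = 1 - κ₁`, `λ = κ₁ / κ₂` (`κ₂ ≠ 0`, `κ₁ ≠ 0` because `δ ≠ 0`), `V = ‖κ₂‖`
(`V² = κ₂ κ̄₂`; as a real number: `(V : ℂ)` is algebraic, `isAlgebraic_algebraMap_iff` or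
`IsAlgebraic` of the square).  `L` satisfies `L (n+2) = L (n+1) - δ L n`; `seq_int` gives `N, D`.
`‖L n‖ = ‖β‖ V ^ n ‖1 - a λ ^ n‖` with `a = - α / β`; `cx_core` with `n = 0`.
Algebraic closure of `ℚ` in `ℂ`: `IsAlgebraic` is transitive, e.g. via `isAlgebraic_iff_isIntegral`
and `isIntegral_trans` (`ℚ`, the integral closure), or give the explicit polynomial
`(X² - X)² + T (X² - X) + R` with the root `κ₁`.
-/

set_option autoImplicit false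

open Finset Pool.Agent.H20.RO

namespace Pool.Agent.H63.MO

private theorem Hyp_conj (z : ℂ) : z * (starRingEnd ℂ) z = ((‖z‖ ^ 2 : ℝ) : ℂ) := by
  rw [Complex.mul_conj, Complex.normSq_eq_norm_sq]

private theorem Hyp_alg {κ δ : ℂ} {T R : ℚ} (hk : κ ^ 2 = κ - δ)
    (hd : δ ^ 2 - (T : ℂ) * δ + (R : ℂ) = 0) : IsAlgebraic ℚ κ := by
  refine ⟨(Polynomial.X ^ 2 - Polynomial.X) ^ 2 + Polynomial.C T * (Polynomial.X ^ 2 - Polynomial.X)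
    + Polynomial.C R, ?_, ?_⟩
  · intro h0
    have e0 := congrArg (Polynomial.eval 0) h0
    have e2 := congrArg (Polynomial.eval 2) h0
    have e3 := congrArg (Polynomial.eval 3) h0
    simp only [Polynomial.eval_add, Polynomial.eval_mul, Polynomial.eval_sub, Polynomial.eval_pow,
      Polynomial.eval_X, Polynomial.eval_C, Polynomial.eval_zero] at e0 e2 e3
    norm_num at e0 e2 e3
    linarith
  · simp only [map_add, map_mul, map_sub, map_pow, Polynomial.aeval_X, Polynomial.aeval_C]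
    have e1 : κ ^ 2 - κ = -δ := by rw [hk]; ring
    rw [e1]
    have e2 : (algebraMap ℚ ℂ) T = (T : ℂ) := rfl
    have e3 : (algebraMap ℚ ℂ) R = (R : ℂ) := rfl
    rw [e2, e3]
    linear_combination hd

private theorem Hyp_norm {z : ℂ} (hz : IsAlgebraic ℚ z) : IsAlgebraic ℚ ‖z‖ := by
  have h1 : IsAlgebraic ℚ ((starRingEnd ℂ) z) := by
    have h := hz.algHom (Complex.conjAe.toAlgHom.restrictScalars ℚ)
    exact h
  have h2 : IsAlgebraic ℚ ((‖z‖ ^ 2 : ℝ) : ℂ) := by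
    rw [← Hyp_conj]
    exact hz.mul h1
  have h3 : IsAlgebraic ℚ (‖z‖ ^ 2) := by
    have h4 : IsAlgebraic ℚ (algebraMap ℝ ℂ (‖z‖ ^ 2)) := h2
    exact (isAlgebraic_algebraMap_iff (algebraMap ℝ ℂ).injective).1 h4
  exact h3.of_pow (by norm_num)

theorem hyp {L : ℕ → ℂ} {δ κ₁ κ₂ α β : ℂ} (h1 : κ₁ + κ₂ = 1) (h2 : κ₁ * κ₂ = δ) (hδ : δ ≠ 0)
    (hlt : ‖κ₁‖ < ‖κ₂‖) (hδ1 : ∃ q : ℚ, ‖δ‖ = q) (hδ2 : ∃ q : ℚ, ‖1 - δ‖ = q)
    (hL : ∀ n, L n = α * κ₁ ^ n + β * κ₂ ^ n) (hβ : β ≠ 0) (hr : ∀ n, ∃ r : ℚ, ‖L n‖ = r) :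
    (α / β).im = 0 := by
  have hk2 : κ₂ ≠ 0 := by
    intro h
    rw [h, norm_zero] at hlt
    exact absurd hlt (not_lt.2 (norm_nonneg _))
  have hk1 : κ₁ ≠ 0 := by
    intro h
    rw [h, zero_mul] at h2
    exact hδ h2.symm
  have hk2' : (0 : ℝ) < ‖κ₂‖ := norm_pos_iff.2 hk2
  obtain ⟨q1, hq1⟩ := hδ1
  obtain ⟨q2, hq2⟩ := hδ2
  have hR : δ * (starRingEnd ℂ) δ = ((q1 ^ 2 : ℚ) : ℂ) := by
    rw [Hyp_conj, hq1]
    push_cast
    ring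
  have hT : δ + (starRingEnd ℂ) δ = ((1 + q1 ^ 2 - q2 ^ 2 : ℚ) : ℂ) := by
    have h3 := Hyp_conj (1 - δ)
    rw [hq2, map_sub, map_one] at h3
    push_cast at h3 hR ⊢
    linear_combination hR - h3
  have hrec : ∀ n, L (n + 2) = L (n + 1) - δ * L n := by
    intro n
    rw [hL, hL, hL, ← h2]
    have e1 : κ₁ = 1 - κ₂ := by rw [← h1]; ring
    rw [e1]
    ring
  choose s hs using hr
  obtain ⟨N, D, hN, hD, hint⟩ := seq_int hrec hT hR hs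
  have hs1 : κ₁ ^ 2 = κ₁ - δ := by
    have e2 : κ₂ = 1 - κ₁ := by rw [← h1]; ring
    rw [← h2, e2]
    ring
  have hs2 : κ₂ ^ 2 = κ₂ - δ := by
    have e1 : κ₁ = 1 - κ₂ := by rw [← h1]; ring
    rw [← h2, e1]
    ring
  have hd : δ ^ 2 - ((1 + q1 ^ 2 - q2 ^ 2 : ℚ) : ℂ) * δ + ((q1 ^ 2 : ℚ) : ℂ) = 0 := by
    rw [← hT, ← hR]
    ring
  have ha1 : IsAlgebraic ℚ κ₁ := Hyp_alg hs1 hd
  have ha2 : IsAlgebraic ℚ κ₂ := Hyp_alg hs2 hd
  have hfin := cx_core (lam := κ₁ / κ₂) (a := -α / β) (V := ‖κ₂‖) (κ := ‖β‖)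
    (div_ne_zero hk1 hk2) (by rw [norm_div, div_lt_one hk2']; exact hlt)
    (by rw [div_eq_mul_inv]; exact ha1.mul ha2.inv) hk2' (Hyp_norm ha2) (norm_pos_iff.2 hβ)
    (s := s) (fun n => by
      rw [← hs n, hL n, ← norm_pow, ← norm_mul, ← norm_mul]
      congr 1
      rw [div_pow]
      have e3 : κ₂ ^ n ≠ 0 := pow_ne_zero n hk2
      field_simp
      ring) hN hD hint 0
  rw [pow_zero, mul_one, neg_div, Complex.neg_im, neg_eq_zero] at hfin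
  exact hfin

end Pool.Agent.H63.MO
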