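import Pool.Agent.H20.RO.Cat
import Pool.Agent.H20.RO.PRoot

/-!
# Module Kp: the p-adic complex numbers

PROOF. `p, z` from `p_root` (H20/RO/PRoot); `K = ℂ_[p]` (`PadicComplex p`, Mathlib:
NumberTheory/Padics/Complex; instances `NormedField`, `CompleteSpace`, `IsAlgClosed`; characteristic
zero because it is a normed algebra over `ℚ_[p]`, `algebraRat.charZero` or
`charZero_of_injective_algebraMap`).  The norm extends the one of `ℚ_[p]` (`norm_extends'`), so for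
an integer `k ≠ 0`: `‖(k : K)‖ = ‖(k : ℚ_[p])‖`, which is `p ^ (-v)`, `p ^ v ∣ k`, and
`1 ≤ |k| ‖k‖` (there is a private lemma for `ℚ_[p]` in H20/RO/PMain); `‖ee n‖ ≤ 4 ^ n`: `he_padic`.
The root `z` is mapped to `K`.
-/

set_option autoImplicit false

open Finset Pool.Agent.H20.RO

namespace Pool.Agent.H63.MO

/-- an integer `k ≠ 0` satisfies `1 ≤ |k| ‖k‖` -/
private theorem kp_int {p : ℕ} [hp : Fact p.Prime] {k : ℤ} (hk : k ≠ 0) :
    1 ≤ |(k : ℝ)| * ‖(k : ℚ_[p])‖ := by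
  have h1 : ‖(k : ℚ_[p])‖ = ((p : ℝ) ^ (padicValInt p k))⁻¹ := by
    have h2 : ‖(((k : ℚ)) : ℚ_[p])‖ = ((padicNorm p (k : ℚ) : ℚ) : ℝ) := Padic.eq_padicNorm _
    have h3 : (((k : ℚ)) : ℚ_[p]) = (k : ℚ_[p]) := by push_cast; rfl
    rw [h3] at h2
    rw [h2, padicNorm.eq_zpow_of_nonzero (by exact_mod_cast hk), padicValRat.of_int]
    push_cast
    rw [zpow_neg, zpow_natCast]
  have hpos : (0 : ℝ) < (p : ℝ) ^ (padicValInt p k) := by
    have := hp.out.pos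
    positivity
  rw [h1, ← div_eq_mul_inv, le_div_iff₀ hpos, one_mul]
  have h4 : ((p : ℤ) ^ (padicValInt p k)) ∣ k := padicValInt_dvd k
  have h5 : ((p : ℤ) ^ (padicValInt p k)) ≤ |k| := Int.le_of_dvd (abs_pos.2 hk) ((dvd_abs _ _).2 h4)
  have h6 : (((p : ℤ) ^ (padicValInt p k) : ℤ) : ℝ) ≤ ((|k| : ℤ) : ℝ) := by exact_mod_cast h5
  push_cast at h6
  exact h6

theorem kp {t : ℚ} (ht : t.den ≠ 1) :
    ∃ (K : Type) (_ : NormedField K) (_ : CompleteSpace K) (_ : CharZero K) (_ : IsAlgClosed K),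
      (∀ k : ℤ, k ≠ 0 → 1 ≤ |(k : ℝ)| * ‖(k : K)‖) ∧ (∀ n, ‖(ee n : K)‖ ≤ 4 ^ n) ∧
      ∃ z : K, z ≠ 0 ∧ ‖z‖ < 1 ∧ z ^ 2 - ((t : ℚ) : K) * z + 1 = 0 := by
  obtain ⟨p, hp, z, hz0, hz1, hz⟩ := p_root ht
  have hn : ∀ k : ℤ, ‖(k : ℂ_[p])‖ = ‖(k : ℚ_[p])‖ := by
    intro k
    rw [← map_intCast (algebraMap ℚ_[p] ℂ_[p]) k]
    exact norm_algebraMap' ℂ_[p] (k : ℚ_[p])
  refine ⟨ℂ_[p], inferInstance, inferInstance, inferInstance, inferInstance, ?_, ?_,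
    algebraMap ℚ_[p] ℂ_[p] z, ?_, ?_, ?_⟩
  · intro k hk
    rw [hn]
    exact kp_int hk
  · intro n
    rw [hn]
    exact he_padic p n
  · exact (map_ne_zero_iff _ (algebraMap ℚ_[p] ℂ_[p]).injective).2 hz0
  · rw [norm_algebraMap' ℂ_[p] z]
    exact hz1
  · have h := congrArg (algebraMap ℚ_[p] ℂ_[p]) hz
    rw [map_add, map_sub, map_mul, map_pow, map_one, map_zero, map_ratCast] at h
    exact h

end Pool.Agent.H63.MO
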