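import Pool.Agent.H20.RO.App
import Pool.Agent.H20.RO.Tr

/-!
# Module Par: arithmetic progressions with rational distances to the origin

PROOF. `s n = ‖α + n β‖` (rational), `s n ^ 2 = A n² + B n + C`,
`A = ‖β‖²`, `B = 2 Re (α β̄)`, `C = ‖α‖²`.  `A, B, C` are rational (values at `0, 1, 2`).  Let
`N > 0` be an integer with `N A, N B, N C` integers: `(N s n)²` is an integer, so `m n = N s n` is an
integer (`int_of_sq`).  `m (n+1) - m n` is nondecreasing (`2 (α + (n+1) β)` is the sum of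
`α + n β` and `α + (n+2) β`) and at most `N ‖β‖`, so it is constant for large `n`, and
`N² (A n² + B n + C)` is the square of a linear polynomial: `B² = 4 A C`, `Im (α β̄)² = 0`.
-/

set_option autoImplicit false

open Finset Filter Topology Pool.Agent.H20.RO

namespace Pool.Agent.H63.MO

private theorem Par_den (q : ℚ) (m : ℤ) : ∃ k : ℤ, (((q.den : ℤ) * m : ℤ) : ℚ) * q = k := by
  refine ⟨m * q.num, ?_⟩
  have h := Rat.mul_den_eq_num q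
  push_cast
  calc (q.den : ℚ) * (m : ℚ) * q = (m : ℚ) * (q * (q.den : ℚ)) := by ring
    _ = (m : ℚ) * (q.num : ℚ) := by rw [h]

/-- a nondecreasing bounded sequence of integers is eventually constant -/
private theorem Par_const {d : ℕ → ℤ} (hmono : ∀ n, d n ≤ d (n + 1)) {K : ℤ}
    (hK : ∀ n, d n ≤ K) : ∃ n₀, ∀ n ≥ n₀, d n = d n₀ := by
  have hm : Monotone d := monotone_nat_of_le_succ hmono
  obtain ⟨M, ⟨n₀, h0⟩, hmax⟩ := Int.exists_greatest_of_bdd (P := fun z => ∃ n, d n = z)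
    ⟨K, fun z hz => by obtain ⟨n, hn⟩ := hz; rw [← hn]; exact hK n⟩ ⟨d 0, 0, rfl⟩
  refine ⟨n₀, fun n hn => le_antisymm ?_ (hm hn)⟩
  rw [h0]
  exact hmax _ ⟨n, rfl⟩

private theorem Par_quad {a b c : ℝ} {m d : ℝ} {n₀ : ℝ}
    (h : ∀ j : ℕ, (m + j * d) ^ 2 = a * (n₀ + j) ^ 2 + b * (n₀ + j) + c) : b ^ 2 = 4 * a * c := by
  have h0 := h 0
  have h1 := h 1
  have h2 := h 2
  push_cast at h0 h1 h2
  have ha : a = d ^ 2 := by linear_combination (-1 / 2 : ℝ) * h0 + h1 - (1 / 2 : ℝ) * h2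
  have hb : b = 2 * d * (m - d * n₀) := by
    rw [ha] at h0 h1
    linear_combination h0 - h1
  have hc : c = (m - d * n₀) ^ 2 := by
    rw [ha, hb] at h0
    linear_combination (-1 : ℝ) * h0
  rw [ha, hb, hc]
  ring

theorem par_core {α β : ℂ} (h : ∀ n : ℕ, ∃ r : ℚ, ‖α + n * β‖ = r) :
    (α * (starRingEnd ℂ) β).im = 0 := by
  choose s hs using h
  have hsq : ∀ n : ℕ, ((s n : ℚ) : ℝ) ^ 2 =
      ‖β‖ ^ 2 * n ^ 2 + 2 * (α * (starRingEnd ℂ) β).re * n + ‖α‖ ^ 2 := by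
    intro n
    rw [← hs n, Complex.sq_norm, Complex.sq_norm, Complex.sq_norm, Complex.normSq_apply,
      Complex.normSq_apply, Complex.normSq_apply]
    simp
    ring
  obtain ⟨A, hA⟩ : ∃ A : ℚ, A = (s 2 ^ 2 - 2 * s 1 ^ 2 + s 0 ^ 2) / 2 := ⟨_, rfl⟩
  obtain ⟨C, hC⟩ : ∃ C : ℚ, C = s 0 ^ 2 := ⟨_, rfl⟩
  obtain ⟨B, hB⟩ : ∃ B : ℚ, B = s 1 ^ 2 - s 0 ^ 2 - A := ⟨_, rfl⟩
  have q0 := hsq 0
  have q1 := hsq 1
  have q2 := hsq 2
  push_cast at q0 q1 q2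
  have hAr : ((A : ℚ) : ℝ) = ‖β‖ ^ 2 := by
    rw [hA]; push_cast
    rw [q0, q1, q2]; ring
  have hCr : ((C : ℚ) : ℝ) = ‖α‖ ^ 2 := by
    rw [hC]; push_cast
    rw [q0]; ring
  have hBr : ((B : ℚ) : ℝ) = 2 * (α * (starRingEnd ℂ) β).re := by
    rw [hB]; push_cast
    rw [q0, q1, hAr]; ring
  have hq : ∀ n : ℕ, s n ^ 2 = A * n ^ 2 + B * n + C := by
    intro n
    have h1 := hsq n
    rw [← hAr, ← hBr, ← hCr] at h1
    exact_mod_cast h1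
  -- denominators
  obtain ⟨N, hN⟩ : ∃ N : ℤ, N = (A.den : ℤ) * ((B.den : ℤ) * (C.den : ℤ)) := ⟨_, rfl⟩
  have hN0 : 0 < N := by
    rw [hN]
    have h1 : (0 : ℤ) < A.den := by exact_mod_cast A.pos
    have h2 : (0 : ℤ) < B.den := by exact_mod_cast B.pos
    have h3 : (0 : ℤ) < C.den := by exact_mod_cast C.pos
    positivity
  obtain ⟨a, ha⟩ : ∃ k : ℤ, (N : ℚ) * A = k := by
    rw [hN]
    exact Par_den A _
  obtain ⟨b, hb⟩ : ∃ k : ℤ, (N : ℚ) * B = k := by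
    have e : N = (B.den : ℤ) * ((A.den : ℤ) * (C.den : ℤ)) := by rw [hN]; ring
    rw [e]
    exact Par_den B _
  obtain ⟨c, hc⟩ : ∃ k : ℤ, (N : ℚ) * C = k := by
    have e : N = (C.den : ℤ) * ((A.den : ℤ) * (B.den : ℤ)) := by rw [hN]; ring
    rw [e]
    exact Par_den C _
  have hm : ∀ n : ℕ, ∃ k : ℤ, (N : ℚ) * s n = k := by
    intro n
    apply int_of_sq (k := N * (a * n ^ 2 + b * n + c))
    push_cast
    rw [← ha, ← hb, ← hc, mul_pow, hq n]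
    ring
  choose m hm using hm
  have hmr : ∀ n : ℕ, ((m n : ℤ) : ℝ) = N * ‖α + n * β‖ := by
    intro n
    rw [hs n]
    have := hm n
    have h2 : (((N : ℚ) * s n : ℚ) : ℝ) = ((m n : ℚ) : ℝ) := by rw [this]
    push_cast at h2
    exact h2.symm
  have hNr : (0 : ℝ) < N := by exact_mod_cast hN0
  have hmono : ∀ n, m (n + 1) - m n ≤ m (n + 1 + 1) - m (n + 1) := by
    intro n
    have h1 : (m (n + 1) : ℝ) + m (n + 1) ≤ m (n + 1 + 1) + m n := by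
      rw [hmr, hmr, hmr]
      have h2 : ‖(α + ((n + 1 : ℕ) : ℂ) * β) + (α + ((n + 1 : ℕ) : ℂ) * β)‖ ≤
          ‖α + ((n + 1 + 1 : ℕ) : ℂ) * β‖ + ‖α + (n : ℂ) * β‖ := by
        have e : (α + ((n + 1 : ℕ) : ℂ) * β) + (α + ((n + 1 : ℕ) : ℂ) * β) =
            (α + ((n + 1 + 1 : ℕ) : ℂ) * β) + (α + (n : ℂ) * β) := by
          push_cast; ring
        rw [e]
        exact norm_add_le _ _
      have h3 : ‖(α + ((n + 1 : ℕ) : ℂ) * β) + (α + ((n + 1 : ℕ) : ℂ) * β)‖ =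
          2 * ‖α + ((n + 1 : ℕ) : ℂ) * β‖ := by
        rw [← two_mul, norm_mul]; simp
      rw [h3] at h2
      nlinarith
    have h4 : m (n + 1) + m (n + 1) ≤ m (n + 1 + 1) + m n := by exact_mod_cast h1
    linarith
  have hbd : ∀ n, m (n + 1) - m n ≤ ⌈(N : ℝ) * ‖β‖⌉ := by
    intro n
    have h1 : ((m (n + 1) - m n : ℤ) : ℝ) ≤ (N : ℝ) * ‖β‖ := by
      push_cast
      rw [hmr, hmr]
      have h2 : ‖α + ((n + 1 : ℕ) : ℂ) * β‖ ≤ ‖α + (n : ℂ) * β‖ + ‖β‖ := by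
        have e : α + ((n + 1 : ℕ) : ℂ) * β = (α + (n : ℂ) * β) + β := by push_cast; ring
        rw [e]
        exact norm_add_le _ _
      nlinarith
    have h3 : ((m (n + 1) - m n : ℤ) : ℝ) ≤ ((⌈(N : ℝ) * ‖β‖⌉ : ℤ) : ℝ) := h1.trans (Int.le_ceil _)
    exact_mod_cast h3
  obtain ⟨n₀, hn₀⟩ := Par_const (d := fun n => m (n + 1) - m n) hmono hbd
  have hlin : ∀ j : ℕ, m (n₀ + j) = m n₀ + j * (m (n₀ + 1) - m n₀) := by
    intro j
    induction j with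
    | zero => simp
    | succ j ih =>
      have h1 := hn₀ (n₀ + j) (Nat.le_add_right _ _)
      have h2 : m (n₀ + (j + 1)) = m (n₀ + j + 1) := rfl
      rw [h2]
      push_cast
      linarith
  have hfin := Par_quad (a := (N : ℝ) ^ 2 * ‖β‖ ^ 2)
    (b := (N : ℝ) ^ 2 * (2 * (α * (starRingEnd ℂ) β).re)) (c := (N : ℝ) ^ 2 * ‖α‖ ^ 2)
    (m := (m n₀ : ℝ)) (d := ((m (n₀ + 1) - m n₀ : ℤ) : ℝ)) (n₀ := (n₀ : ℝ)) (fun j => by
      have h1 : (((m n₀ : ℤ) : ℝ) + (j : ℝ) * ((m (n₀ + 1) - m n₀ : ℤ) : ℝ)) =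
          ((m (n₀ + j) : ℤ) : ℝ) := by
        rw [hlin j]; push_cast; ring
      rw [h1, hmr, hs, mul_pow, hsq]
      push_cast
      ring)
  have hN4 : (0 : ℝ) < (N : ℝ) ^ 4 := by positivity
  have h5 : (α * (starRingEnd ℂ) β).re ^ 2 = ‖β‖ ^ 2 * ‖α‖ ^ 2 := by
    have h6 : (N : ℝ) ^ 4 * (α * (starRingEnd ℂ) β).re ^ 2 =
        (N : ℝ) ^ 4 * (‖β‖ ^ 2 * ‖α‖ ^ 2) := by linear_combination (1 / 4 : ℝ) * hfin
    exact mul_left_cancel₀ hN4.ne' h6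
  have h7 : ‖α * (starRingEnd ℂ) β‖ ^ 2 =
      (α * (starRingEnd ℂ) β).re ^ 2 + (α * (starRingEnd ℂ) β).im ^ 2 := by
    rw [Complex.sq_norm, Complex.normSq_apply]; ring
  rw [norm_mul, RCLike.norm_conj, mul_pow, h5] at h7
  have h8 : (α * (starRingEnd ℂ) β).im ^ 2 = 0 := by linarith
  exact pow_eq_zero_iff (two_ne_zero) |>.mp h8

end Pool.Agent.H63.MO
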