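import Pool.Agent.H63.MO.Rat
import Pool.Agent.H63.MO.Gc
import Pool.Agent.H63.MO.Fix
import Pool.Agent.H63.MO.Hyp
import Pool.Agent.H63.MO.Elc
import Pool.Agent.H63.MO.Par

/-!
# Module MainC: Möbius maps that are not affine

PROOF. `t = a + d`.  `t ≠ 0`: otherwise `two0` gives `z 2 = z 0`.  `δ = (a d - b c) / t² ≠ 0`.
`κ₁ + κ₂ = 1`, `κ₁ κ₂ = δ` exist (`IsAlgClosed`: root of `X² - X + δ`), `‖κ₁‖ ≤ ‖κ₂‖` after an
exchange.  `f₁, f₂` as in `fix_iff`.  `z 0` is not a fixed point (otherwise `z 1 = z 0`), so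
`z 0 ≠ f₁, f₂`.  `rat_del`, `rat_L` apply (`dist` rational by `hS`).  Fix `w ∈ S`; `L n = L a c d z w n`.
* `κ₁ ≠ κ₂`: `L_exp`, `L_fix` (for both orders): `L n = α κ₁ ^ n + β κ₂ ^ n`,
  `α = c (z_0 - f₂) (f₁ - w) / (t (κ₁ - κ₂))`, `β = - c (z_0 - f₁) (f₂ - w) / (t (κ₁ - κ₂))`,
  `f₁ ≠ f₂`.
  - `‖κ₁‖ < ‖κ₂‖`: if `w ≠ f₂` then `β ≠ 0` and by `hyp` `α / β = - x (f₁ - w) / (f₂ - w)` is real,
    `x = (z_0 - f₂) / (z_0 - f₁) ≠ 0`; so `Im (x (f₁ - w) conj (f₂ - w)) = 0` for all `w ∈ S`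
    (also for `w = f₂`); `gc_im`.
  - `‖κ₁‖ = ‖κ₂‖`: `κ₁ ^ n ≠ κ₂ ^ n` for `n ≥ 1`: for `w = z 0`, `L 0 = 0`, so `β = - α`,
    `L n = α (κ₁ ^ n - κ₂ ^ n)`, but `L n = J n (z n - z 0) / t ^ n ≠ 0` (`hinj`, `J_ne`).  For
    `w ∈ S` not fixed: `α, β ≠ 0`, so by `ell` `‖α‖ = ‖β‖`:
    `‖z_0 - f₂‖ ‖w - f₁‖ = ‖z_0 - f₁‖ ‖w - f₂‖`; `gc_apo`.
* `κ₁ = κ₂ = 1/2`, `δ = 1/4`, `f = f₁ = f₂`: `L_par`, `2 L 1 - L 0 = 2 c (z_0 - f) (f - w) / t`
  (`L_fix`); `2 ^ n ‖L n‖ = ‖α + n β‖` with `α = z_0 - w`, `β = 2 c (z_0 - f) (f - w) / t` is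
  rational; `par_core`: `Im (α β̄) = 0`, that is `Im (x̄ (z_0 - w) conj (f - w)) = 0`,
  `x = 2 c (z_0 - f) / t`; `gc_im` with `f := z_0`, `g := f`.
-/

set_option autoImplicit false

open Finset Pool.Agent.H20.RO

namespace Pool.Agent.H63.MO

private theorem MainC_line {S T : Set ℂ} (h : T ⊆ S) (hS : OnLine S ∨ OnCirc S) :
    OnLine T ∨ OnCirc T := by
  rcases hS with ⟨p, v, hv, h1⟩ | ⟨c, r, hr, h1⟩
  · exact Or.inl ⟨p, v, hv, fun z hz => h1 z (h hz)⟩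
  · exact Or.inr ⟨c, r, hr, fun z hz => h1 z (h hz)⟩

/-- The two characteristic numbers. -/
private theorem MainC_kap (δ : ℂ) : ∃ κ₁ κ₂ : ℂ, κ₁ + κ₂ = 1 ∧ κ₁ * κ₂ = δ ∧ ‖κ₁‖ ≤ ‖κ₂‖ := by
  obtain ⟨r, hr⟩ := IsAlgClosed.exists_pow_nat_eq (1 - 4 * δ) (n := 2) (by norm_num)
  rcases le_total ‖(1 + r) / 2‖ ‖(1 - r) / 2‖ with h | h
  · exact ⟨(1 + r) / 2, (1 - r) / 2, by ring, by linear_combination (-1 / 4) * hr, h⟩
  · exact ⟨(1 - r) / 2, (1 + r) / 2, by ring, by linear_combination (-1 / 4) * hr, h⟩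

private theorem MainC_im {q u v : ℂ} (h : q.im = 0) (huv : u = q * v) :
    (u * (starRingEnd ℂ) v).im = 0 := by
  rw [huv, mul_assoc, Complex.mul_conj]
  simp [Complex.mul_im, h]

theorem main_c {S : Set ℂ} (hS : RatDist S) {a b c d : ℂ} (hD : a * d - b * c ≠ 0) (hc : c ≠ 0)
    {z : ℕ → ℂ} (hz : ∀ n, z n ∈ S) (h : ∀ n, Mob a b c d (z n) (z (n + 1)))
    (hinj : Function.Injective z) :
    OnLine (S \ {f | f * (c * f + d) = a * f + b}) ∨
      OnCirc (S \ {f | f * (c * f + d) = a * f + b}) := by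
  have hr : ∀ n m, ∃ r : ℚ, dist (z n) (z m) = r := fun n m => hS _ (hz n) _ (hz m)
  have h01 : z 1 ≠ z 0 := fun e => by simpa using hinj e
  have h02 : z 2 ≠ z 0 := fun e => by simpa using hinj e
  have ht : a + d ≠ 0 := by
    intro h0
    have h1 := two0 h
    rw [h0, mul_zero] at h1
    rcases mul_eq_zero.1 h1 with h2 | h2
    · exact J_ne h 2 h2
    · exact h02 (sub_eq_zero.1 h2)
  set δ : ℂ := (a * d - b * c) / (a + d) ^ 2 with hδ
  have hδ0 : δ ≠ 0 := div_ne_zero hD (pow_ne_zero 2 ht)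
  obtain ⟨hδ1, hδ2⟩ := rat_del h hD ht h01 hr
  obtain ⟨κ₁, κ₂, hs, hp, hle⟩ := MainC_kap δ
  have hs' : κ₂ + κ₁ = 1 := by rw [add_comm]; exact hs
  have hp' : κ₂ * κ₁ = δ := by rw [mul_comm]; exact hp
  set f₁ : ℂ := ((a + d) * κ₁ - d) / c with hf₁
  set f₂ : ℂ := ((a + d) * κ₂ - d) / c with hf₂
  have hfix : ∀ f : ℂ, f * (c * f + d) = a * f + b ↔ f = f₁ ∨ f = f₂ := fix_iff hc ht hs hp
  have hz0 : ¬ z 0 * (c * z 0 + d) = a * z 0 + b := by
    intro h0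
    obtain ⟨h1, h2⟩ := h 0
    rw [← h0, mul_div_cancel_right₀ _ h1] at h2
    exact h01 h2
  have hz1 : z 0 ≠ f₁ := fun e => hz0 ((hfix _).2 (Or.inl e))
  have hz2 : z 0 ≠ f₂ := fun e => hz0 ((hfix _).2 (Or.inr e))
  have hsub : S \ {f | f * (c * f + d) = a * f + b} ⊆ S := Set.sdiff_subset
  have hLr : ∀ w ∈ S, ∀ n, ∃ r : ℚ, ‖L a c d z w n‖ = r := fun w hw n =>
    rat_L h hD ht h01 hr (fun m => hS _ (hz m) _ hw) n
  have hF1 : ∀ w, L a c d z w 1 - κ₂ * L a c d z w 0 = c * (z 0 - f₂) * (f₁ - w) / (a + d) :=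
    fun w => L_fix h hc ht hs hp w
  have hF2 : ∀ w, L a c d z w 1 - κ₁ * L a c d z w 0 = c * (z 0 - f₁) * (f₂ - w) / (a + d) :=
    fun w => L_fix h hc ht hs' hp' w
  by_cases hκ : κ₁ = κ₂
  · -- the parabolic case
    have hk : κ₂ = 1 / 2 := by
      rw [hκ] at hs
      linear_combination (1 / 2) * hs
    have hδ4 : δ = 1 / 4 := by
      rw [← hp, hκ, hk]
      norm_num
    have hff : f₁ = f₂ := by rw [hf₁, hf₂, hκ]
    have hx : 2 * c * (z 0 - f₂) / (a + d) ≠ 0 :=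
      div_ne_zero (mul_ne_zero (mul_ne_zero two_ne_zero hc) (sub_ne_zero.2 hz2)) ht
    refine MainC_line hsub (gc_im (x := (starRingEnd ℂ) (2 * c * (z 0 - f₂) / (a + d)))
      (f := z 0) (g := f₂) ?_ hz2 fun w hw => ?_)
    · exact (map_ne_zero _).2 hx
    · have hrec : ∀ n, L a c d z w (n + 2) = L a c d z w (n + 1) - 1 / 4 * L a c d z w n := by
        intro n
        have h1 := L_rec h ht w n
        rw [← hδ, hδ4] at h1
        exact h1
      have h2 := L_par hrec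
      have h3 : 2 * L a c d z w 1 - L a c d z w 0 = 2 * c * (z 0 - f₂) / (a + d) * (f₂ - w) := by
        have h4 := hF1 w
        rw [hff, hk] at h4
        linear_combination 2 * h4
      have h5 := par_core (α := z 0 - w) (β := 2 * c * (z 0 - f₂) / (a + d) * (f₂ - w)) (by
        intro n
        obtain ⟨r, hr1⟩ := hLr w hw n
        refine ⟨2 ^ n * r, ?_⟩
        have h6 := h2 n
        rw [L_zero, ← L_zero a c d z w, h3] at h6
        have h7 : z 0 - w + n * (2 * c * (z 0 - f₂) / (a + d) * (f₂ - w)) =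
            2 ^ n * L a c d z w n := by
          have e : (2 : ℂ) ^ n * (1 / 2) ^ n = 1 := by
            rw [← mul_pow]
            norm_num
          rw [h6, L_zero]
          linear_combination
            (-(z 0 - w + n * (2 * c * (z 0 - f₂) / (a + d) * (f₂ - w)))) * e
        rw [h7, norm_mul, norm_pow, hr1]
        push_cast
        norm_num)
      rw [map_mul] at h5
      rw [← h5]
      congr 1
      ring
  · have hκ' : κ₁ - κ₂ ≠ 0 := sub_ne_zero.2 hκ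
    have hff : f₁ ≠ f₂ := by
      intro e
      rw [hf₁, hf₂, div_left_inj' hc, sub_left_inj] at e
      exact hκ (mul_left_cancel₀ ht e)
    have hLn : ∀ w n, L a c d z w n =
        (c * (z 0 - f₂) * (f₁ - w) / (a + d)) / (κ₁ - κ₂) * κ₁ ^ n +
          -((c * (z 0 - f₁) * (f₂ - w) / (a + d)) / (κ₁ - κ₂)) * κ₂ ^ n := by
      intro w n
      have h1 := L_exp hs hp hκ (fun m => L_rec h ht w m) n
      rw [hF1, hF2] at h1
      exact h1
    rcases lt_or_eq_of_le hle with hlt | heq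
    · -- the loxodromic case
      refine MainC_line hsub (gc_im (x := (z 0 - f₂) / (z 0 - f₁)) (f := f₁) (g := f₂) ?_ hff
        fun w hw => ?_)
      · exact div_ne_zero (sub_ne_zero.2 hz2) (sub_ne_zero.2 hz1)
      · by_cases hw2 : w = f₂
        · rw [hw2]
          simp
        · have hw2' : f₂ - w ≠ 0 := sub_ne_zero.2 (Ne.symm hw2)
          have hz1' : z 0 - f₁ ≠ 0 := sub_ne_zero.2 hz1
          have hβ : -((c * (z 0 - f₁) * (f₂ - w) / (a + d)) / (κ₁ - κ₂)) ≠ 0 :=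
            neg_ne_zero.2 (div_ne_zero (div_ne_zero (mul_ne_zero (mul_ne_zero hc hz1') hw2') ht) hκ')
          have h1 := hyp hs hp hδ0 hlt hδ1 hδ2 (hLn w) hβ (hLr w hw)
          refine MainC_im (q := -((c * (z 0 - f₂) * (f₁ - w) / (a + d)) / (κ₁ - κ₂) /
            -((c * (z 0 - f₁) * (f₂ - w) / (a + d)) / (κ₁ - κ₂)))) ?_ ?_
          · rw [Complex.neg_im, h1, neg_zero]
          · field_simp
    · -- the elliptic case
      have hno : ∀ n : ℕ, 1 ≤ n → κ₁ ^ n ≠ κ₂ ^ n := by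
        intro n hn e
        have h1 := L_exp hs hp hκ (fun m => L_rec h ht (z 0) m) n
        rw [L_zero, sub_self, mul_zero, mul_zero, sub_zero, e] at h1
        have h2 : L a c d z (z 0) n = 0 := by rw [h1]; ring
        unfold L at h2
        rcases div_eq_zero_iff.1 h2 with h3 | h3
        · rcases mul_eq_zero.1 h3 with h4 | h4
          · exact J_ne h n h4
          · have h5 := hinj (sub_eq_zero.1 h4)
            omega
        · exact pow_ne_zero n ht h3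
      refine gc_apo (r := ‖z 0 - f₂‖) (s := ‖z 0 - f₁‖) (norm_pos_iff.2 (sub_ne_zero.2 hz2))
        (norm_pos_iff.2 (sub_ne_zero.2 hz1)) hff fun w hw => ?_
      have hwS : w ∈ S := hw.1
      have hwf : ¬ (w = f₁ ∨ w = f₂) := fun e => hw.2 ((hfix w).2 e)
      rw [not_or] at hwf
      have hw1' : f₁ - w ≠ 0 := sub_ne_zero.2 (Ne.symm hwf.1)
      have hw2' : f₂ - w ≠ 0 := sub_ne_zero.2 (Ne.symm hwf.2)
      have hz1' : z 0 - f₁ ≠ 0 := sub_ne_zero.2 hz1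
      have hz2' : z 0 - f₂ ≠ 0 := sub_ne_zero.2 hz2
      have h1 := ell hs hp hδ0 heq hno hδ1 (hLn w) (hLr w hwS)
      rcases h1 with h1 | h1 | h1
      · exact absurd h1 (div_ne_zero (div_ne_zero (mul_ne_zero (mul_ne_zero hc hz2') hw1') ht) hκ')
      · exact absurd h1 (neg_ne_zero.2
          (div_ne_zero (div_ne_zero (mul_ne_zero (mul_ne_zero hc hz1') hw2') ht) hκ'))
      · rw [norm_neg] at h1
        simp only [norm_div, norm_mul] at h1
        have hc1 : 0 < ‖c‖ := norm_pos_iff.2 hc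
        have ht1 : 0 < ‖a + d‖ := norm_pos_iff.2 ht
        have hk1 : 0 < ‖κ₁ - κ₂‖ := norm_pos_iff.2 hκ'
        rw [norm_sub_rev w f₁, norm_sub_rev w f₂]
        field_simp at h1
        linarith

end Pool.Agent.H63.MO
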