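import Pool.Agent.H20.RO.Main
import Pool.Agent.H63.MO.Defs

/-!
# Module MainS: affine maps

This is `main_aff` of H20/RO/MainA with the circle case made precise (adapt its proof; all of
`translation`, `line_of_im`, `rotation`, `real_case`, `no_spiral` are public).

PROOF. `T u = a u + b`, `T^[n] z`.  As in `main_aff`: `a = 1`: `S` is on a line; `a ≠ 1`,
`f = b / (1 - a)` is the only point with `f = a f + b`; `‖a‖ = 1`: `‖w - f‖ = ‖z - f‖` for
`w ∈ S`, `w ≠ f` (`rotation`), so `S \ {f}` is on the circle with centre `f` and radius `‖z - f‖`;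
`‖a‖ ≠ 1`, `a` real: `S` is on a line (`real_case`); `‖a‖ ≠ 1`, `a` not real: impossible.  A subset
of a set on a line is on the same line.
-/

set_option autoImplicit false

open Finset Pool.Agent.H20.RO

namespace Pool.Agent.H63.MO

private theorem mainS_one (b z : ℂ) (n : ℕ) :
    (fun u : ℂ => (1 : ℂ) * u + b)^[n] z = z + n * b := by
  induction n with
  | zero => simp
  | succ n ih =>
    rw [Function.iterate_succ_apply', ih]
    push_cast
    ring

private theorem mainS_it {a b : ℂ} (ha : a ≠ 1) (z : ℂ) (n : ℕ) :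
    (fun u : ℂ => a * u + b)^[n] z = b / (1 - a) + a ^ n * (z - b / (1 - a)) := by
  have h : (1 : ℂ) - a ≠ 0 := sub_ne_zero.2 (Ne.symm ha)
  induction n with
  | zero => simp
  | succ n ih =>
    rw [Function.iterate_succ_apply', ih]
    field_simp
    ring

private theorem mainS_fin {α : Type*} (g : ℕ → α) (n : ℕ) (hn : 1 ≤ n)
    (h : ∀ k, g k = g (k % n)) : (Set.range g).Finite := by
  apply Set.Finite.subset ((Finset.range n).finite_toSet.image g)
  rintro _ ⟨k, rfl⟩
  refine ⟨k % n, ?_, (h k).symm⟩
  rw [Finset.mem_coe, Finset.mem_range]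
  exact Nat.mod_lt _ hn

theorem main_s {S : Set ℂ} (hS : RatDist S) {a b z : ℂ} (ha : a ≠ 0)
    (horb : ∀ n : ℕ, (fun u => a * u + b)^[n] z ∈ S)
    (hinf : (Set.range fun n : ℕ => (fun u => a * u + b)^[n] z).Infinite) :
    OnLine (S \ {f | f = a * f + b}) ∨ OnCirc (S \ {f | f = a * f + b}) := by
  by_cases h1 : a = 1
  · left
    subst h1
    have hb : b ≠ 0 := by
      intro hb
      apply hinf
      refine mainS_fin _ 1 (le_refl _) fun k => ?_
      show (fun u : ℂ => (1 : ℂ) * u + b)^[k] z = (fun u : ℂ => (1 : ℂ) * u + b)^[k % 1] z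
      rw [mainS_one, mainS_one, hb, mul_zero, mul_zero]
    have ho : ∀ n : ℕ, z + n * b ∈ S := by
      intro n
      have := horb n
      rwa [mainS_one] at this
    refine ⟨z, b, hb, fun w hw' => ?_⟩
    have hw := hw'.1
    apply line_of_im hb
    apply translation hb
    · obtain ⟨r, hr⟩ := hS _ (ho 1) _ (ho 0)
      refine ⟨r, ?_⟩
      rw [dist_eq_norm] at hr
      rw [← hr]
      congr 1
      push_cast
      ring
    · intro n
      obtain ⟨r, hr⟩ := hS _ (ho n) _ hw
      exact ⟨r, by rw [← hr, dist_eq_norm]⟩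
  · set f := b / (1 - a) with hf
    have ho : ∀ n : ℕ, f + a ^ n * (z - f) ∈ S := by
      intro n
      have := horb n
      rwa [mainS_it h1] at this
    have hzf : z - f ≠ 0 := by
      intro hc
      apply hinf
      refine mainS_fin _ 1 (le_refl _) fun k => ?_
      show (fun u : ℂ => a * u + b)^[k] z = (fun u : ℂ => a * u + b)^[k % 1] z
      rw [mainS_it h1, mainS_it h1, ← hf, hc, mul_zero, mul_zero]
    have hd : ∀ n m : ℕ, ∃ r : ℚ, ‖a ^ n * (z - f) - a ^ m * (z - f)‖ = r := by
      intro n m
      obtain ⟨r, hr⟩ := hS _ (ho n) _ (ho m)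
      refine ⟨r, ?_⟩
      rw [← hr, dist_eq_norm]
      congr 1
      ring
    by_cases hn : ‖a‖ = 1
    · right
      have hno : ∀ n : ℕ, 1 ≤ n → a ^ n ≠ 1 := by
        intro n hn1 hc
        apply hinf
        refine mainS_fin _ n hn1 fun k => ?_
        show (fun u : ℂ => a * u + b)^[k] z = (fun u : ℂ => a * u + b)^[k % n] z
        rw [mainS_it h1, mainS_it h1]
        have e : a ^ k = a ^ (k % n) := by
          conv_lhs => rw [← Nat.mod_add_div k n]
          rw [pow_add, pow_mul, hc, one_pow, mul_one]
        rw [e]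
      refine ⟨f, ‖z - f‖, norm_pos_iff.2 hzf, fun w hw' => ?_⟩
      have hw := hw'.1
      have hff : f = a * f + b := by
        have h : (1 : ℂ) - a ≠ 0 := sub_ne_zero.2 (Ne.symm h1)
        rw [hf]
        field_simp
        ring
      have hwf : w ≠ f := by
        intro hwf
        apply hw'.2
        show w = a * w + b
        rw [hwf]
        exact hff
      rw [dist_eq_norm]
      refine rotation hn hno hzf (sub_ne_zero.2 hwf) hd fun n => ?_
      obtain ⟨r, hr⟩ := hS _ (ho n) _ hw
      refine ⟨r, ?_⟩
      rw [← hr, dist_eq_norm]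
      congr 1
      ring
    · by_cases him : a.im = 0
      · left
        have hre : ((a.re : ℝ) : ℂ) = a := by
          apply Complex.ext <;> simp [him]
        have hna : |a.re| = ‖a‖ := by
          conv_rhs => rw [← hre]
          rw [Complex.norm_real, Real.norm_eq_abs]
        refine ⟨f, z - f, hzf, fun w hw' => ?_⟩
        refine real_case hS (lam := a.re) ?_ ?_ hzf ?_ w hw'.1
        · intro hc
          apply ha
          rw [← hre, hc]
          simp
        · rw [hna]
          exact hn
        · intro n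
          rw [hre]
          exact ho n
      · exfalso
        have hpos : 0 < ‖z - f‖ := norm_pos_iff.2 hzf
        have hk : ∀ k : ℕ, ∃ r : ℚ, ‖z - f‖ * ‖a ^ k - 1‖ = r := by
          intro k
          obtain ⟨r, hr⟩ := hd k 0
          refine ⟨r, ?_⟩
          rw [← hr, ← norm_mul]
          congr 1
          ring
        have hrat : ∃ r : ℚ, ‖a‖ = r := by
          obtain ⟨r1, hr1⟩ := hd 1 0
          obtain ⟨r2, hr2⟩ := hd 2 1
          have e : ‖a ^ 2 * (z - f) - a ^ 1 * (z - f)‖ =
              ‖a‖ * ‖a ^ 1 * (z - f) - a ^ 0 * (z - f)‖ := by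
            rw [← norm_mul]
            congr 1
            ring
          have hne : ‖a ^ 1 * (z - f) - a ^ 0 * (z - f)‖ ≠ 0 := by
            rw [norm_ne_zero_iff, ← sub_mul]
            refine mul_ne_zero ?_ hzf
            rw [pow_one, pow_zero]
            exact sub_ne_zero.2 h1
          refine ⟨r2 / r1, ?_⟩
          push_cast
          rw [← hr1, ← hr2, e, mul_div_assoc, div_self hne, mul_one]
        rcases lt_or_gt_of_ne hn with hlt | hgt
        · exact no_spiral him hlt hrat hpos hk
        · have ha' : a⁻¹.im ≠ 0 := by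
            rw [Complex.inv_im]
            refine div_ne_zero (neg_ne_zero.2 him) ?_
            rw [Complex.normSq_eq_norm_sq]
            exact pow_ne_zero _ (norm_ne_zero_iff.2 ha)
          have hlt : ‖a⁻¹‖ < 1 := by
            rw [norm_inv]
            exact inv_lt_one_of_one_lt₀ hgt
          obtain ⟨q, hq⟩ := hrat
          refine no_spiral ha' hlt ⟨q⁻¹, by rw [norm_inv, hq]; push_cast; rfl⟩ hpos fun k => ?_
          obtain ⟨r, hr⟩ := hk k
          refine ⟨r / q ^ k, ?_⟩
          have e : a⁻¹ ^ k - 1 = -((a ^ k - 1) / a ^ k) := by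
            have : a ^ k ≠ 0 := pow_ne_zero _ ha
            rw [inv_pow]
            field_simp
            ring
          rw [e, norm_neg, norm_div, norm_pow, ← mul_div_assoc, hr, hq]
          push_cast
          rfl

end Pool.Agent.H63.MO
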