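import Pool.Agent.H63.MO.MainC
import Pool.Agent.H63.MO.MainS

/-!
# Module MainM: orbits of Möbius maps and of anti-Möbius maps

`orb_inj`: if `z i = z j` with `i < j`, then `z (i + k) = z (j + k)` for all `k` (the next point is
determined by the point), so `z` takes only the values `z 0, ..., z (j - 1)`.
`main_mob`: `c ≠ 0`: `main_c`.  `c = 0`: `d ≠ 0`, `a ≠ 0`, `z (n+1) = (a / d) z n + b / d`,
`z n = T^[n] (z 0)`; `main_s` with `a / d`, `b / d`; the sets of fixed points agree.
`near_mob`: the fixed points are among two points: if `c ≠ 0` the two roots of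
`c f² + (d - a) f - b` (`c (f - f₁) (f - f₂)`, `IsAlgClosed`); if `c = 0`, `a ≠ d`: one point
`b / (d - a)`; if `c = 0`, `a = d`: none if `b ≠ 0`; `b = 0` would give `z 1 = z 0`.  A subset of a
set on a line (circle) is on it.
`near_anti`: `T u = (a ū + b) / (c ū + d)`; `T (T u) = (a' u + b') / (c' u + d')` with
`a' = a ā + b c̄`, `b' = a b̄ + b d̄`, `c' = c ā + d c̄`, `d' = c b̄ + d d̄`, and
`a' d' - b' c' = (a d - b c) conj (a d - b c)`; the sequence `z (2 n)` is an orbit of it
(`c' u + d' = (c conj (T u) + d) conj (c ū + d) ≠ 0`).  If `z (2 n)` had a finite range, `z i = z j`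
for some even `i < j`, so `z` would have a finite range (as in `orb_inj`).
-/

set_option autoImplicit false

open Finset Pool.Agent.H20.RO

namespace Pool.Agent.H63.MO

theorem orb_inj {z : ℕ → ℂ} {T : ℂ → ℂ} (h : ∀ n, z (n + 1) = T (z n))
    (hinf : (Set.range z).Infinite) : Function.Injective z := by
  have key : ∀ i j, i < j → z i ≠ z j := by
    intro i j hij he
    have hk : ∀ k, z (i + k) = z (j + k) := by
      intro k
      induction k with
      | zero => simpa using he
      | succ k ih =>
        rw [← add_assoc, ← add_assoc, h, h, ih]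
    apply hinf
    refine ((Set.finite_Iio j).image z).subset ?_
    rintro _ ⟨n, rfl⟩
    induction n using Nat.strong_induction_on with
    | _ n ih =>
      by_cases hn : n < j
      · exact ⟨n, hn, rfl⟩
      · obtain ⟨k, rfl⟩ := Nat.exists_eq_add_of_le (not_lt.1 hn)
        rw [← hk k]
        exact ih (i + k) (by omega)
  intro i j he
  rcases lt_trichotomy i j with h1 | h1 | h1
  · exact absurd he (key i j h1)
  · exact h1
  · exact absurd he.symm (key j i h1)

private theorem mainM_inj {a b c d : ℂ} {z : ℕ → ℂ} (h : ∀ n, Mob a b c d (z n) (z (n + 1)))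
    (hinf : (Set.range z).Infinite) : Function.Injective z :=
  orb_inj (T := fun u => (a * u + b) / (c * u + d)) (fun n => (h n).2) hinf

private theorem mainM_mono {S A B : Set ℂ} (hAB : A ⊆ B) (h : OnLine (S \ A) ∨ OnCirc (S \ A)) :
    OnLine (S \ B) ∨ OnCirc (S \ B) := by
  rcases h with ⟨p, v, hv, h⟩ | ⟨c, r, hr, h⟩
  · exact Or.inl ⟨p, v, hv, fun z hz => h z ⟨hz.1, fun h2 => hz.2 (hAB h2)⟩⟩
  · exact Or.inr ⟨c, r, hr, fun z hz => h z ⟨hz.1, fun h2 => hz.2 (hAB h2)⟩⟩

theorem main_mob {S : Set ℂ} (hS : RatDist S) {a b c d : ℂ} (hD : a * d - b * c ≠ 0)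
    {z : ℕ → ℂ} (hz : ∀ n, z n ∈ S) (h : ∀ n, Mob a b c d (z n) (z (n + 1)))
    (hinf : (Set.range z).Infinite) :
    OnLine (S \ {f | f * (c * f + d) = a * f + b}) ∨
      OnCirc (S \ {f | f * (c * f + d) = a * f + b}) := by
  by_cases hc : c = 0
  · subst hc
    have had : a * d ≠ 0 := by simpa using hD
    have ha : a ≠ 0 := left_ne_zero_of_mul had
    have hd : d ≠ 0 := right_ne_zero_of_mul had
    have hit : ∀ n, (fun u : ℂ => a / d * u + b / d)^[n] (z 0) = z n := by
      intro n
      induction n with
      | zero => rfl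
      | succ n ih =>
        rw [Function.iterate_succ_apply', ih, (h n).2]
        show a / d * z n + b / d = (a * z n + b) / (0 * z n + d)
        rw [zero_mul, zero_add]
        field_simp
    have h1 := main_s hS (a := a / d) (b := b / d) (z := z 0) (div_ne_zero ha hd)
      (fun n => by rw [hit]; exact hz n)
      (by
        have : (fun n : ℕ => (fun u : ℂ => a / d * u + b / d)^[n] (z 0)) = z := funext hit
        rw [this]
        exact hinf)
    refine mainM_mono ?_ h1
    intro f hf
    have hf' : f = a / d * f + b / d := hf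
    show f * (0 * f + d) = a * f + b
    rw [zero_mul, zero_add]
    have h2 : f * d = (a / d * f + b / d) * d := by rw [← hf']
    rw [h2]
    field_simp
  · exact main_c hS hD hc hz h (mainM_inj h hinf)

theorem near_mob {S : Set ℂ} (hS : RatDist S) {a b c d : ℂ} (hD : a * d - b * c ≠ 0)
    {z : ℕ → ℂ} (hz : ∀ n, z n ∈ S) (h : ∀ n, Mob a b c d (z n) (z (n + 1)))
    (hinf : (Set.range z).Infinite) : Near S := by
  have h1 := main_mob hS hD hz h hinf
  have hinj := mainM_inj h hinf
  suffices hF : ∃ p q : ℂ, {f : ℂ | f * (c * f + d) = a * f + b} ⊆ {p, q} by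
    obtain ⟨p, q, hpq⟩ := hF
    exact ⟨p, q, mainM_mono hpq h1⟩
  by_cases hc : c = 0
  · subst hc
    by_cases hda : d = a
    · refine ⟨0, 0, ?_⟩
      intro f hf
      exfalso
      have hf' : f * (0 * f + d) = a * f + b := hf
      have hb : b = 0 := by
        rw [hda] at hf'
        linear_combination -hf'
      have had : a * d ≠ 0 := by simpa using hD
      have hd : d ≠ 0 := right_ne_zero_of_mul had
      have h2 := (h 0).2
      rw [hb, hda, zero_mul, zero_add, add_zero, zero_add,
        mul_div_cancel_left₀ _ (left_ne_zero_of_mul had)] at h2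
      have := hinj h2
      omega
    · refine ⟨b / (d - a), b / (d - a), ?_⟩
      intro f hf
      have hf' : f * (0 * f + d) = a * f + b := hf
      left
      have hda' : d - a ≠ 0 := sub_ne_zero.2 hda
      rw [eq_div_iff hda']
      linear_combination hf'
  · obtain ⟨s, hs⟩ := IsAlgClosed.exists_pow_nat_eq (discrim c (d - a) (-b)) (n := 2) (by norm_num)
    refine ⟨(-(d - a) + s) / (2 * c), (-(d - a) - s) / (2 * c), ?_⟩
    intro f hf
    have hf' : f * (c * f + d) = a * f + b := hf
    have h2 : c * (f * f) + (d - a) * f + -b = 0 := by linear_combination hf'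
    exact (quadratic_eq_zero_iff hc (by rw [← hs, sq]) f).1 h2

theorem near_anti {S : Set ℂ} (hS : RatDist S) {a b c d : ℂ} (hD : a * d - b * c ≠ 0)
    {z : ℕ → ℂ} (hz : ∀ n, z n ∈ S)
    (h : ∀ n, Mob a b c d ((starRingEnd ℂ) (z n)) (z (n + 1)))
    (hinf : (Set.range z).Infinite) : Near S := by
  have hinj : Function.Injective z :=
    orb_inj (T := fun u => (a * (starRingEnd ℂ) u + b) / (c * (starRingEnd ℂ) u + d))
      (fun n => (h n).2) hinf
  have hinf2 : (Set.range fun n : ℕ => z (2 * n)).Infinite := by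
    apply Set.infinite_range_of_injective
    intro i j hij
    have := hinj hij
    omega
  set A := (starRingEnd ℂ) a with hA
  set B := (starRingEnd ℂ) b with hB
  set C := (starRingEnd ℂ) c with hC
  set D := (starRingEnd ℂ) d with hDD
  have hDc : A * D - B * C ≠ 0 := by
    have : A * D - B * C = (starRingEnd ℂ) (a * d - b * c) := by
      rw [map_sub, map_mul, map_mul]
    rw [this]
    exact (map_ne_zero _).2 hD
  refine near_mob (a := a * A + b * C) (b := a * B + b * D) (c := c * A + d * C)
    (d := c * B + d * D) hS ?_ (z := fun n => z (2 * n)) (fun n => hz _) ?_ hinf2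
  · have : (a * A + b * C) * (c * B + d * D) - (a * B + b * D) * (c * A + d * C) =
        (a * d - b * c) * (A * D - B * C) := by ring
    rw [this]
    exact mul_ne_zero hD hDc
  · intro n
    show Mob _ _ _ _ (z (2 * n)) (z (2 * (n + 1)))
    obtain ⟨h1, h2⟩ := h (2 * n)
    obtain ⟨h3, h4⟩ := h (2 * n + 1)
    have he : 2 * (n + 1) = 2 * n + 1 + 1 := by ring
    rw [he]
    have h1' : C * z (2 * n) + D ≠ 0 := by
      have : C * z (2 * n) + D = (starRingEnd ℂ) (c * (starRingEnd ℂ) (z (2 * n)) + d) := by
        rw [map_add, map_mul, Complex.conj_conj]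
      rw [this]
      exact (map_ne_zero _).2 h1
    have hv : (starRingEnd ℂ) (z (2 * n + 1)) = (A * z (2 * n) + B) / (C * z (2 * n) + D) := by
      rw [h2, map_div₀, map_add, map_add, map_mul, map_mul, Complex.conj_conj]
    have hv2 : (starRingEnd ℂ) (z (2 * n + 1)) * (C * z (2 * n) + D) = A * z (2 * n) + B := by
      rw [hv, div_mul_cancel₀ _ h1']
    have e1 : c * (starRingEnd ℂ) (z (2 * n + 1)) + d =
        ((c * A + d * C) * z (2 * n) + (c * B + d * D)) / (C * z (2 * n) + D) := by
      rw [eq_div_iff h1']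
      linear_combination c * hv2
    have e2 : a * (starRingEnd ℂ) (z (2 * n + 1)) + b =
        ((a * A + b * C) * z (2 * n) + (a * B + b * D)) / (C * z (2 * n) + D) := by
      rw [eq_div_iff h1']
      linear_combination a * hv2
    have h5 : (c * A + d * C) * z (2 * n) + (c * B + d * D) ≠ 0 := by
      intro h0
      rw [h0, zero_div] at e1
      exact h3 e1
    refine ⟨h5, ?_⟩
    rw [h4, e1, e2, div_div_div_cancel_right₀ h1']

end Pool.Agent.H63.MO
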