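import Pool.Agent.H63.MO.Rec

/-!
# Module Rat: rationality

Notation: `D = a d - b c`, `t = a + d`, `W = (a z_0 + b) - z_0 (c z_0 + d) = J 1 (z_1 - z_0) ≠ 0`
(`wron` with `m = 0`); norms: `Δ = ‖D‖`, `τ = ‖t‖`, `ω = ‖W‖`, `j n = ‖J n‖`, `d(n, m) = ‖z_n - z_m‖`
(rational).  All `j n ≠ 0` (`J_ne`), `d(m, m+1) ≠ 0` (`wron`), `d(0,2) ≠ 0` (`two0`), `d(1,3) ≠ 0`
(`two1`).  The notation `x ~ y` means: `x = q y` with a rational `q`.
* `wron 0`: `j 1 d01 = ω`; `two0`: `j 2 d02 = ω τ`; `wron 1`: `j 1 j 2 d12 = Δ ω`; so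
  `(ω / d01) (ω τ / d02) d12 = Δ ω`, `ω τ = q1 Δ` with `q1 = d01 d02 / d12`.
* `two1`: `j 1 j 3 d13 = Δ ω τ`, so `j 3 = Δ τ d01 / d13`; `wron 2`: `j 2 j 3 d23 = Δ² ω`, so
  `j 3 = Δ² d02 / (τ d23)`.  Hence `τ² = Δ d02 d13 / (d01 d23)`: `‖δ‖ = Δ / τ²` is rational
  (`δ = D / t²`), and `ω = q1 Δ / τ ~ τ`.
* `rat_J`: `j n ~ τ ^ n`: induction with `wron n`: `j n j (n+1) d(n,n+1) = Δ ^ n ω`, where
  `Δ ^ n ω ~ τ ^ (2 n + 1)`.
* `three`: `j 3 d03 = ω ‖t² - D‖ = ω τ² ‖1 - δ‖` with `j 3 ~ τ³`, `ω ~ τ` (`ω ≠ 0`): `‖1 - δ‖` is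
  rational.
* `rat_L`: `‖L n‖ = j n dist (z n) w / τ ^ n`.
-/

set_option autoImplicit false

open Finset Pool.Agent.H20.RO

namespace Pool.Agent.H63.MO

private def Rat_R (x : ℝ) : Prop := ∃ q : ℚ, x = q

private theorem Rat_R_mul {x y : ℝ} (hx : Rat_R x) (hy : Rat_R y) : Rat_R (x * y) := by
  obtain ⟨p, rfl⟩ := hx
  obtain ⟨q, rfl⟩ := hy
  exact ⟨p * q, by push_cast; ring⟩

private theorem Rat_R_div {x y : ℝ} (hx : Rat_R x) (hy : Rat_R y) : Rat_R (x / y) := by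
  obtain ⟨p, rfl⟩ := hx
  obtain ⟨q, rfl⟩ := hy
  exact ⟨p / q, by push_cast; ring⟩

private theorem Rat_R_pow {x : ℝ} (hx : Rat_R x) (n : ℕ) : Rat_R (x ^ n) := by
  obtain ⟨p, rfl⟩ := hx
  exact ⟨p ^ n, by push_cast; ring⟩

private structure Rat_dat (a b c d : ℂ) (z : ℕ → ℂ) : Prop where
  h : ∀ n, Mob a b c d (z n) (z (n + 1))
  hD : 0 < ‖a * d - b * c‖
  ht : 0 < ‖a + d‖
  hW : 0 < ‖(a * z 0 + b) - z 0 * (c * z 0 + d)‖
  hr : ∀ n m, Rat_R (dist (z n) (z m))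

private theorem Rat_mk {a b c d : ℂ} {z : ℕ → ℂ} (h : ∀ n, Mob a b c d (z n) (z (n + 1)))
    (hD : a * d - b * c ≠ 0) (ht : a + d ≠ 0) (h01 : z 1 ≠ z 0)
    (hr : ∀ n m, ∃ r : ℚ, dist (z n) (z m) = r) : Rat_dat a b c d z := by
  refine ⟨h, norm_pos_iff.2 hD, norm_pos_iff.2 ht, norm_pos_iff.2 ?_, hr⟩
  have h1 := wron h 0
  rw [pow_zero, one_mul] at h1
  rw [← h1]
  exact mul_ne_zero (mul_ne_zero (J_ne h 0) (J_ne h 1)) (sub_ne_zero.2 h01)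

section
variable {a b c d : ℂ} {z : ℕ → ℂ}

private theorem Rat_jpos (H : Rat_dat a b c d z) (n : ℕ) : 0 < ‖J c d z n‖ :=
  norm_pos_iff.2 (J_ne H.h n)

private theorem Rat_w (H : Rat_dat a b c d z) (m : ℕ) :
    ‖J c d z m‖ * ‖J c d z (m + 1)‖ * dist (z m) (z (m + 1)) =
      ‖a * d - b * c‖ ^ m * ‖(a * z 0 + b) - z 0 * (c * z 0 + d)‖ := by
  rw [dist_comm, dist_eq_norm, ← norm_mul, ← norm_mul, wron H.h m, norm_mul, norm_pow]

private theorem Rat_dpos (H : Rat_dat a b c d z) (m : ℕ) : 0 < dist (z m) (z (m + 1)) := by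
  refine lt_of_le_of_ne dist_nonneg fun h => ?_
  have h1 := Rat_w H m
  rw [← h, mul_zero] at h1
  have h2 : 0 < ‖a * d - b * c‖ ^ m * ‖(a * z 0 + b) - z 0 * (c * z 0 + d)‖ :=
    mul_pos (pow_pos H.hD m) H.hW
  linarith

private theorem Rat_t0 (H : Rat_dat a b c d z) : ‖J c d z 2‖ * dist (z 0) (z 2) =
    ‖(a * z 0 + b) - z 0 * (c * z 0 + d)‖ * ‖a + d‖ := by
  rw [dist_comm, dist_eq_norm, ← norm_mul, two0 H.h, norm_mul]

private theorem Rat_t1 (H : Rat_dat a b c d z) :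
    ‖J c d z 1‖ * ‖J c d z 3‖ * dist (z 1) (z 3) =
      ‖a * d - b * c‖ * ‖(a * z 0 + b) - z 0 * (c * z 0 + d)‖ * ‖a + d‖ := by
  rw [dist_comm, dist_eq_norm, ← norm_mul, ← norm_mul, two1 H.h, norm_mul, norm_mul]

private theorem Rat_pos02 (H : Rat_dat a b c d z) : 0 < dist (z 0) (z 2) := by
  refine lt_of_le_of_ne dist_nonneg fun h => ?_
  have h1 := Rat_t0 H
  rw [← h, mul_zero] at h1
  have := mul_pos H.hW H.ht
  linarith

private theorem Rat_pos13 (H : Rat_dat a b c d z) : 0 < dist (z 1) (z 3) := by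
  refine lt_of_le_of_ne dist_nonneg fun h => ?_
  have h1 := Rat_t1 H
  rw [← h, mul_zero] at h1
  have := mul_pos (mul_pos H.hD H.hW) H.ht
  linarith

/-- `ω τ = Δ d01 d02 / d12` -/
private theorem Rat_e1 (H : Rat_dat a b c d z) :
    ‖(a * z 0 + b) - z 0 * (c * z 0 + d)‖ * ‖a + d‖ =
      ‖a * d - b * c‖ * (dist (z 0) (z 1) * dist (z 0) (z 2) / dist (z 1) (z 2)) := by
  have h0 := Rat_w H 0
  have h1 := Rat_w H 1
  have h2 := Rat_t0 H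
  have hW := H.hW
  have p12 : 0 < dist (z 1) (z 2) := Rat_dpos H 1
  have p02 := Rat_pos02 H
  have j0 : ‖J c d z 0‖ = 1 := by simp [J]
  rw [j0, one_mul, pow_zero, one_mul] at h0
  rw [pow_one] at h1
  norm_num at h0 h1
  generalize ‖J c d z 1‖ = j1 at *
  generalize ‖J c d z 2‖ = j2 at *
  generalize ‖(a * z 0 + b) - z 0 * (c * z 0 + d)‖ = ω at *
  generalize ‖a * d - b * c‖ = Δ at *
  generalize ‖a + d‖ = τ at *
  generalize dist (z 0) (z 1) = d01 at *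
  generalize dist (z 1) (z 2) = d12 at *
  generalize dist (z 0) (z 2) = d02 at *
  rw [mul_div_assoc', eq_div_iff p12.ne']
  have h3 : ω * (ω * τ * d12) = ω * (Δ * (d01 * d02)) := by
    calc ω * (ω * τ * d12) = (j1 * d01) * ((j2 * d02) * d12) := by rw [h0, h2]
      _ = (j1 * j2 * d12) * (d01 * d02) := by ring
      _ = ω * (Δ * (d01 * d02)) := by rw [h1]; ring
  exact mul_left_cancel₀ hW.ne' h3

/-- `Δ / τ ^ 2 = d01 d23 / (d02 d13)` -/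
private theorem Rat_e2 (H : Rat_dat a b c d z) :
    ‖a * d - b * c‖ / ‖a + d‖ ^ 2 =
      dist (z 0) (z 1) * dist (z 2) (z 3) / (dist (z 0) (z 2) * dist (z 1) (z 3)) := by
  have h0 := Rat_w H 0
  have h1 := Rat_w H 2
  have h2 := Rat_t0 H
  have h3 := Rat_t1 H
  have hW := H.hW
  have hD := H.hD
  have ht := H.ht
  have p02 := Rat_pos02 H
  have p13 := Rat_pos13 H
  have p3 := Rat_jpos H 3
  have j0 : ‖J c d z 0‖ = 1 := by simp [J]
  rw [j0, one_mul, pow_zero, one_mul] at h0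
  norm_num at h0 h1
  generalize ‖J c d z 1‖ = j1 at *
  generalize ‖J c d z 2‖ = j2 at *
  generalize ‖J c d z 3‖ = j3 at *
  generalize ‖(a * z 0 + b) - z 0 * (c * z 0 + d)‖ = ω at *
  generalize ‖a * d - b * c‖ = Δ at *
  generalize ‖a + d‖ = τ at *
  generalize dist (z 0) (z 1) = d01 at *
  generalize dist (z 2) (z 3) = d23 at *
  generalize dist (z 0) (z 2) = d02 at *
  generalize dist (z 1) (z 3) = d13 at *
  rw [div_eq_div_iff (by positivity) (by positivity)]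
  have h4 : (Δ * ω ^ 2 * j3) * (Δ * (d02 * d13)) = (Δ * ω ^ 2 * j3) * (d01 * d23 * τ ^ 2) := by
    calc (Δ * ω ^ 2 * j3) * (Δ * (d02 * d13)) = ω * (Δ ^ 2 * ω) * (j3 * d02 * d13) := by ring
      _ = (j1 * d01) * (j2 * j3 * d23) * (j3 * d02 * d13) := by rw [h0, h1]
      _ = (j2 * d02) * (j1 * j3 * d13) * (j3 * (d01 * d23)) := by ring
      _ = (Δ * ω ^ 2 * j3) * (d01 * d23 * τ ^ 2) := by rw [h2, h3]; ring
  exact mul_left_cancel₀ (by positivity) h4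

private theorem Rat_rho (H : Rat_dat a b c d z) : Rat_R (‖a * d - b * c‖ / ‖a + d‖ ^ 2) := by
  rw [Rat_e2 H]
  exact Rat_R_div (Rat_R_mul (H.hr _ _) (H.hr _ _)) (Rat_R_mul (H.hr _ _) (H.hr _ _))

private theorem Rat_om (H : Rat_dat a b c d z) :
    Rat_R (‖(a * z 0 + b) - z 0 * (c * z 0 + d)‖ / ‖a + d‖) := by
  have h1 := Rat_e1 H
  have ht := H.ht
  have h2 : ‖(a * z 0 + b) - z 0 * (c * z 0 + d)‖ / ‖a + d‖ =
      ‖a * d - b * c‖ / ‖a + d‖ ^ 2 *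
        (dist (z 0) (z 1) * dist (z 0) (z 2) / dist (z 1) (z 2)) := by
    rw [div_mul_eq_mul_div, ← h1]
    field_simp
  rw [h2]
  exact Rat_R_mul (Rat_rho H) (Rat_R_div (Rat_R_mul (H.hr _ _) (H.hr _ _)) (H.hr _ _))

private theorem Rat_j (H : Rat_dat a b c d z) (n : ℕ) : Rat_R (‖J c d z n‖ / ‖a + d‖ ^ n) := by
  have ht := H.ht
  induction n with
  | zero => exact ⟨1, by simp [J]⟩
  | succ n ih =>
    have h1 := Rat_w H n
    have pj := Rat_jpos H n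
    have pd := Rat_dpos H n
    have hD := H.hD
    have h2 : ‖J c d z (n + 1)‖ / ‖a + d‖ ^ (n + 1) =
        (‖a * d - b * c‖ / ‖a + d‖ ^ 2) ^ n *
          (‖(a * z 0 + b) - z 0 * (c * z 0 + d)‖ / ‖a + d‖) /
          (‖J c d z n‖ / ‖a + d‖ ^ n * dist (z n) (z (n + 1))) := by
      have h3 : ‖J c d z (n + 1)‖ = ‖a * d - b * c‖ ^ n *
          ‖(a * z 0 + b) - z 0 * (c * z 0 + d)‖ / (‖J c d z n‖ * dist (z n) (z (n + 1))) := by
        rw [eq_div_iff (by positivity), ← h1]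
        ring
      rw [h3, div_pow, ← pow_mul]
      generalize ‖J c d z n‖ = j at *
      generalize ‖(a * z 0 + b) - z 0 * (c * z 0 + d)‖ = ω at *
      generalize ‖a * d - b * c‖ = Δ at *
      generalize ‖a + d‖ = τ at *
      generalize dist (z n) (z (n + 1)) = e at *
      rw [two_mul n, pow_add τ n n, pow_succ τ n]
      field_simp
    rw [h2]
    exact Rat_R_div (Rat_R_mul (Rat_R_pow (Rat_rho H) n) (Rat_om H)) (Rat_R_mul ih (H.hr _ _))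

end

theorem rat_del {a b c d : ℂ} {z : ℕ → ℂ} (h : ∀ n, Mob a b c d (z n) (z (n + 1)))
    (hD : a * d - b * c ≠ 0) (ht : a + d ≠ 0) (h01 : z 1 ≠ z 0)
    (hr : ∀ n m, ∃ r : ℚ, dist (z n) (z m) = r) :
    (∃ q : ℚ, ‖(a * d - b * c) / (a + d) ^ 2‖ = q) ∧
      ∃ q : ℚ, ‖1 - (a * d - b * c) / (a + d) ^ 2‖ = q := by
  have H := Rat_mk h hD ht h01 hr
  constructor
  · rw [norm_div, norm_pow]
    exact Rat_rho H
  · have h1 : 1 - (a * d - b * c) / (a + d) ^ 2 = ((a + d) ^ 2 - (a * d - b * c)) / (a + d) ^ 2 := by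
      field_simp
    have h2 : ‖J c d z 3‖ * dist (z 0) (z 3) = ‖(a * z 0 + b) - z 0 * (c * z 0 + d)‖ *
        ‖(a + d) ^ 2 - (a * d - b * c)‖ := by
      rw [dist_comm, dist_eq_norm, ← norm_mul, three h, norm_mul]
    have hW := H.hW
    have ht' := H.ht
    have h3 : ‖1 - (a * d - b * c) / (a + d) ^ 2‖ = ‖J c d z 3‖ / ‖a + d‖ ^ 3 *
        dist (z 0) (z 3) / (‖(a * z 0 + b) - z 0 * (c * z 0 + d)‖ / ‖a + d‖) := by
      rw [h1, norm_div, norm_pow]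
      generalize ‖J c d z 3‖ = j at *
      generalize ‖(a * z 0 + b) - z 0 * (c * z 0 + d)‖ = ω at *
      generalize ‖(a + d) ^ 2 - (a * d - b * c)‖ = N at *
      generalize ‖a + d‖ = τ at *
      generalize dist (z 0) (z 3) = e at *
      rw [div_eq_div_iff (by positivity) (by positivity)]
      have h4 : j / τ ^ 3 * e * τ ^ 2 = (j * e) / τ := by
        field_simp
      rw [h4, h2]
      ring
    rw [h3]
    exact Rat_R_div (Rat_R_mul (Rat_j H 3) (H.hr _ _)) (Rat_om H)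

theorem rat_J {a b c d : ℂ} {z : ℕ → ℂ} (h : ∀ n, Mob a b c d (z n) (z (n + 1)))
    (hD : a * d - b * c ≠ 0) (ht : a + d ≠ 0) (h01 : z 1 ≠ z 0)
    (hr : ∀ n m, ∃ r : ℚ, dist (z n) (z m) = r) (n : ℕ) :
    ∃ q : ℚ, ‖J c d z n‖ = q * ‖a + d‖ ^ n := by
  have H := Rat_mk h hD ht h01 hr
  obtain ⟨q, hq⟩ := Rat_j H n
  refine ⟨q, ?_⟩
  rw [← hq, div_mul_cancel₀]
  have := H.ht
  positivity

theorem rat_L {a b c d : ℂ} {z : ℕ → ℂ} (h : ∀ n, Mob a b c d (z n) (z (n + 1)))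
    (hD : a * d - b * c ≠ 0) (ht : a + d ≠ 0) (h01 : z 1 ≠ z 0)
    (hr : ∀ n m, ∃ r : ℚ, dist (z n) (z m) = r) {w : ℂ} (hw : ∀ n, ∃ r : ℚ, dist (z n) w = r)
    (n : ℕ) : ∃ r : ℚ, ‖L a c d z w n‖ = r := by
  have H := Rat_mk h hD ht h01 hr
  have h1 : ‖L a c d z w n‖ = ‖J c d z n‖ / ‖a + d‖ ^ n * dist (z n) w := by
    rw [L, norm_div, norm_mul, norm_pow, dist_eq_norm]
    ring
  rw [h1]
  exact Rat_R_mul (Rat_j H n) (hw n)

end Pool.Agent.H63.MO
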