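import Pool.Agent.H63.MO.Defs

/-!
# Module Rec: recurrences

`I n = J n z_n`, so `J (n + 1) = c I n + d J n` and `I (n + 1) = J (n + 1) z_(n+1) = a I n + b J n`
(`z_(n+1) (c z_n + d) = a z_n + b`).  `l n = I n - w J n = J n (z_n - w)` satisfies
`l (n + 2) = (a + d) l (n + 1) - (a d - b c) l n`; divide by `(a + d) ^ (n + 2)`: `L_rec`.
`wron`: `J m J (m+1) (z_(m+1) - z_m) = I (m+1) J m - I m J (m+1)`, induction on `m` (determinant).
The others: the same computation for the indices `0, 1, 2, 3`.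
-/

set_option autoImplicit false

open Finset Pool.Agent.H20.RO

namespace Pool.Agent.H63.MO

private theorem Rec_zs {a b c d : ℂ} {z : ℕ → ℂ} (h : ∀ n, Mob a b c d (z n) (z (n + 1))) (n : ℕ) :
    z (n + 1) * (c * z n + d) = a * z n + b := by
  obtain ⟨h1, h2⟩ := h n
  rw [h2]
  exact div_mul_cancel₀ _ h1

private theorem Rec_Js (c d : ℂ) (z : ℕ → ℂ) (n : ℕ) :
    J c d z (n + 1) = J c d z n * (c * z n + d) := rfl

private theorem Rec_J0 (c d : ℂ) (z : ℕ → ℂ) : J c d z 0 = 1 := rfl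

private theorem Rec_I {a b c d : ℂ} {z : ℕ → ℂ} (h : ∀ n, Mob a b c d (z n) (z (n + 1))) (n : ℕ) :
    J c d z (n + 1) * z (n + 1) = J c d z n * (a * z n + b) := by
  rw [Rec_Js, ← Rec_zs h n]
  ring

theorem J_ne {a b c d : ℂ} {z : ℕ → ℂ} (h : ∀ n, Mob a b c d (z n) (z (n + 1))) (n : ℕ) :
    J c d z n ≠ 0 := by
  induction n with
  | zero => rw [Rec_J0]; exact one_ne_zero
  | succ n ih => rw [Rec_Js]; exact mul_ne_zero ih (h n).1

theorem L_zero (a c d : ℂ) (z : ℕ → ℂ) (w : ℂ) : L a c d z w 0 = z 0 - w := by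
  simp [L, Rec_J0]

theorem L_one {a b c d : ℂ} {z : ℕ → ℂ} (h : ∀ n, Mob a b c d (z n) (z (n + 1))) (w : ℂ) :
    L a c d z w 1 = ((a * z 0 + b) - w * (c * z 0 + d)) / (a + d) := by
  have h1 := Rec_zs h 0
  have h2 : J c d z 1 = c * z 0 + d := by rw [Rec_Js, Rec_J0]; ring
  unfold L
  rw [h2, pow_one, ← h1]
  ring

theorem L_rec {a b c d : ℂ} {z : ℕ → ℂ} (h : ∀ n, Mob a b c d (z n) (z (n + 1))) (ht : a + d ≠ 0)
    (w : ℂ) (n : ℕ) : L a c d z w (n + 2) =
      L a c d z w (n + 1) - (a * d - b * c) / (a + d) ^ 2 * L a c d z w n := by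
  have h0 := Rec_I h n
  have h1 := Rec_I h (n + 1)
  have j0 := Rec_Js c d z n
  have j1 := Rec_Js c d z (n + 1)
  have key : J c d z (n + 2) * (z (n + 2) - w) =
      (a + d) * (J c d z (n + 1) * (z (n + 1) - w)) -
        (a * d - b * c) * (J c d z n * (z n - w)) := by
    have e2 : J c d z (n + 2) = c * (J c d z (n + 1) * z (n + 1)) + d * J c d z (n + 1) := by
      rw [j1]; ring
    have e3 : J c d z (n + 2) * z (n + 2) =
        a * (J c d z (n + 1) * z (n + 1)) + b * J c d z (n + 1) := by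
      rw [h1]; ring
    have e4 : J c d z (n + 1) = c * (J c d z n * z n) + d * J c d z n := by
      rw [j0]; ring
    have e5 : J c d z (n + 1) * z (n + 1) = a * (J c d z n * z n) + b * J c d z n := by
      rw [h0]; ring
    calc J c d z (n + 2) * (z (n + 2) - w) =
        J c d z (n + 2) * z (n + 2) - w * J c d z (n + 2) := by ring
      _ = (a * (J c d z (n + 1) * z (n + 1)) + b * J c d z (n + 1)) -
          w * (c * (J c d z (n + 1) * z (n + 1)) + d * J c d z (n + 1)) := by rw [e3, e2]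
      _ = (a + d) * (J c d z (n + 1) * z (n + 1) - w * J c d z (n + 1)) -
          (d * (J c d z (n + 1) * z (n + 1)) - b * J c d z (n + 1) +
            w * (c * (J c d z (n + 1) * z (n + 1)) - a * J c d z (n + 1))) := by ring
      _ = (a + d) * (J c d z (n + 1) * z (n + 1) - w * J c d z (n + 1)) -
          (a * d - b * c) * (J c d z n * (z n - w)) := by
        rw [e5, e4]
        ring
      _ = _ := by ring
  unfold L
  rw [key]
  have hp : (a + d) ^ n ≠ 0 := pow_ne_zero n ht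
  field_simp
  ring

theorem wron {a b c d : ℂ} {z : ℕ → ℂ} (h : ∀ n, Mob a b c d (z n) (z (n + 1))) (m : ℕ) :
    J c d z m * J c d z (m + 1) * (z (m + 1) - z m) =
      (a * d - b * c) ^ m * ((a * z 0 + b) - z 0 * (c * z 0 + d)) := by
  induction m with
  | zero =>
    have h1 := Rec_zs h 0
    rw [Rec_Js, Rec_J0, pow_zero]
    linear_combination h1
  | succ m ih =>
    have h0 := Rec_I h m
    have h1 := Rec_I h (m + 1)
    have j0 := Rec_Js c d z m
    have j1 := Rec_Js c d z (m + 1)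
    rw [pow_succ]
    have e : J c d z (m + 1) * J c d z (m + 1 + 1) * (z (m + 1 + 1) - z (m + 1)) =
        (a * d - b * c) * (J c d z m * J c d z (m + 1) * (z (m + 1) - z m)) := by
      have e1 : J c d z (m + 1) * J c d z (m + 1 + 1) * (z (m + 1 + 1) - z (m + 1)) =
          J c d z (m + 1) * (J c d z (m + 1 + 1) * z (m + 1 + 1)) -
            (J c d z (m + 1) * z (m + 1)) * J c d z (m + 1 + 1) := by ring
      have e5 : J c d z (m + 1) * z (m + 1) = a * (J c d z m * z m) + b * J c d z m := by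
        rw [h0]; ring
      have e4 : J c d z (m + 1) = c * (J c d z m * z m) + d * J c d z m := by
        rw [j0]; ring
      rw [e1, h1, j1]
      have e6 : J c d z (m + 1) * (J c d z (m + 1) * (a * z (m + 1) + b)) -
          J c d z (m + 1) * z (m + 1) * (J c d z (m + 1) * (c * z (m + 1) + d)) =
          J c d z (m + 1) * (a * (J c d z (m + 1) * z (m + 1)) + b * J c d z (m + 1)) -
          (J c d z (m + 1) * z (m + 1)) * (c * (J c d z (m + 1) * z (m + 1)) +
            d * J c d z (m + 1)) := by ring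
      have e7 : J c d z m * J c d z (m + 1) * (z (m + 1) - z m) =
          J c d z m * (J c d z (m + 1) * z (m + 1)) - J c d z m * z m * J c d z (m + 1) := by ring
      rw [e6, e7, e5, e4]
      ring
    rw [e, ih]
    ring

theorem two0 {a b c d : ℂ} {z : ℕ → ℂ} (h : ∀ n, Mob a b c d (z n) (z (n + 1))) :
    J c d z 2 * (z 2 - z 0) = ((a * z 0 + b) - z 0 * (c * z 0 + d)) * (a + d) := by
  have e0 := Rec_zs h 0
  have e1 := Rec_zs h 1
  simp only [zero_add] at e0
  have j : J c d z 2 = (c * z 0 + d) * (c * z 1 + d) := by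
    rw [Rec_Js, Rec_Js, Rec_J0]; ring
  have e1' : z 2 * (c * z 1 + d) = a * z 1 + b := e1
  rw [j]
  linear_combination (c * z 0 + d) * e1' + (a - c * z 0) * e0

theorem two1 {a b c d : ℂ} {z : ℕ → ℂ} (h : ∀ n, Mob a b c d (z n) (z (n + 1))) :
    J c d z 1 * J c d z 3 * (z 3 - z 1) =
      (a * d - b * c) * ((a * z 0 + b) - z 0 * (c * z 0 + d)) * (a + d) := by
  have e0 := Rec_zs h 0
  have e1 : z 2 * (c * z 1 + d) = a * z 1 + b := Rec_zs h 1
  have e2 : z 3 * (c * z 2 + d) = a * z 2 + b := Rec_zs h 2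
  simp only [zero_add] at e0
  have w0 := wron h 1
  have j1 : J c d z 1 = c * z 0 + d := by rw [Rec_Js, Rec_J0]; ring
  have j2 : J c d z 2 = J c d z 1 * (c * z 1 + d) := Rec_Js c d z 1
  have j3 : J c d z 3 = J c d z 2 * (c * z 2 + d) := Rec_Js c d z 2
  have w1 : J c d z 1 * J c d z 2 * (z 2 - z 1) =
      (a * d - b * c) ^ 1 * ((a * z 0 + b) - z 0 * (c * z 0 + d)) := w0
  have w2 : J c d z 1 * J c d z 3 * (z 3 - z 1) =
      (a + d) * (J c d z 1 * J c d z 2 * (z 2 - z 1)) := by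
    rw [j3, j2]
    linear_combination (J c d z 1 * J c d z 1 * (c * z 1 + d)) * e2 +
      (J c d z 1 * J c d z 1 * (-(c * z 1) - d)) * e1
  rw [w2, w1]
  ring

theorem three {a b c d : ℂ} {z : ℕ → ℂ} (h : ∀ n, Mob a b c d (z n) (z (n + 1))) :
    J c d z 3 * (z 3 - z 0) =
      ((a * z 0 + b) - z 0 * (c * z 0 + d)) * ((a + d) ^ 2 - (a * d - b * c)) := by
  have e0 := Rec_zs h 0
  have e1 : z 2 * (c * z 1 + d) = a * z 1 + b := Rec_zs h 1
  have e2 : z 3 * (c * z 2 + d) = a * z 2 + b := Rec_zs h 2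
  simp only [zero_add] at e0
  have j1 : J c d z 1 = c * z 0 + d := by rw [Rec_Js, Rec_J0]; ring
  have j2 : J c d z 2 = J c d z 1 * (c * z 1 + d) := Rec_Js c d z 1
  have j3 : J c d z 3 = J c d z 2 * (c * z 2 + d) := Rec_Js c d z 2
  have t := two0 h
  have w2 : J c d z 3 * (z 3 - z 0) =
      (a + d) * (J c d z 2 * (z 2 - z 0)) - (a * d - b * c) * (J c d z 1 * (z 1 - z 0)) := by
    rw [j3, j2]
    linear_combination (J c d z 1 * (c * z 1 + d)) * e2 +
      (J c d z 1 * (a - c * z 0) - J c d z 1 * (a + d)) * e1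
  rw [w2, t, j1]
  linear_combination (-(a * d - b * c)) * e0

end Pool.Agent.H63.MO
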