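import Pool.Agent.H20.RO.Som
import Pool.Agent.H63.MO.Defs

/-!
# Module SomN: somewhere dense sets

PROOF. Let `S' = S \ {p, q}`.  `interior (closure S) \ {p, q}` is open, not empty (a nonempty open
set of the plane is infinite) and contained in `closure S'` (a point `x ≠ p, q` of `closure S` is in
the closure of `S \ {p, q}`), so `interior (closure S')` is nonempty.  `not_line_of_som`,
`not_circle_of_som` (H20/RO/Som) for `S'`; `OnCirc S'` implies `OnCircle S'`.
-/

set_option autoImplicit false

open Finset Pool.Agent.H20.RO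

namespace Pool.Agent.H63.MO

private lemma SomN_som {S : Set ℂ} (h : (interior (closure S)).Nonempty) (p q : ℂ) :
    (interior (closure (S \ {p, q}))).Nonempty := by
  have hfin : ({p, q} : Set ℂ).Finite := (Set.finite_singleton q).insert p
  have hd : Dense ({p, q} : Set ℂ)ᶜ := hfin.countable.dense_compl ℝ
  obtain ⟨x, hxU, hx⟩ := hd.inter_open_nonempty _ isOpen_interior h
  refine ⟨x, ?_⟩
  rw [mem_interior]
  refine ⟨interior (closure S) ∩ ({p, q} : Set ℂ)ᶜ, ?_,
    isOpen_interior.inter hfin.isClosed.isOpen_compl, hxU, hx⟩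
  rintro y ⟨hy1, hy2⟩
  have h1 : y ∈ closure S := interior_subset hy1
  have h2 : S ⊆ (S \ {p, q}) ∪ {p, q} := by
    intro z hz
    by_cases hzp : z ∈ ({p, q} : Set ℂ)
    · exact Or.inr hzp
    · exact Or.inl ⟨hz, hzp⟩
  have h3 := closure_mono h2 h1
  rw [closure_union, hfin.isClosed.closure_eq] at h3
  rcases h3 with h3 | h3
  · exact h3
  · exact absurd h3 hy2

theorem not_near_of_som {S : Set ℂ} (h : (interior (closure S)).Nonempty) : ¬ Near S := by
  rintro ⟨p, q, h1 | h1⟩
  · exact not_line_of_som (SomN_som h p q) h1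
  · refine not_circle_of_som (SomN_som h p q) ?_
    obtain ⟨c, r, hr, hS⟩ := h1
    exact ⟨c, r, hr, fun z hz => Or.inr (hS z hz)⟩

end Pool.Agent.H63.MO
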