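import Pool.Agent.H63.MO.SymN
import Pool.Agent.H63.MO.MainM

/-!
# Module SymMP: Möbius maps that map a subset into itself

The proofs are those of SymM: let `P` be a rational distance set without infinite orbits of Möbius
maps and with at least three points (`Tame P`).  If `P` is contained in a rational distance set `S`
that is not `Near`, it has no infinite orbits (`near_mob`).
-/

set_option autoImplicit false

open Finset Matrix Pool.Agent.H20.RO

namespace Pool.Agent.H63.MO

private theorem SymMP_fix {a b c d : ℂ} (hne : ¬ (b = 0 ∧ c = 0 ∧ a = d)) :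
    ∃ p q : ℂ, ∀ u : ℂ, u * (c * u + d) = a * u + b → u = p ∨ u = q := by
  by_cases hc : c = 0
  · by_cases had : a = d
    · have hb : b ≠ 0 := fun hb => hne ⟨hb, hc, had⟩
      refine ⟨0, 0, fun u hu => ?_⟩
      exfalso
      apply hb
      rw [hc, had] at hu
      linear_combination -hu
    · refine ⟨b / (d - a), b / (d - a), fun u hu => Or.inl ?_⟩
      have h1 : d - a ≠ 0 := sub_ne_zero.2 (Ne.symm had)
      rw [eq_div_iff h1]
      rw [hc] at hu
      linear_combination hu
  · obtain ⟨s, hs⟩ := IsAlgClosed.exists_eq_mul_self (discrim c (d - a) (-b))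
    refine ⟨(-(d - a) + s) / (2 * c), (-(d - a) - s) / (2 * c), fun u hu => ?_⟩
    exact (quadratic_eq_zero_iff hc hs u).1 (by linear_combination hu)

private theorem SymMP_inj {a b c d u u' v : ℂ} (hD : a * d - b * c ≠ 0)
    (h : Mob a b c d u v) (h' : Mob a b c d u' v) : u = u' := by
  obtain ⟨h1, h2⟩ := h
  obtain ⟨h3, h4⟩ := h'
  rw [h4, div_eq_div_iff h3 h1] at h2
  have h5 : (a * d - b * c) * (u - u') = 0 := by linear_combination -h2
  rcases mul_eq_zero.1 h5 with h6 | h6
  · exact absurd h6 hD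
  · exact sub_eq_zero.1 h6

private theorem SymMP_down {a b c d : ℂ} (hD : a * d - b * c ≠ 0) {z : ℕ → ℂ}
    (h : ∀ n, Mob a b c d (z n) (z (n + 1))) :
    ∀ i k : ℕ, z i = z (i + k) → z 0 = z k := by
  intro i
  induction i with
  | zero =>
    intro k hk
    rw [Nat.zero_add] at hk
    exact hk
  | succ i ih =>
    intro k hk
    apply ih
    have h1 := h i
    have h2 := h (i + k)
    have h3 : i + 1 + k = i + k + 1 := by ring
    rw [hk, h3] at h1
    exact SymMP_inj hD h1 h2

/-- A rational distance set without infinite orbits of Möbius maps, with at least three points. -/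
def Tame (P : Set ℂ) : Prop :=
  RatDist P ∧ (∀ a b c d : ℂ, a * d - b * c ≠ 0 → ∀ z : ℕ → ℂ, (∀ n, z n ∈ P) →
    (∀ n, Mob a b c d (z n) (z (n + 1))) → ¬ (Set.range z).Infinite) ∧
    ∀ p q : ℂ, ∃ u ∈ P, u ≠ p ∧ u ≠ q

theorem tame_of {S P : Set ℂ} (hS : RatDist S) (hN : ¬ Near S) (hPS : P ⊆ S)
    (h3 : 3 ≤ P.encard) : Tame P := by
  refine ⟨fun z hz w hw => hS z (hPS hz) w (hPS hw), ?_, ?_⟩
  · intro a b c d hD z hz h hinf
    exact hN (near_mob hS hD (fun n => hPS (hz n)) h hinf)
  · intro p q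
    by_contra hcon
    push Not at hcon
    have hsub : P ⊆ {p, q} := by
      intro u hu
      by_cases hup : u = p
      · left; exact hup
      · right; exact hcon u hu hup
    have h4 : P.encard ≤ 2 := by
      refine (Set.encard_le_encard hsub).trans ((Set.encard_insert_le _ _).trans ?_)
      rw [Set.encard_singleton]
      norm_num
    have h5 := h3.trans h4
    exact absurd h5 (by norm_num)

theorem sym_mobP {S : Set ℂ} (hT : Tame S) {a b c d : ℂ}
    (hD : a * d - b * c ≠ 0) (hTS : ∀ u ∈ S, ∃ v ∈ S, Mob a b c d u v) :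
    ∃ n ∈ ({1, 2, 3, 4, 6} : Finset ℕ), ∃ μ : ℂ,
      (!![a, b; c, d] : Matrix (Fin 2) (Fin 2) ℂ) ^ n =
        μ • (1 : Matrix (Fin 2) (Fin 2) ℂ) := by
  by_cases hne : b = 0 ∧ c = 0 ∧ a = d
  · obtain ⟨rfl, rfl, rfl⟩ := hne
    refine ⟨1, by simp, a, ?_⟩
    rw [pow_one]
    ext i j
    fin_cases i <;> fin_cases j <;> simp
  · obtain ⟨p, q, hpq⟩ := SymMP_fix hne
    have hz0 : ∃ z0 ∈ S, z0 ≠ p ∧ z0 ≠ q := hT.2.2 p q
    obtain ⟨z0, hz0S, hz0p, hz0q⟩ := hz0
    choose! T hT1 hT2 using hTS
    let z : ℕ → ℂ := fun n => T^[n] z0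
    have hzS : ∀ n, z n ∈ S := by
      intro n
      induction n with
      | zero => exact hz0S
      | succ n ih =>
        change T^[n + 1] z0 ∈ S
        rw [Function.iterate_succ_apply']
        exact hT1 _ ih
    have hz : ∀ n, Mob a b c d (z n) (z (n + 1)) := by
      intro n
      have h1 : z (n + 1) = T (z n) := Function.iterate_succ_apply' T n z0
      rw [h1]
      exact hT2 _ (hzS n)
    have h01 : z 1 ≠ z 0 := by
      intro h
      obtain ⟨h1, h2⟩ := hz 0
      have h3 : z 0 = z0 := rfl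
      rw [zero_add, h, h3] at h2
      rw [h3] at h1
      rw [eq_div_iff h1] at h2
      rcases hpq z0 h2 with h4 | h4
      · exact hz0p h4
      · exact hz0q h4
    have hfin : ¬ (Set.range z).Infinite := hT.2.1 a b c d hD z hzS hz
    have hninj : ¬ Function.Injective z := fun hi => hfin (Set.infinite_range_of_injective hi)
    have hij : ∃ i k : ℕ, 1 ≤ k ∧ z i = z (i + k) := by
      unfold Function.Injective at hninj
      push Not at hninj
      obtain ⟨i, j, h1, h2⟩ := hninj
      rcases Nat.lt_or_gt_of_ne h2 with h3 | h3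
      · exact ⟨i, j - i, by omega, by rw [h1]; congr 1; omega⟩
      · exact ⟨j, i - j, by omega, by rw [← h1]; congr 1; omega⟩
    obtain ⟨i, k, hk1, hik⟩ := hij
    exact ord hz hD (fun n m => hT.1 _ (hzS n) _ (hzS m)) h01 hk1 (SymMP_down hD hz i k hik).symm

end Pool.Agent.H63.MO
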