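import Pool.Agent.H63.MO.Grp
import Pool.Agent.H63.MO.SymMP

/-!
# Module SymGP: the group of a subset

The proofs are those of SymG, for a set `P` with `Tame P`.
-/

set_option autoImplicit false

open Matrix Pool.Agent.H20.RO

namespace Pool.Agent.H63.MO

private lemma SymGP_comp {g h : SpecialLinearGroup (Fin 2) ℂ} {u v w : ℂ}
    (h1 : Mob (h.1 0 0) (h.1 0 1) (h.1 1 0) (h.1 1 1) u v)
    (h2 : Mob (g.1 0 0) (g.1 0 1) (g.1 1 0) (g.1 1 1) v w) :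
    Mob ((g * h).1 0 0) ((g * h).1 0 1) ((g * h).1 1 0) ((g * h).1 1 1) u w := by
  obtain ⟨a1, b1⟩ := h1
  obtain ⟨a2, b2⟩ := h2
  have e00 : (g * h).1 0 0 = g.1 0 0 * h.1 0 0 + g.1 0 1 * h.1 1 0 := by
    simp [Matrix.mul_apply, Fin.sum_univ_two]
  have e01 : (g * h).1 0 1 = g.1 0 0 * h.1 0 1 + g.1 0 1 * h.1 1 1 := by
    simp [Matrix.mul_apply, Fin.sum_univ_two]
  have e10 : (g * h).1 1 0 = g.1 1 0 * h.1 0 0 + g.1 1 1 * h.1 1 0 := by
    simp [Matrix.mul_apply, Fin.sum_univ_two]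
  have e11 : (g * h).1 1 1 = g.1 1 0 * h.1 0 1 + g.1 1 1 * h.1 1 1 := by
    simp [Matrix.mul_apply, Fin.sum_univ_two]
  have hE : v * (h.1 1 0 * u + h.1 1 1) = h.1 0 0 * u + h.1 0 1 := by
    rw [b1, div_mul_cancel₀ _ a1]
  have hden : (g * h).1 1 0 * u + (g * h).1 1 1 =
      (g.1 1 0 * v + g.1 1 1) * (h.1 1 0 * u + h.1 1 1) := by
    rw [e10, e11]
    linear_combination (-(g.1 1 0)) * hE
  have hnum : (g * h).1 0 0 * u + (g * h).1 0 1 =
      (g.1 0 0 * v + g.1 0 1) * (h.1 1 0 * u + h.1 1 1) := by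
    rw [e00, e01]
    linear_combination (-(g.1 0 0)) * hE
  refine ⟨?_, ?_⟩
  · rw [hden]
    exact mul_ne_zero a2 a1
  · rw [hden, hnum, mul_div_mul_right _ _ a1]
    exact b2

private lemma SymGP_one (u : ℂ) :
    Mob ((1 : SpecialLinearGroup (Fin 2) ℂ).1 0 0) ((1 : SpecialLinearGroup (Fin 2) ℂ).1 0 1)
      ((1 : SpecialLinearGroup (Fin 2) ℂ).1 1 0) ((1 : SpecialLinearGroup (Fin 2) ℂ).1 1 1) u u := by
  refine ⟨?_, ?_⟩ <;> simp

private lemma SymGP_neg (u : ℂ) :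
    Mob ((-1 : SpecialLinearGroup (Fin 2) ℂ).1 0 0) ((-1 : SpecialLinearGroup (Fin 2) ℂ).1 0 1)
      ((-1 : SpecialLinearGroup (Fin 2) ℂ).1 1 0)
      ((-1 : SpecialLinearGroup (Fin 2) ℂ).1 1 1) u u := by
  refine ⟨?_, ?_⟩ <;> simp [SpecialLinearGroup.coe_neg]

private lemma SymGP_pow24 {S : Set ℂ} (hT : Tame S)
    (g : SpecialLinearGroup (Fin 2) ℂ)
    (hg : ∀ u ∈ S, ∃ v ∈ S, Mob (g.1 0 0) (g.1 0 1) (g.1 1 0) (g.1 1 1) u v) : g ^ 24 = 1 := by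
  have hdet : g.1 0 0 * g.1 1 1 - g.1 0 1 * g.1 1 0 = 1 := by
    have := g.2
    rwa [Matrix.det_fin_two] at this
  obtain ⟨n, hn, μ, hμ⟩ := sym_mobP hT (a := g.1 0 0) (b := g.1 0 1) (c := g.1 1 0)
    (d := g.1 1 1) (by rw [hdet]; exact one_ne_zero) hg
  rw [← Matrix.eta_fin_two g.1] at hμ
  have hd2 : μ ^ 2 = 1 := by
    have h1 : (g.1 ^ n).det = 1 := by
      rw [Matrix.det_pow, g.2, one_pow]
    rw [hμ, Matrix.det_smul, Matrix.det_one, Fintype.card_fin, mul_one] at h1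
    exact h1
  have h4 : g.1 ^ (2 * n) = (1 : Matrix (Fin 2) (Fin 2) ℂ) := by
    rw [mul_comm, pow_mul, hμ, smul_pow, hd2, one_pow, one_smul]
  have h3 : ((g ^ (2 * n) : SpecialLinearGroup (Fin 2) ℂ) : Matrix (Fin 2) (Fin 2) ℂ) =
      ((1 : SpecialLinearGroup (Fin 2) ℂ) : Matrix (Fin 2) (Fin 2) ℂ) :=
    (Matrix.SpecialLinearGroup.coe_pow g (2 * n)).trans
      (h4.trans Matrix.SpecialLinearGroup.coe_one.symm)
  have h2 : g ^ (2 * n) = 1 := Subtype.ext h3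
  have hdvd : 2 * n ∣ 24 := by
    simp only [Finset.mem_insert, Finset.mem_singleton] at hn
    rcases hn with rfl | rfl | rfl | rfl | rfl <;> norm_num
  obtain ⟨k, hk⟩ := hdvd
  rw [hk, pow_mul, h2, one_pow]

theorem gamP {S : Set ℂ} (hT : Tame S) :
    ∃ Γ : Subgroup (SpecialLinearGroup (Fin 2) ℂ),
      (∀ g, g ∈ Γ ↔ ∀ u ∈ S, ∃ v ∈ S, Mob (g.1 0 0) (g.1 0 1) (g.1 1 0) (g.1 1 1) u v) ∧
      (∀ g ∈ Γ, g ^ 24 = 1) ∧ -1 ∈ Γ := by
  have hmul : ∀ g h : SpecialLinearGroup (Fin 2) ℂ,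
      (∀ u ∈ S, ∃ v ∈ S, Mob (g.1 0 0) (g.1 0 1) (g.1 1 0) (g.1 1 1) u v) →
      (∀ u ∈ S, ∃ v ∈ S, Mob (h.1 0 0) (h.1 0 1) (h.1 1 0) (h.1 1 1) u v) →
      ∀ u ∈ S, ∃ v ∈ S, Mob ((g * h).1 0 0) ((g * h).1 0 1) ((g * h).1 1 0) ((g * h).1 1 1) u v := by
    intro g h hg hh u hu
    obtain ⟨v, hv, h1⟩ := hh u hu
    obtain ⟨w, hw, h2⟩ := hg v hv
    exact ⟨w, hw, SymGP_comp h1 h2⟩
  let M : Submonoid (SpecialLinearGroup (Fin 2) ℂ) :=
    { carrier := {g | ∀ u ∈ S, ∃ v ∈ S, Mob (g.1 0 0) (g.1 0 1) (g.1 1 0) (g.1 1 1) u v}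
      mul_mem' := fun {g h} hg hh => hmul g h hg hh
      one_mem' := fun u hu => ⟨u, hu, SymGP_one u⟩ }
  have hM : ∀ g, g ∈ M ↔ ∀ u ∈ S, ∃ v ∈ S, Mob (g.1 0 0) (g.1 0 1) (g.1 1 0) (g.1 1 1) u v :=
    fun g => Iff.rfl
  have hinv : ∀ {g}, g ∈ M → g⁻¹ ∈ M := by
    intro g hg
    have h24 : g ^ 24 = 1 := SymGP_pow24 hT g ((hM g).mp hg)
    have he : g⁻¹ = g ^ 23 := by
      rw [inv_eq_iff_mul_eq_one, ← pow_succ']
      exact h24
    rw [he]
    exact M.pow_mem hg 23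
  refine ⟨{ M with inv_mem' := hinv }, ?_, ?_, ?_⟩
  · intro g
    exact Iff.rfl
  · intro g hg
    exact SymGP_pow24 hT g hg
  · intro u hu
    exact ⟨u, hu, SymGP_neg u⟩

private lemma SymGP_count {S : Set ℂ} (hT : Tame S) (T : Set (ℂ → ℂ))
    (F : T → SpecialLinearGroup (Fin 2) ℂ)
    (hF : ∀ t, ∀ u ∈ S, ∃ v ∈ S, Mob ((F t).1 0 0) ((F t).1 0 1) ((F t).1 1 0) ((F t).1 1 1) u v)
    (h1 : ∀ s t, F s = F t → s = t) (h2 : ∀ s t, F s = - F t → s = t) : T.encard ≤ 24 := by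
  obtain ⟨Γ, hΓ, h24, hneg⟩ := gamP hT
  obtain ⟨hfin, hcard⟩ := group_card Γ h24 hneg
  have hle : Nat.card Γ ≤ 48 := Nat.le_of_dvd (by norm_num) hcard
  have hmem : ∀ t, F t ∈ Γ := fun t => (hΓ _).mpr (hF t)
  have hmem' : ∀ t, - F t ∈ Γ := by
    intro t
    have h3 := Γ.mul_mem hneg (hmem t)
    rwa [neg_one_mul] at h3
  let Φ : T × Bool → Γ := fun x => if x.2 then ⟨F x.1, hmem x.1⟩ else ⟨- F x.1, hmem' x.1⟩
  have hne : ∀ g : SpecialLinearGroup (Fin 2) ℂ, g ≠ - g := by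
    intro g hg
    have h4 : g.1 = - g.1 := by
      have := congrArg Subtype.val hg
      rwa [SpecialLinearGroup.coe_neg] at this
    have h5 : g.1 = 0 := by
      ext i j
      have h6 : g.1 i j = - g.1 i j := by
        conv_lhs => rw [h4]
        rfl
      have h7 : (2 : ℂ) * g.1 i j = 0 := by linear_combination h6
      simpa using h7
    have h8 := g.2
    rw [h5, Matrix.det_zero] at h8
    exact zero_ne_one h8
  have hΦ : Function.Injective Φ := by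
    rintro ⟨s, e⟩ ⟨t, e'⟩ h
    cases e <;> cases e'
    · have h3 : - F s = - F t := by simpa [Φ] using h
      rw [h1 s t (neg_injective h3)]
    · have h3 : - F s = F t := by simpa [Φ] using h
      have h4 := h2 t s h3.symm
      subst h4
      exact absurd h3.symm (hne _)
    · have h3 : F s = - F t := by simpa [Φ] using h
      have h4 := h2 s t h3
      subst h4
      exact absurd h3 (hne _)
    · have h3 : F s = F t := by simpa [Φ] using h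
      rw [h1 s t h3]
  have hf2 : Finite (T × Bool) := Finite.of_injective Φ hΦ
  have hf3 : Finite T := Finite.of_injective (fun t : T => ((t, true) : T × Bool))
    (fun s t h => (Prod.ext_iff.mp h).1)
  have hc := Nat.card_le_card_of_injective Φ hΦ
  rw [Nat.card_prod] at hc
  have hb : Nat.card Bool = 2 := by simp
  rw [hb] at hc
  have hc2 : Nat.card T ≤ 24 := by omega
  have hfs : T.Finite := hf3
  rw [← hfs.cast_ncard_eq]
  have : T.ncard ≤ 24 := by rwa [← Nat.card_coe_set_eq]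
  exact_mod_cast this

private lemma SymGP_norm {a b c d : ℂ} (hD : a * d - b * c ≠ 0) :
    ∃ (g : SpecialLinearGroup (Fin 2) ℂ) (s : ℂ), s ≠ 0 ∧ g.1 0 0 = a / s ∧ g.1 0 1 = b / s ∧
      g.1 1 0 = c / s ∧ g.1 1 1 = d / s := by
  obtain ⟨s, hs⟩ := IsAlgClosed.exists_pow_nat_eq (a * d - b * c) (n := 2) (by norm_num)
  have hs0 : s ≠ 0 := by
    rintro rfl
    apply hD
    rw [← hs]
    norm_num
  refine ⟨⟨!![a / s, b / s; c / s, d / s], ?_⟩, s, hs0, rfl, rfl, rfl, rfl⟩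
  rw [Matrix.det_fin_two_of]
  field_simp
  linear_combination -hs

private lemma SymGP_frac {a b c d s u : ℂ} (hs : s ≠ 0) :
    (a / s * u + b / s) / (c / s * u + d / s) = (a * u + b) / (c * u + d) := by
  have e1 : a / s * u + b / s = (a * u + b) / s := by ring
  have e2 : c / s * u + d / s = (c * u + d) / s := by ring
  rw [e1, e2, div_div_div_cancel_right₀ hs]

private lemma SymGP_den {c d s u : ℂ} (hs : s ≠ 0) (h : c * u + d ≠ 0) :
    c / s * u + d / s ≠ 0 := by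
  have e2 : c / s * u + d / s = (c * u + d) / s := by ring
  rw [e2]
  exact div_ne_zero h hs

theorem sym24P {S : Set ℂ} (hT : Tame S) :
    {T : ℂ → ℂ | ∃ a b c d : ℂ, a * d - b * c ≠ 0 ∧ (∀ u, T u = (a * u + b) / (c * u + d)) ∧
      ∀ u ∈ S, c * u + d ≠ 0 ∧ T u ∈ S}.encard ≤ 24 := by
  have hex : ∀ t : {T : ℂ → ℂ | ∃ a b c d : ℂ, a * d - b * c ≠ 0 ∧
      (∀ u, T u = (a * u + b) / (c * u + d)) ∧ ∀ u ∈ S, c * u + d ≠ 0 ∧ T u ∈ S},
      ∃ g : SpecialLinearGroup (Fin 2) ℂ,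
        (∀ u, t.1 u = (g.1 0 0 * u + g.1 0 1) / (g.1 1 0 * u + g.1 1 1)) ∧
        ∀ u ∈ S, g.1 1 0 * u + g.1 1 1 ≠ 0 ∧ t.1 u ∈ S := by
    rintro ⟨t, a, b, c, d, hD, ht, hu⟩
    obtain ⟨g, s, hs, e1, e2, e3, e4⟩ := SymGP_norm hD
    refine ⟨g, ?_, ?_⟩
    · intro u
      rw [e1, e2, e3, e4, SymGP_frac hs]
      exact ht u
    · intro u hu'
      rw [e3, e4]
      exact ⟨SymGP_den hs (hu u hu').1, (hu u hu').2⟩
  choose F hF1 hF2 using hex
  refine SymGP_count hT _ F ?_ ?_ ?_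
  · intro t u hu
    exact ⟨t.1 u, (hF2 t u hu).2, (hF2 t u hu).1, hF1 t u⟩
  · intro s t h
    apply Subtype.ext
    funext u
    rw [hF1 s u, hF1 t u, h]
  · intro s t h
    apply Subtype.ext
    funext u
    rw [hF1 s u, hF1 t u, h]
    have e : ∀ i j, (- F t).1 i j = - (F t).1 i j := by
      intro i j
      rw [SpecialLinearGroup.coe_neg]
      rfl
    rw [e, e, e, e]
    have e1 : -(F t).1 0 0 * u + -(F t).1 0 1 = -((F t).1 0 0 * u + (F t).1 0 1) := by ring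
    have e2 : -(F t).1 1 0 * u + -(F t).1 1 1 = -((F t).1 1 0 * u + (F t).1 1 1) := by ring
    rw [e1, e2, neg_div_neg_eq]

theorem sym_anti24P {S : Set ℂ} (hT : Tame S) :
    {T : ℂ → ℂ | ∃ a b c d : ℂ, a * d - b * c ≠ 0 ∧
      (∀ u, T u = (a * (starRingEnd ℂ) u + b) / (c * (starRingEnd ℂ) u + d)) ∧
      ∀ u ∈ S, c * (starRingEnd ℂ) u + d ≠ 0 ∧ T u ∈ S}.encard ≤ 24 := by
  have hex : ∀ t : {T : ℂ → ℂ | ∃ a b c d : ℂ, a * d - b * c ≠ 0 ∧
      (∀ u, T u = (a * (starRingEnd ℂ) u + b) / (c * (starRingEnd ℂ) u + d)) ∧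
      ∀ u ∈ S, c * (starRingEnd ℂ) u + d ≠ 0 ∧ T u ∈ S},
      ∃ g : SpecialLinearGroup (Fin 2) ℂ,
        (∀ u, t.1 u = (g.1 0 0 * (starRingEnd ℂ) u + g.1 0 1) /
          (g.1 1 0 * (starRingEnd ℂ) u + g.1 1 1)) ∧
        ∀ u ∈ S, g.1 1 0 * (starRingEnd ℂ) u + g.1 1 1 ≠ 0 ∧ t.1 u ∈ S := by
    rintro ⟨t, a, b, c, d, hD, ht, hu⟩
    obtain ⟨g, s, hs, e1, e2, e3, e4⟩ := SymGP_norm hD
    refine ⟨g, ?_, ?_⟩
    · intro u
      rw [e1, e2, e3, e4, SymGP_frac hs]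
      exact ht u
    · intro u hu'
      rw [e3, e4]
      exact ⟨SymGP_den hs (hu u hu').1, (hu u hu').2⟩
  choose F hF1 hF2 using hex
  rcases Set.eq_empty_or_nonempty {T : ℂ → ℂ | ∃ a b c d : ℂ, a * d - b * c ≠ 0 ∧
      (∀ u, T u = (a * (starRingEnd ℂ) u + b) / (c * (starRingEnd ℂ) u + d)) ∧
      ∀ u ∈ S, c * (starRingEnd ℂ) u + d ≠ 0 ∧ T u ∈ S} with h0 | ⟨T0, hT0⟩
  · rw [h0, Set.encard_empty]
    exact zero_le
  set t0 : {T : ℂ → ℂ | ∃ a b c d : ℂ, a * d - b * c ≠ 0 ∧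
      (∀ u, T u = (a * (starRingEnd ℂ) u + b) / (c * (starRingEnd ℂ) u + d)) ∧
      ∀ u ∈ S, c * (starRingEnd ℂ) u + d ≠ 0 ∧ T u ∈ S} := ⟨T0, hT0⟩ with ht0
  have hc : ∀ (g : SpecialLinearGroup (Fin 2) ℂ) i j,
      (SpecialLinearGroup.map (starRingEnd ℂ) g).1 i j = (starRingEnd ℂ) (g.1 i j) := by
    intro g i j
    rfl
  refine SymGP_count hT _ (fun t => F t0 * SpecialLinearGroup.map (starRingEnd ℂ) (F t)) ?_ ?_ ?_
  · intro t u hu
    have k1 := hF2 t u hu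
    have k2 := hF2 t0 (t.1 u) k1.2
    refine ⟨t0.1 (t.1 u), k2.2, ?_⟩
    refine SymGP_comp (v := (starRingEnd ℂ) (t.1 u)) ⟨?_, ?_⟩ ⟨k2.1, hF1 t0 (t.1 u)⟩
    · rw [hc, hc]
      intro h
      apply k1.1
      have h' := congrArg (starRingEnd ℂ) h
      simpa using h'
    · rw [hc, hc, hc, hc, hF1 t u]
      simp
  · intro s t h
    have h1 : SpecialLinearGroup.map (starRingEnd ℂ) (F s) =
        SpecialLinearGroup.map (starRingEnd ℂ) (F t) := mul_left_cancel h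
    have h2 : ∀ i j, (F s).1 i j = (F t).1 i j := by
      intro i j
      have h3 := congrArg (fun g : SpecialLinearGroup (Fin 2) ℂ => (starRingEnd ℂ) (g.1 i j)) h1
      simpa [hc] using h3
    apply Subtype.ext
    funext u
    rw [hF1 s u, hF1 t u, h2, h2, h2, h2]
  · intro s t h
    have h1 : SpecialLinearGroup.map (starRingEnd ℂ) (F s) =
        - SpecialLinearGroup.map (starRingEnd ℂ) (F t) := by
      apply mul_left_cancel (a := F t0)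
      rw [mul_neg]
      exact h
    have h2 : ∀ i j, (F s).1 i j = - (F t).1 i j := by
      intro i j
      have h3 := congrArg (fun g : SpecialLinearGroup (Fin 2) ℂ => (starRingEnd ℂ) (g.1 i j)) h1
      simpa [hc, SpecialLinearGroup.coe_neg] using h3
    apply Subtype.ext
    funext u
    rw [hF1 s u, hF1 t u, h2, h2, h2, h2]
    have e1 : -(F t).1 0 0 * (starRingEnd ℂ) u + -(F t).1 0 1 =
      -((F t).1 0 0 * (starRingEnd ℂ) u + (F t).1 0 1) := by ring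
    have e2 : -(F t).1 1 0 * (starRingEnd ℂ) u + -(F t).1 1 1 =
      -((F t).1 1 0 * (starRingEnd ℂ) u + (F t).1 1 1) := by ring
    rw [e1, e2, neg_div_neg_eq]

end Pool.Agent.H63.MO
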