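import Pool.Agent.H63.MO.SymP
import Pool.Agent.H63.MO.Rat
import Pool.Agent.H63.MO.Fix

/-!
# Module SymN: the order of a Möbius map with a periodic point

PROOF. `M = !![a, b; c, d]`, `t = a + d`, `D = a d - b c`, `M² = t M - D` (compare entries).
`t = 0`: `M² = - D`, `n = 2`.  Let `t ≠ 0`, `δ = D / t²`, `‖δ‖ = q` rational (`rat_del`), `κ₁ + κ₂ = 1`,
`κ₁ κ₂ = δ`.  `L n = L a c d z (z 0) n`, `L 0 = 0`, `L k = 0`, `L 1 = W / t ≠ 0`
(`W = J 1 (z 1 - z 0)`).  If `κ₁ = κ₂ = 1/2`, `δ = 1/4`: `L_par`: `L k = (1/2) ^ k k 2 L 1 ≠ 0`,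
contradiction.  So `κ₁ ≠ κ₂`, `L_exp`: `κ₁ ^ k = κ₂ ^ k`.  `λ = κ₁ / κ₂`, `λ ^ k = 1`, `λ ≠ 1`,
`‖λ‖ = 1`, `λ + λ⁻¹ = 1 / δ - 2 = 2 Re λ`; so `1 / δ = 2 + 2 Re λ ≥ 0` is real, `δ = q > 0`,
`C = 1 / q - 2 = λ + λ⁻¹` is rational and integral over `ℤ` (`λ`, `λ⁻¹` are roots of unity), so an
integer (`IsIntegrallyClosed`, `IsIntegral.exists_int...`; cf. `sym_root` in H20/RO/SymA).
`|C| ≤ 2`, `C ≠ 2` (`λ ≠ 1`), `C ≠ -2` (`1 / q ≠ 0`): `C = -1, 0, 1`, `δ = 1, 1/2, 1/3`,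
`D = δ t²`; from `M² = t M - D`: `M³ = - t³`, `M⁴ = - t⁴ / 4`, `M⁶ = - t⁶ / 27` respectively
(`δ = 1/3`: `M³ = (2/3) t² M - t³ / 3`).
-/

set_option autoImplicit false

open Finset Matrix Pool.Agent.H20.RO

namespace Pool.Agent.H63.MO

private theorem SymN_mul {M : Matrix (Fin 2) (Fin 2) ℂ} {t D : ℂ}
    (h : M * M = t • M + (-D) • (1 : Matrix (Fin 2) (Fin 2) ℂ)) (x y x' y' : ℂ) :
    (x • M + y • (1 : Matrix (Fin 2) (Fin 2) ℂ)) * (x' • M + y' • (1 : Matrix (Fin 2) (Fin 2) ℂ)) =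
      (x * x' * t + x * y' + x' * y) • M +
        (y * y' - x * x' * D) • (1 : Matrix (Fin 2) (Fin 2) ℂ) := by
  have e : (x • M + y • (1 : Matrix (Fin 2) (Fin 2) ℂ)) *
      (x' • M + y' • (1 : Matrix (Fin 2) (Fin 2) ℂ)) =
      (x * x') • (M * M) + (x * y' + x' * y) • M +
        (y * y') • (1 : Matrix (Fin 2) (Fin 2) ℂ) := by
    rw [add_mul, mul_add, mul_add, smul_mul_smul_comm, smul_mul_smul_comm, smul_mul_smul_comm,
      smul_mul_smul_comm, mul_one, one_mul, mul_one]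
    module
  rw [e, h]
  module

private theorem SymN_sq (a b c d : ℂ) :
    (!![a, b; c, d] : Matrix (Fin 2) (Fin 2) ℂ) * !![a, b; c, d] =
      (a + d) • !![a, b; c, d] + (-(a * d - b * c)) • (1 : Matrix (Fin 2) (Fin 2) ℂ) := by
  ext i j
  fin_cases i <;> fin_cases j
  · simp [Matrix.mul_apply, Fin.sum_univ_two]
    ring
  · simp [Matrix.mul_apply, Fin.sum_univ_two]
    ring
  · simp [Matrix.mul_apply, Fin.sum_univ_two]
    ring
  · simp [Matrix.mul_apply, Fin.sum_univ_two]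
    ring

private theorem SymN_pow2 {M : Matrix (Fin 2) (Fin 2) ℂ} {t D : ℂ}
    (h : M * M = t • M + (-D) • (1 : Matrix (Fin 2) (Fin 2) ℂ)) (ht : t = 0) :
    M ^ 2 = (-D) • (1 : Matrix (Fin 2) (Fin 2) ℂ) := by
  rw [sq, h, ht, zero_smul, zero_add]

private theorem SymN_cube {M : Matrix (Fin 2) (Fin 2) ℂ} {t D : ℂ}
    (h : M * M = t • M + (-D) • (1 : Matrix (Fin 2) (Fin 2) ℂ)) :
    M ^ 3 = (t ^ 2 - D) • M + (-(t * D)) • (1 : Matrix (Fin 2) (Fin 2) ℂ) := by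
  have e := SymN_mul h t (-D) 1 0
  rw [one_smul, zero_smul, add_zero] at e
  rw [pow_succ, sq, h, e]
  congr 1
  · congr 1
    ring
  · congr 1
    ring

private theorem SymN_pow3 {M : Matrix (Fin 2) (Fin 2) ℂ} {t D : ℂ}
    (h : M * M = t • M + (-D) • (1 : Matrix (Fin 2) (Fin 2) ℂ)) (hD : D = t ^ 2) :
    M ^ 3 = (-(t * D)) • (1 : Matrix (Fin 2) (Fin 2) ℂ) := by
  rw [SymN_cube h, hD, sub_self, zero_smul, zero_add]

private theorem SymN_pow4 {M : Matrix (Fin 2) (Fin 2) ℂ} {t D : ℂ}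
    (h : M * M = t • M + (-D) • (1 : Matrix (Fin 2) (Fin 2) ℂ)) (hD : D = t ^ 2 / 2) :
    M ^ 4 = (-(t ^ 4 / 4)) • (1 : Matrix (Fin 2) (Fin 2) ℂ) := by
  have e := SymN_mul h t (-D) t (-D)
  have e2 : M ^ 4 = (M * M) * (M * M) := by
    rw [show (4 : ℕ) = 2 + 2 from rfl, pow_add, sq]
  rw [e2, h, e, hD]
  have z : t * t * t + t * -(t ^ 2 / 2) + t * -(t ^ 2 / 2) = 0 := by ring
  rw [z, zero_smul, zero_add]
  congr 1
  ring

private theorem SymN_pow6 {M : Matrix (Fin 2) (Fin 2) ℂ} {t D : ℂ}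
    (h : M * M = t • M + (-D) • (1 : Matrix (Fin 2) (Fin 2) ℂ)) (hD : D = t ^ 2 / 3) :
    M ^ 6 = (-(t ^ 6 / 27)) • (1 : Matrix (Fin 2) (Fin 2) ℂ) := by
  have e := SymN_mul h (t ^ 2 - D) (-(t * D)) (t ^ 2 - D) (-(t * D))
  have e2 : M ^ 6 = M ^ 3 * M ^ 3 := by
    rw [← pow_add]
  rw [e2, SymN_cube h, e, hD]
  have z : (t ^ 2 - t ^ 2 / 3) * (t ^ 2 - t ^ 2 / 3) * t +
      (t ^ 2 - t ^ 2 / 3) * -(t * (t ^ 2 / 3)) + (t ^ 2 - t ^ 2 / 3) * -(t * (t ^ 2 / 3)) = 0 := by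
    ring
  rw [z, zero_smul, zero_add]
  congr 1
  ring

/-- If `lam` is a root of unity and `lam + lam⁻¹` is rational, it is an integer. -/
private theorem SymN_int {lam : ℂ} {k : ℕ} (hk : 1 ≤ k) (h : lam ^ k = 1) {C : ℚ}
    (hC : lam + lam⁻¹ = (C : ℂ)) : ∃ m : ℤ, C = m := by
  have i1 : IsIntegral ℤ lam := by
    refine IsIntegral.of_pow (n := k) (by omega) ?_
    rw [h]
    exact isIntegral_one
  have i2 : IsIntegral ℤ lam⁻¹ := by
    refine IsIntegral.of_pow (n := k) (by omega) ?_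
    rw [inv_pow, h, inv_one]
    exact isIntegral_one
  have i3 : IsIntegral ℤ (C : ℂ) := by
    rw [← hC]
    exact i1.add i2
  have i4 : IsIntegral ℤ C := by
    have : IsIntegral ℤ (algebraMap ℚ ℂ C) := by simpa using i3
    exact (isIntegral_algebraMap_iff (algebraMap ℚ ℂ).injective).mp this
  obtain ⟨m, hm⟩ := IsIntegrallyClosed.isIntegral_iff.mp i4
  exact ⟨m, by rw [← hm]; simp⟩

private theorem SymN_del {δ κ₁ κ₂ : ℂ} (h1 : κ₁ + κ₂ = 1) (h2 : κ₁ * κ₂ = δ) (hne : κ₁ ≠ κ₂)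
    {k : ℕ} (hk1 : 1 ≤ k) (hp : κ₁ ^ k = κ₂ ^ k) (hδ : δ ≠ 0) {q : ℚ} (hq : ‖δ‖ = q) :
    δ = 1 ∨ δ = 1 / 2 ∨ δ = 1 / 3 := by
  have k1 : κ₁ ≠ 0 := fun h => hδ (by rw [← h2, h, zero_mul])
  have k2 : κ₂ ≠ 0 := fun h => hδ (by rw [← h2, h, mul_zero])
  set lam := κ₁ / κ₂ with hlam
  have l0 : lam ≠ 0 := div_ne_zero k1 k2
  have l1 : lam ^ k = 1 := by
    rw [hlam, div_pow, hp, div_self (pow_ne_zero _ k2)]
  have l2 : lam ≠ 1 := by
    intro h
    apply hne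
    rw [hlam, div_eq_one_iff_eq k2] at h
    exact h
  have l3 : ‖lam‖ = 1 := by
    have : ‖lam‖ ^ k = 1 := by rw [← norm_pow, l1, norm_one]
    exact (pow_eq_one_iff_of_nonneg (norm_nonneg _) (by omega)).mp this
  have l4 : lam⁻¹ = (starRingEnd ℂ) lam := Complex.inv_eq_conj l3
  have l5 : lam + lam⁻¹ = 1 / δ - 2 := by
    have e : κ₁ ^ 2 + κ₂ ^ 2 = 1 - 2 * δ := by
      rw [← h2]
      linear_combination (κ₁ + κ₂ + 1) * h1
    rw [hlam, inv_div, ← h2]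
    rw [← h2] at e
    field_simp
    linear_combination e
  have l6 : 1 / δ = ((2 + 2 * lam.re : ℝ) : ℂ) := by
    have : lam + (starRingEnd ℂ) lam = ((2 * lam.re : ℝ) : ℂ) := Complex.add_conj lam
    rw [l4] at l5
    rw [this] at l5
    push_cast at l5 ⊢
    linear_combination -l5
  have l7 : -1 ≤ lam.re := by
    have := Complex.abs_re_le_norm lam
    rw [l3] at this
    exact (abs_le.mp this).1
  have l7' : lam.re ≤ 1 := by
    have := Complex.abs_re_le_norm lam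
    rw [l3] at this
    exact (abs_le.mp this).2
  have l8 : 0 < 2 + 2 * lam.re := by
    refine lt_of_le_of_ne (by linarith) fun h => ?_
    rw [← h] at l6
    simp at l6
    exact hδ l6
  have l9 : δ = ((1 / (2 + 2 * lam.re) : ℝ) : ℂ) := by
    push_cast
    push_cast at l6
    rw [← l6]
    simp
  have l10 : (1 / (2 + 2 * lam.re) : ℝ) = q := by
    rw [← hq, l9, Complex.norm_real, Real.norm_eq_abs, abs_of_pos (by positivity)]
  have q0 : (0 : ℝ) < q := by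
    rw [← l10]
    positivity
  have l11 : (2 + 2 * lam.re : ℝ) = 1 / q := by
    rw [← l10]
    simp
  have l12 : lam + lam⁻¹ = ((1 / q - 2 : ℚ) : ℂ) := by
    rw [l5, l6, l11]
    push_cast
    ring
  obtain ⟨m, hm⟩ := SymN_int hk1 l1 l12
  have l13 : (2 + 2 * lam.re : ℝ) = m + 2 := by
    rw [l11]
    have : ((1 / q - 2 : ℚ) : ℝ) = (m : ℝ) := by rw [hm]; simp
    push_cast at this
    linarith
  have m1 : -2 < m := by
    have : (-2 : ℝ) < m := by linarith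
    exact_mod_cast this
  have m2 : m < 2 := by
    have : (m : ℝ) < 2 := by
      have h3 : lam.re < 1 := by
        refine lt_of_le_of_ne l7' fun h => l2 ?_
        have h4 : lam.im = 0 := by
          have h5 := Complex.sq_norm_sub_sq_re lam
          rw [l3, h] at h5
          have h6 : lam.im ^ 2 = 0 := by linarith
          exact pow_eq_zero_iff (two_ne_zero) |>.mp h6
        exact Complex.ext h h4
      linarith
    exact_mod_cast this
  have l14 : δ = 1 / (m + 2) := by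
    rw [l9, l13]
    push_cast
    ring
  have m3 : m = -1 ∨ m = 0 ∨ m = 1 := by omega
  rcases m3 with h | h | h
  · left
    rw [l14, h]
    norm_num
  · right; left
    rw [l14, h]
    norm_num
  · right; right
    rw [l14, h]
    norm_num

theorem ord {a b c d : ℂ} {z : ℕ → ℂ} (h : ∀ n, Mob a b c d (z n) (z (n + 1)))
    (hD : a * d - b * c ≠ 0) (hr : ∀ n m, ∃ r : ℚ, dist (z n) (z m) = r) (h01 : z 1 ≠ z 0) {k : ℕ}
    (hk1 : 1 ≤ k) (hk : z k = z 0) :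
    ∃ n ∈ ({1, 2, 3, 4, 6} : Finset ℕ), ∃ μ : ℂ,
      (!![a, b; c, d] : Matrix (Fin 2) (Fin 2) ℂ) ^ n =
        μ • (1 : Matrix (Fin 2) (Fin 2) ℂ) := by
  set M : Matrix (Fin 2) (Fin 2) ℂ := !![a, b; c, d] with hM
  have hsq := SymN_sq a b c d
  rw [← hM] at hsq
  by_cases ht : a + d = 0
  · exact ⟨2, by simp, _, SymN_pow2 hsq ht⟩
  obtain ⟨⟨q, hq⟩, -⟩ := rat_del h hD ht h01 hr
  set δ := (a * d - b * c) / (a + d) ^ 2 with hδ
  have hδ0 : δ ≠ 0 := div_ne_zero hD (pow_ne_zero _ ht)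
  have hDδ : a * d - b * c = δ * (a + d) ^ 2 := by
    rw [hδ, div_mul_cancel₀ _ (pow_ne_zero _ ht)]
  have hL0 : L a c d z (z 0) 0 = 0 := by rw [L_zero, sub_self]
  have hLk : L a c d z (z 0) k = 0 := by
    unfold L
    rw [hk, sub_self, mul_zero, zero_div]
  have hL1 : L a c d z (z 0) 1 ≠ 0 := by
    unfold L
    exact div_ne_zero (mul_ne_zero (J_ne h 1) (sub_ne_zero.mpr h01)) (pow_ne_zero _ ht)
  have hrec : ∀ n, L a c d z (z 0) (n + 2) = L a c d z (z 0) (n + 1) - δ * L a c d z (z 0) n :=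
    fun n => L_rec h ht (z 0) n
  obtain ⟨s, hs⟩ : ∃ s : ℂ, s ^ 2 = 1 - 4 * δ := IsAlgClosed.exists_pow_nat_eq _ (by norm_num)
  have hδ3 : δ = 1 ∨ δ = 1 / 2 ∨ δ = 1 / 3 := by
    by_cases hs0 : s = 0
    · exfalso
      have hd : δ = 1 / 4 := by
        rw [hs0] at hs
        linear_combination (1 / 4) * hs
      rw [hd] at hrec
      have e := L_par hrec k
      rw [hLk, hL0] at e
      have h3 : (1 / 2 : ℂ) ^ k * (0 + k * (2 * L a c d z (z 0) 1 - 0)) ≠ 0 := by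
        refine mul_ne_zero (pow_ne_zero _ (by norm_num)) ?_
        rw [zero_add, sub_zero]
        exact mul_ne_zero (Nat.cast_ne_zero.mpr (by omega)) (mul_ne_zero two_ne_zero hL1)
      exact h3 e.symm
    · have h1 : (1 + s) / 2 + (1 - s) / 2 = 1 := by ring
      have h2 : (1 + s) / 2 * ((1 - s) / 2) = δ := by linear_combination (-1 / 4) * hs
      have hne : (1 + s) / 2 ≠ (1 - s) / 2 := by
        intro h
        apply hs0
        linear_combination h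
      have e := L_exp h1 h2 hne hrec k
      rw [hLk, hL0] at e
      have hsub : (1 + s) / 2 - (1 - s) / 2 ≠ 0 := sub_ne_zero.mpr hne
      have hp : ((1 + s) / 2) ^ k = ((1 - s) / 2) ^ k := by
        have e2 : L a c d z (z 0) 1 / ((1 + s) / 2 - (1 - s) / 2) *
            (((1 + s) / 2) ^ k - ((1 - s) / 2) ^ k) = 0 := by
          rw [mul_zero, mul_zero, sub_zero] at e
          linear_combination -e
        rcases mul_eq_zero.mp e2 with h4 | h4
        · exact absurd h4 (div_ne_zero hL1 hsub)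
        · exact sub_eq_zero.mp h4
      exact SymN_del h1 h2 hne hk1 hp hδ0 hq
  rcases hδ3 with h3 | h3 | h3
  · refine ⟨3, by simp, _, SymN_pow3 hsq ?_⟩
    rw [hDδ, h3, one_mul]
  · refine ⟨4, by simp, _, SymN_pow4 hsq ?_⟩
    rw [hDδ, h3]
    ring
  · refine ⟨6, by simp, _, SymN_pow6 hsq ?_⟩
    rw [hDδ, h3]
    ring

end Pool.Agent.H63.MO
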