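import Pool.Agent.H63.MO.Rec

/-!
# Module SymP: periodic points

PROOF. `M = !![a, b; c, d]`.  By induction `M ^ n *ᵥ ![z 0, 1] = J n • ![z n, 1]`
(`c z_n + d ≠ 0`).  So `M ^ k *ᵥ v = μ • v` with `v = ![z 0, 1]`, `μ = J k`, and
`M ^ k *ᵥ (M *ᵥ v) = M *ᵥ (M ^ k *ᵥ v) = μ • (M *ᵥ v)`, `M *ᵥ v = J 1 • ![z 1, 1]`.  The vectors
`![z 0, 1]`, `![z 1, 1]` are linearly independent (`z 1 ≠ z 0`), so `M ^ k = μ • 1`: compare the four
entries (`(M ^ k - μ) * !![z 0, z 1; 1, 1] = 0`).  `mob_inj`: cross multiply,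
`(a u + b) (c u' + d) - (a u' + b) (c u + d) = (a d - b c) (u - u')`.
-/

set_option autoImplicit false

open Finset Matrix Pool.Agent.H20.RO

namespace Pool.Agent.H63.MO

theorem mob_inj {a b c d u u' v : ℂ} (hD : a * d - b * c ≠ 0) (h : Mob a b c d u v)
    (h' : Mob a b c d u' v) : u = u' := by
  obtain ⟨h1, h2⟩ := h
  obtain ⟨h3, h4⟩ := h'
  have e1 : v * (c * u + d) = a * u + b := by rw [h2]; exact div_mul_cancel₀ _ h1
  have e2 : v * (c * u' + d) = a * u' + b := by rw [h4]; exact div_mul_cancel₀ _ h3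
  have e3 : (a * d - b * c) * (u - u') = 0 := by
    linear_combination (-(c * u' + d)) * e1 + (c * u + d) * e2
  have e4 := (mul_eq_zero.mp e3).resolve_left hD
  exact sub_eq_zero.mp e4

private theorem SymP_pow {a b c d : ℂ} {z : ℕ → ℂ} (h : ∀ n, Mob a b c d (z n) (z (n + 1)))
    (n : ℕ) : (!![a, b; c, d] : Matrix (Fin 2) (Fin 2) ℂ) ^ n *ᵥ ![z 0, 1] =
      J c d z n • ![z n, 1] := by
  induction n with
  | zero =>
    have : J c d z 0 = 1 := rfl
    rw [pow_zero, one_mulVec, this, one_smul]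
  | succ n ih =>
    have e : z (n + 1) * (c * z n + d) = a * z n + b := by
      obtain ⟨h1, h2⟩ := h n
      rw [h2]
      exact div_mul_cancel₀ _ h1
    have j : J c d z (n + 1) = J c d z n * (c * z n + d) := rfl
    rw [pow_succ', ← mulVec_mulVec, ih, mulVec_smul, j]
    ext i
    fin_cases i
    · simp
      linear_combination (-(J c d z n)) * e
    · simp
      exact Or.inl (mul_comm _ _)

theorem per_scal {a b c d : ℂ} {z : ℕ → ℂ} (h : ∀ n, Mob a b c d (z n) (z (n + 1))) {k : ℕ}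
    (hk : z k = z 0) (h01 : z 1 ≠ z 0) :
    ∃ μ : ℂ, (!![a, b; c, d] : Matrix (Fin 2) (Fin 2) ℂ) ^ k =
      μ • (1 : Matrix (Fin 2) (Fin 2) ℂ) := by
  set M : Matrix (Fin 2) (Fin 2) ℂ := !![a, b; c, d] with hM
  refine ⟨J c d z k, ?_⟩
  have h0 : M ^ k *ᵥ ![z 0, 1] = J c d z k • ![z 0, 1] := by
    have := SymP_pow h k
    rw [hk] at this
    exact this
  have h1 : M *ᵥ ![z 0, 1] = J c d z 1 • ![z 1, 1] := by
    have := SymP_pow h 1
    rw [pow_one] at this
    exact this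
  have hJ : J c d z 1 ≠ 0 := J_ne h 1
  have h2 : J c d z 1 • (M ^ k *ᵥ ![z 1, 1]) = J c d z 1 • (J c d z k • ![z 1, 1]) := by
    rw [← mulVec_smul, ← h1, mulVec_mulVec, ← pow_succ, pow_succ', ← mulVec_mulVec, h0,
      mulVec_smul, h1, smul_comm]
  have h3 : M ^ k *ᵥ ![z 1, 1] = J c d z k • ![z 1, 1] := smul_right_injective _ hJ h2
  have hne : z 1 - z 0 ≠ 0 := sub_ne_zero.mpr h01
  generalize M ^ k = N at h0 h3
  generalize J c d z k = μ at h0 h3
  have a0 := congrFun h0 0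
  have a1 := congrFun h0 1
  have b0 := congrFun h3 0
  have b1 := congrFun h3 1
  simp [mulVec, dotProduct] at a0 a1 b0 b1
  have c00 : N 0 0 = μ := by
    have : (z 1 - z 0) * (N 0 0 - μ) = 0 := by linear_combination b0 - a0
    exact sub_eq_zero.mp ((mul_eq_zero.mp this).resolve_left hne)
  have c10 : N 1 0 = 0 := by
    have : (z 1 - z 0) * (N 1 0) = 0 := by linear_combination b1 - a1
    exact (mul_eq_zero.mp this).resolve_left hne
  have c01 : N 0 1 = 0 := by
    rw [c00] at a0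
    linear_combination a0
  have c11 : N 1 1 = μ := by
    rw [c10] at a1
    linear_combination a1
  ext i j
  fin_cases i <;> fin_cases j
  · simp [c00]
  · simp [c01]
  · simp [c10]
  · simp [c11]

end Pool.Agent.H63.MO
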