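import Mathlib

/-!
# Module Uni: elements of finite order of SL(2, ℂ)

PROOFS. Cayley-Hamilton: `g² = t g - 1`, `t = trace g` (compare the four entries, `det g = 1`).
`uni`: `N = g - 1`, `N² = g² - 2 g + 1 = 0`, so `g ^ n = 1 + n N` (induction), `24 N = 0`.
`uni_neg`: `uni` for `- g`.
`tr_mem`: let `κ` be a root of `X² - t X + 1`, `κ ≠ 0`, `t = κ + κ⁻¹`; `det (g - κ) = 0`, so there
is `v ≠ 0` with `g v = κ v` (`Matrix.exists_mulVec_eq_zero_iff`), `v = g ^ 24 v = κ ^ 24 v`.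
`TF_fin`: image of the finite set of the roots of `X ^ 24 - 1`.
`eig`: the same; `eig_two`: `κ ≠ κ⁻¹` if `g ≠ 1, -1` (otherwise `κ = ± 1`, `t = ± 2`).
-/

set_option autoImplicit false

open Matrix

namespace Pool.Agent.H63.MO

/-- the possible traces -/
def TF : Set ℂ := {x | ∃ κ : ℂ, κ ^ 24 = 1 ∧ x = κ + κ⁻¹}

private theorem Uni_roots : {κ : ℂ | κ ^ 24 = 1}.Finite := by
  refine Set.Finite.subset (Polynomial.nthRootsFinset 24 (1 : ℂ)).finite_toSet ?_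
  intro κ hκ
  have h1 : κ ^ 24 = 1 := hκ
  rw [Finset.mem_coe, Polynomial.mem_nthRootsFinset (by norm_num)]
  exact h1

theorem TF_fin : TF.Finite := by
  refine Set.Finite.subset (Uni_roots.image fun κ => κ + κ⁻¹) ?_
  rintro x ⟨κ, h1, h2⟩
  exact ⟨κ, h1, h2.symm⟩

private theorem Uni_ch (g : SpecialLinearGroup (Fin 2) ℂ) :
    g.1 * g.1 = g.1.trace • g.1 - 1 := by
  have hd : g.1 0 0 * g.1 1 1 - g.1 0 1 * g.1 1 0 = 1 := by
    have h := g.2
    rw [Matrix.det_fin_two] at h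
    exact h
  ext i j
  fin_cases i <;> fin_cases j
  · simp only [Fin.zero_eta, Fin.isValue, Matrix.mul_apply, Fin.sum_univ_two, Matrix.trace_fin_two,
      Matrix.sub_apply, Matrix.smul_apply, smul_eq_mul, Matrix.one_apply_eq]
    linear_combination -hd
  · simp only [Fin.zero_eta, Fin.mk_one, Fin.isValue, Matrix.mul_apply, Fin.sum_univ_two,
      Matrix.trace_fin_two, Matrix.sub_apply, Matrix.smul_apply, smul_eq_mul,
      Matrix.one_apply_ne (zero_ne_one : (0 : Fin 2) ≠ 1)]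
    ring
  · simp only [Fin.zero_eta, Fin.mk_one, Fin.isValue, Matrix.mul_apply, Fin.sum_univ_two,
      Matrix.trace_fin_two, Matrix.sub_apply, Matrix.smul_apply, smul_eq_mul,
      Matrix.one_apply_ne (one_ne_zero : (1 : Fin 2) ≠ 0)]
    ring
  · simp only [Fin.mk_one, Fin.isValue, Matrix.mul_apply, Fin.sum_univ_two, Matrix.trace_fin_two,
      Matrix.sub_apply, Matrix.smul_apply, smul_eq_mul, Matrix.one_apply_eq]
    linear_combination -hd

private theorem Uni_pow {N : Matrix (Fin 2) (Fin 2) ℂ} (hN : N * N = 0) (n : ℕ) :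
    (1 + N) ^ n = 1 + n • N := by
  induction n with
  | zero => simp
  | succ n ih =>
    rw [pow_succ, ih, add_mul, mul_add, mul_add, smul_mul_assoc, smul_mul_assoc, hN, smul_zero,
      one_mul, one_mul, mul_one, add_zero, succ_nsmul]
    abel

private theorem Uni_coe {g : SpecialLinearGroup (Fin 2) ℂ} (h : g ^ 24 = 1) : g.1 ^ 24 = 1 := by
  have h1 := congrArg (fun x : SpecialLinearGroup (Fin 2) ℂ => x.1) h
  exact h1

theorem uni {g : SpecialLinearGroup (Fin 2) ℂ} (h : g ^ 24 = 1) (ht : g.1.trace = 2) : g = 1 := by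
  have h1 := Uni_ch g
  rw [ht] at h1
  have h2 : (g.1 - 1) * (g.1 - 1) = 0 := by
    rw [sub_mul, mul_sub, mul_sub, h1, one_mul, mul_one, one_mul, two_smul]
    abel
  have h3 := Uni_pow h2 24
  have h4 : (1 : Matrix (Fin 2) (Fin 2) ℂ) + (g.1 - 1) = g.1 := by abel
  rw [h4, Uni_coe h] at h3
  have h5 : (24 : ℕ) • (g.1 - 1) = 0 := by
    have h6 := congrArg (fun M : Matrix (Fin 2) (Fin 2) ℂ => M - 1) h3
    simpa using h6.symm
  have h7 : g.1 - 1 = 0 := by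
    have h9 : ((24 : ℕ) : ℂ) • (g.1 - 1) = 0 := by
      rw [Nat.cast_smul_eq_nsmul]
      exact h5
    rcases smul_eq_zero.1 h9 with h8 | h8
    · exact absurd h8 (by norm_num)
    · exact h8
  apply Subtype.ext
  exact sub_eq_zero.1 h7

theorem uni_neg {g : SpecialLinearGroup (Fin 2) ℂ} (h : g ^ 24 = 1) (ht : g.1.trace = -2) :
    g = -1 := by
  have h1 : (-g) ^ 24 = 1 := by
    rw [Even.neg_pow (by decide)]
    exact h
  have h2 : (-g).1.trace = 2 := by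
    have h3 : (-g).1 = -g.1 := rfl
    rw [h3, Matrix.trace_neg, ht, neg_neg]
  have h4 := uni h1 h2
  exact neg_eq_iff_eq_neg.1 h4

private theorem Uni_eig (g : SpecialLinearGroup (Fin 2) ℂ) {κ : ℂ}
    (hκ : κ * κ - g.1.trace * κ + 1 = 0) : ∃ v : Fin 2 → ℂ, v ≠ 0 ∧ g.1 *ᵥ v = κ • v := by
  have hd : g.1 0 0 * g.1 1 1 - g.1 0 1 * g.1 1 0 = 1 := by
    have h := g.2
    rw [Matrix.det_fin_two] at h
    exact h
  have h1 : (g.1 - κ • (1 : Matrix (Fin 2) (Fin 2) ℂ)).det = 0 := by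
    rw [Matrix.trace_fin_two] at hκ
    rw [Matrix.det_fin_two]
    simp only [Matrix.sub_apply, Matrix.smul_apply, smul_eq_mul, Matrix.one_apply_eq,
      Matrix.one_apply_ne (zero_ne_one : (0 : Fin 2) ≠ 1),
      Matrix.one_apply_ne (one_ne_zero : (1 : Fin 2) ≠ 0)]
    linear_combination hκ + hd
  obtain ⟨v, hv, hv2⟩ := Matrix.exists_mulVec_eq_zero_iff.2 h1
  refine ⟨v, hv, ?_⟩
  rw [Matrix.sub_mulVec, Matrix.smul_mulVec, Matrix.one_mulVec] at hv2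
  exact sub_eq_zero.1 hv2

private theorem Uni_pv {M : Matrix (Fin 2) (Fin 2) ℂ} {κ : ℂ} {v : Fin 2 → ℂ}
    (h : M *ᵥ v = κ • v) (n : ℕ) : (M ^ n) *ᵥ v = κ ^ n • v := by
  induction n with
  | zero => rw [pow_zero, pow_zero, Matrix.one_mulVec, one_smul]
  | succ n ih =>
    rw [pow_succ, ← Matrix.mulVec_mulVec, h, Matrix.mulVec_smul, ih, smul_smul, pow_succ, mul_comm]

private theorem Uni_kappa (t : ℂ) : ∃ κ : ℂ, κ ≠ 0 ∧ κ * κ - t * κ + 1 = 0 ∧ t = κ + κ⁻¹ := by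
  obtain ⟨s, hs⟩ := IsAlgClosed.exists_eq_mul_self (t ^ 2 - 4)
  have h1 : (t + s) / 2 * ((t + s) / 2) - t * ((t + s) / 2) + 1 = 0 := by
    linear_combination -hs / 4
  have h2 : (t + s) / 2 ≠ 0 := by
    intro h
    rw [h] at h1
    norm_num at h1
  refine ⟨(t + s) / 2, h2, h1, ?_⟩
  generalize (t + s) / 2 = κ at h1 h2
  field_simp
  linear_combination -h1

theorem tr_mem {g : SpecialLinearGroup (Fin 2) ℂ} (h : g ^ 24 = 1) : g.1.trace ∈ TF := by
  obtain ⟨κ, h0, h1, h2⟩ := Uni_kappa g.1.trace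
  obtain ⟨v, hv, hgv⟩ := Uni_eig g h1
  refine ⟨κ, ?_, h2⟩
  have h3 := Uni_pv hgv 24
  rw [Uni_coe h, Matrix.one_mulVec] at h3
  have h4 : (κ ^ 24 - 1) • v = 0 := by
    rw [sub_smul, one_smul, ← h3, sub_self]
  rcases smul_eq_zero.1 h4 with h5 | h5
  · exact sub_eq_zero.1 h5
  · exact absurd h5 hv

/-- two different eigenvalues -/
theorem eig_two {g : SpecialLinearGroup (Fin 2) ℂ} (h : g ^ 24 = 1) (h1 : g ≠ 1) (h2 : g ≠ -1) :
    ∃ (κ : ℂ) (v w : Fin 2 → ℂ), κ ≠ 0 ∧ κ ≠ κ⁻¹ ∧ v ≠ 0 ∧ w ≠ 0 ∧ g.1 *ᵥ v = κ • v ∧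
      g.1 *ᵥ w = κ⁻¹ • w := by
  obtain ⟨κ, h0, h3, h4⟩ := Uni_kappa g.1.trace
  obtain ⟨v, hv, hgv⟩ := Uni_eig g h3
  have h5 : κ⁻¹ * κ⁻¹ - g.1.trace * κ⁻¹ + 1 = 0 := by
    rw [h4]
    field_simp
    ring
  obtain ⟨w, hw, hgw⟩ := Uni_eig g h5
  refine ⟨κ, v, w, h0, ?_, hv, hw, hgv, hgw⟩
  intro hκ
  have h6 : κ * κ = 1 := by
    nth_rewrite 2 [hκ]
    exact mul_inv_cancel₀ h0
  rcases mul_self_eq_one_iff.1 h6 with h7 | h7
  · apply h1
    apply uni h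
    rw [h4, h7]
    norm_num
  · apply h2
    apply uni_neg h
    rw [h4, h7]
    norm_num

end Pool.Agent.H63.MO
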